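import Pool.Agent.SH.Df

set_option autoImplicit false

namespace Pool.Agent.SHC

open Finset Pool.Agent.SH

theorem cov_small (n m : ℕ) :
    ((univ : Finset (V n)).filter fun W => W.card ≤ m).card ≤ (n + 1) ^ m := by
  classical
  have hsub : ((univ : Finset (V n)).filter fun W => W.card ≤ m) ⊆
      (univ : Finset (Fin m → Option (Fin n))).image
        (fun f => (univ : Finset (Fin n)).filter fun i => ∃ j, f j = some i) := by
    intro W hW
    have hWm : W.card ≤ m := (mem_filter.1 hW).2
    rw [mem_image]
    refine ⟨fun j => if h : (j : ℕ) < W.card then some (W.equivFin.symm ⟨j, h⟩ : Fin n) else none,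
      mem_univ _, ?_⟩
    ext i
    simp only [mem_filter, mem_univ, true_and]
    constructor
    · rintro ⟨j, hj⟩
      by_cases h : (j : ℕ) < W.card
      · rw [dif_pos h] at hj
        have : (W.equivFin.symm ⟨j, h⟩ : Fin n) = i := Option.some.inj hj
        rw [← this]
        exact (W.equivFin.symm ⟨j, h⟩).2
      · rw [dif_neg h] at hj
        exact absurd hj (by simp)
    · intro hi
      refine ⟨⟨(W.equivFin ⟨i, hi⟩ : ℕ), lt_of_lt_of_le (W.equivFin ⟨i, hi⟩).2 hWm⟩, ?_⟩
      rw [dif_pos (W.equivFin ⟨i, hi⟩).2]
      simp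
  refine (card_le_card hsub).trans (card_image_le.trans ?_)
  rw [card_univ, Fintype.card_fun, Fintype.card_option, Fintype.card_fin, Fintype.card_fin]

/-- The points `S` whose image has at least `s` images of `k`-sets within distance `r`. -/
def crowd {n : ℕ} (k r s : ℕ) (x : V n → V n) : Finset (V n) :=
  (powersetCard k (univ : V n)).filter fun S =>
    s ≤ ((powersetCard k (univ : V n)).filter fun S' => (symmDiff (x S) (x S')).card ≤ r).card

/-- The map `x` is given on the crowded points by few codes. -/
theorem cover (n k r s : ℕ) (hs : 0 < s) : ∃ 𝒳 : Finset (V n → V n),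
    𝒳.card ≤ 2 ^ (n.choose k) * 2 ^ (n * (n.choose k / s)) *
      (n.choose k * (n + 1) ^ (2 * r)) ^ (n.choose k) ∧
    ∀ x : V n → V n, ∃ x' ∈ 𝒳, ∀ S ∈ crowd k r s x, x' S = x S := by
  classical
  set L : Finset (V n) := powersetCard k (univ : V n) with hL
  have hLc : L.card = n.choose k := by
    rw [hL, card_powersetCard, card_univ, Fintype.card_fin]
  set WW : Finset (V n) := (univ : Finset (V n)).filter fun W => W.card ≤ 2 * r with hWW
  let PD : Finset (V n) → Finset (V n → V n) := fun D =>
    Fintype.piFinset fun S : V n => if S ∈ D then (univ : Finset (V n)) else {∅}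
  let PF : Finset (V n → V n) := Fintype.piFinset fun S : V n => if S ∈ L then L else {∅}
  let PW : Finset (V n → V n) := Fintype.piFinset fun S : V n => if S ∈ L then WW else {∅}
  let dec : (V n → V n) × (V n → V n) × (V n → V n) → V n → V n :=
    fun c S => symmDiff (c.1 (c.2.1 S)) (c.2.2 S)
  let 𝒟 : Finset (Finset (V n)) := L.powerset.filter fun D => D.card * s ≤ L.card
  have hPD : ∀ D ∈ 𝒟, (PD D).card ≤ 2 ^ (n * (n.choose k / s)) := by
    intro D hD
    have hDs : D.card * s ≤ n.choose k := by
      rw [← hLc]; exact (mem_filter.1 hD).2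
    have hDle : D.card ≤ n.choose k / s := (Nat.le_div_iff_mul_le hs).2 hDs
    have h1 : (PD D).card = (2 ^ n) ^ D.card := by
      simp only [PD, Fintype.card_piFinset]
      have : ∀ S : V n, ((if S ∈ D then (univ : Finset (V n)) else {∅}).card) =
          if S ∈ D then 2 ^ n else 1 := by
        intro S
        split_ifs
        · rw [card_univ, Fintype.card_finset, Fintype.card_fin]
        · simp
      simp_rw [this]
      rw [prod_ite_mem, univ_inter, prod_const]
    rw [h1, ← pow_mul]
    exact Nat.pow_le_pow_right (by norm_num) (Nat.mul_le_mul_left n hDle)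
  have hPF : PF.card = (n.choose k) ^ (n.choose k) := by
    simp only [PF, Fintype.card_piFinset]
    have : ∀ S : V n, ((if S ∈ L then L else {∅}).card) =
        if S ∈ L then n.choose k else 1 := by
      intro S
      split_ifs
      · exact hLc
      · simp
    simp_rw [this]
    rw [prod_ite_mem, univ_inter, prod_const, hLc]
  have hPW : PW.card ≤ ((n + 1) ^ (2 * r)) ^ (n.choose k) := by
    simp only [PW, Fintype.card_piFinset]
    have : ∀ S : V n, ((if S ∈ L then WW else {∅}).card) ≤
        if S ∈ L then (n + 1) ^ (2 * r) else 1 := by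
      intro S
      split_ifs
      · exact cov_small n (2 * r)
      · simp
    refine (prod_le_prod' fun S _ => this S).trans ?_
    rw [prod_ite_mem, univ_inter, prod_const, hLc]
  refine ⟨𝒟.biUnion fun D => (PD D ×ˢ (PF ×ˢ PW)).image dec, ?_, ?_⟩
  · refine card_biUnion_le.trans ?_
    have h1 : ∀ D ∈ 𝒟, ((PD D ×ˢ (PF ×ˢ PW)).image dec).card ≤
        2 ^ (n * (n.choose k / s)) * (n.choose k * (n + 1) ^ (2 * r)) ^ (n.choose k) := by
      intro D hD
      refine card_image_le.trans ?_
      rw [card_product, card_product, hPF, mul_pow]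
      exact Nat.mul_le_mul (hPD D hD) (Nat.mul_le_mul_left _ hPW)
    refine (sum_le_card_nsmul _ _ _ h1).trans ?_
    rw [smul_eq_mul, mul_assoc]
    refine Nat.mul_le_mul_right _ ?_
    refine (card_filter_le _ _).trans ?_
    rw [card_powerset, hLc]
  · intro x
    set Nb : V n → Finset (V n) := fun S => L.filter fun S' => (symmDiff (x S) (x S')).card ≤ r
      with hNb
    have hBmem : ∀ S, S ∈ crowd k r s x ↔ S ∈ L ∧ s ≤ (Nb S).card := by
      intro S
      simp only [crowd, mem_filter, hNb, hL]
    -- a maximal subset with disjoint neighbourhoods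
    let 𝒬 : Finset (Finset (V n)) := (crowd k r s x).powerset.filter fun D =>
      ∀ S ∈ D, ∀ S' ∈ D, S ≠ S' → Disjoint (Nb S) (Nb S')
    have hne : 𝒬.Nonempty := ⟨∅, by simp [𝒬]⟩
    obtain ⟨D, hD, hmax⟩ := exists_max_image 𝒬 card hne
    have hDB : D ⊆ crowd k r s x := mem_powerset.1 (mem_filter.1 hD).1
    have hDd := (mem_filter.1 hD).2
    have hDL : D ⊆ L := fun S hS => ((hBmem S).1 (hDB hS)).1
    have hDs : D.card * s ≤ L.card := by
      have h1 : (D.biUnion Nb).card = ∑ S ∈ D, (Nb S).card :=
        card_biUnion fun S hS S' hS' h => hDd S hS S' hS' h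
      have h2 : D.card • s ≤ ∑ S ∈ D, (Nb S).card :=
        card_nsmul_le_sum _ _ _ fun S hS => ((hBmem S).1 (hDB hS)).2
      have h3 : (D.biUnion Nb).card ≤ L.card := by
        apply card_le_card
        intro S hS
        obtain ⟨S', _, hS''⟩ := mem_biUnion.1 hS
        exact (mem_filter.1 hS'').1
      rw [smul_eq_mul] at h2
      omega
    have hclose : ∀ S ∈ crowd k r s x, ∃ S' ∈ D, (symmDiff (x S') (x S)).card ≤ 2 * r := by
      intro S hS
      have hnear : ∀ S1 S2 S3 : V n, S3 ∈ Nb S1 → S3 ∈ Nb S2 →
          (symmDiff (x S2) (x S1)).card ≤ 2 * r := by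
        intro S1 S2 S3 h1 h2
        have e1 := (mem_filter.1 h1).2
        have e2 := (mem_filter.1 h2).2
        have hsub : symmDiff (x S2) (x S1) ⊆ symmDiff (x S2) (x S3) ∪ symmDiff (x S1) (x S3) := by
          intro t ht
          rw [mem_symmDiff] at ht
          rw [mem_union, mem_symmDiff, mem_symmDiff]
          tauto
        refine (card_le_card hsub).trans ((card_union_le _ _).trans ?_)
        omega
      by_cases hSD : S ∈ D
      · exact ⟨S, hSD, by rw [symmDiff_self]; simp⟩
      · by_contra hcon
        push Not at hcon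
        have hins : insert S D ∈ 𝒬 := by
          rw [mem_filter, mem_powerset]
          refine ⟨insert_subset hS hDB, ?_⟩
          have hdis : ∀ S' ∈ D, Disjoint (Nb S) (Nb S') := by
            intro S' hS'
            rw [disjoint_left]
            intro S3 h3 h3'
            have := hnear S S' S3 h3 h3'
            have := hcon S' hS'
            omega
          intro S1 h1 S2 h2 h12
          rcases mem_insert.1 h1 with e1 | g1
          · rcases mem_insert.1 h2 with e2 | g2
            · exact absurd (e1.trans e2.symm) h12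
            · rw [e1]; exact hdis S2 g2
          · rcases mem_insert.1 h2 with e2 | g2
            · rw [e2]; exact (hdis S1 g1).symm
            · exact hDd S1 g1 S2 g2 h12
        have := hmax _ hins
        rw [card_insert_of_notMem hSD] at this
        omega
    -- the code
    have hf : ∀ S : V n, ∃ S' : V n, (S ∈ L → S' ∈ L) ∧ (S ∉ L → S' = ∅) ∧
        (S ∈ crowd k r s x → S' ∈ D ∧ (symmDiff (x S') (x S)).card ≤ 2 * r) := by
      intro S
      by_cases hS : S ∈ crowd k r s x
      · obtain ⟨S', h1, h2⟩ := hclose S hS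
        refine ⟨S', fun _ => hDL h1, fun h => absurd ((hBmem S).1 hS).1 h, fun _ => ⟨h1, h2⟩⟩
      · by_cases hSL : S ∈ L
        · exact ⟨S, fun _ => hSL, fun h => absurd hSL h, fun h => absurd h hS⟩
        · exact ⟨∅, fun h => absurd h hSL, fun _ => rfl, fun h => absurd h hS⟩
    choose f hf1 hf2 hf3 using hf
    let y : V n → V n := fun S => if S ∈ D then x S else ∅
    let w : V n → V n := fun S => if S ∈ crowd k r s x then symmDiff (x (f S)) (x S) else ∅
    refine ⟨dec (y, f, w), ?_, ?_⟩
    · rw [mem_biUnion]
      refine ⟨D, mem_filter.2 ⟨mem_powerset.2 hDL, hDs⟩, mem_image_of_mem _ ?_⟩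
      rw [mem_product, mem_product]
      refine ⟨?_, ?_, ?_⟩
      · simp only [PD, Fintype.mem_piFinset, y]
        intro S
        split_ifs <;> simp
      · simp only [PF, Fintype.mem_piFinset]
        intro S
        split_ifs with h
        · exact hf1 S h
        · rw [mem_singleton]; exact hf2 S h
      · simp only [PW, Fintype.mem_piFinset, w]
        intro S
        by_cases hS : S ∈ crowd k r s x
        · rw [if_pos hS, if_pos ((hBmem S).1 hS).1, hWW, mem_filter]
          exact ⟨mem_univ _, (hf3 S hS).2⟩
        · rw [if_neg hS]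
          split_ifs
          · rw [hWW, mem_filter]
            exact ⟨mem_univ _, by simp⟩
          · simp
    · intro S hS
      simp only [dec, y, w]
      rw [if_pos (hf3 S hS).1, if_pos hS, symmDiff_symmDiff_cancel_left]

end Pool.Agent.SHC
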