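import Pool.Agent.SH.Df
import Pool.Agent.SHC.Cov

/-!
# `q ≥ C n`: definitions
-/

set_option autoImplicit false

namespace Pool.Agent.SHC

open Finset Pool.Agent.SH

/-- The `k`-sets. -/
abbrev Lk (n k : ℕ) : Finset (V n) := powersetCard k (univ : V n)

/-- Sizes: `k` is about `log n / 320` (base two). -/
def Sz (k n : ℕ) : Prop := 2 ^ (320 * k) ≤ n ∧ n ≤ 2 ^ (640 * k)

/-- The crowded points of the window. -/
def Bk {n : ℕ} (k : ℕ) (x : V n → V n) : Finset (V n) := crowd k 2 n x

/-- The other ones. -/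
def Ak {n : ℕ} (k : ℕ) (x : V n → V n) : Finset (V n) := Lk n k \ Bk k x

/-- The number of images of `k`-sets adjacent to `v`. -/
def dg {n : ℕ} (k : ℕ) (x : V n → V n) (v : V n) : ℕ :=
  ((Lk n k).filter fun S => adj (x S) v).card

/-- The number of facets of `T` in `Ak`. -/
def aT {n : ℕ} (k : ℕ) (x : V n → V n) (T : V n) : ℕ :=
  (T.filter fun t => T.erase t ∈ Ak k x).card

/-- The `(k+1)`-sets with many facets in `Ak`. -/
def TA {n : ℕ} (k : ℕ) (x : V n → V n) : Finset (V n) :=
  (Lk n (k + 1)).filter fun T => k + 1 < 25 * aT k x T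

open Classical in
/-- The vertex adjacent to three fifths of the images of the facets of `T`. -/
noncomputable def vT {n : ℕ} (k : ℕ) (x : V n → V n) (T : V n) : V n :=
  if h : ∃ v : V n, 3 * (k + 1) ≤ 5 * (T.filter fun t => adj (x (T.erase t)) v).card then h.choose
  else ∅

/-- `T` is regular: the vertex `vT k x T` is the position of three fifths of its facets. -/
def Reg {n : ℕ} (k : ℕ) (x : V n → V n) (p : V n → V n → V n) (T : V n) : Prop :=
  3 * (k + 1) ≤ 5 * (T.filter fun t => T.erase t ∈ Bk k x ∧ p (T.erase t) T = vT k x T).card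

open Classical in
/-- The sets which are not regular although most of their facets are crowded. -/
noncomputable def NR {n : ℕ} (k : ℕ) (x : V n → V n) (p : V n → V n → V n) : Finset (V n) :=
  (Lk n (k + 1)).filter fun T => T ∉ TA k x ∧ ¬ Reg k x p T

open Classical in
/-- The directions `a` with `S ∪ {a}` regular and position at `S` different from `vT`. -/
noncomputable def offs {n : ℕ} (k : ℕ) (x : V n → V n) (p : V n → V n → V n) (S : V n) :
    Finset (Fin n) :=
  univ.filter fun a => a ∉ S ∧ insert a S ∉ TA k x ∧ Reg k x p (insert a S) ∧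
    p S (insert a S) ≠ vT k x (insert a S)

/-- The `k`-sets with many off directions. -/
noncomputable def BAD {n : ℕ} (k : ℕ) (x : V n → V n) (p : V n → V n → V n) : Finset (V n) :=
  (Lk n k).filter fun S => n ≤ 2 ^ 20 * (offs k x p S).card

/-- Some star has at least `n / 2 ^ 23` repeated colours. -/
def E0f {n : ℕ} {C : Type} (χ : V n → C) : Prop :=
  ∃ (y : V n) (J : Finset (Fin n)) (g : Fin n → Fin n),
    (∀ i ∈ J, g i ∉ J ∧ χ (fl y i) = χ (fl y (g i))) ∧ n ≤ 2 ^ 23 * J.card

/-- The cover of the windows. -/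
noncomputable def XX (n k : ℕ) : Finset (V n → V n) :=
  if h : 0 < n then (cover n k 2 n h).choose else ∅

theorem XX_card {n k : ℕ} (hn : 0 < n) : (XX n k).card ≤
    2 ^ (2 * n.choose k) * (n.choose k * (n + 1) ^ 4) ^ (n.choose k) := by
  rw [XX, dif_pos hn]
  refine (cover n k 2 n hn).choose_spec.1.trans ?_
  refine Nat.mul_le_mul_right _ ?_
  rw [← pow_add]
  refine Nat.pow_le_pow_right (by norm_num) ?_
  have := Nat.mul_div_le (n.choose k) n
  omega

theorem XX_spec {n k : ℕ} (hn : 0 < n) (x : V n → V n) :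
    ∃ x' ∈ XX n k, ∀ S ∈ Bk k x, x' S = x S := by
  rw [XX, dif_pos hn]
  exact (cover n k 2 n hn).choose_spec.2 x

end Pool.Agent.SHC
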