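import Pool.Agent.SHC.Xl

set_option autoImplicit false

namespace Pool.Agent.SHC

open Finset Pool.Agent.SH

/-- A bad edge gives many coincidences (local hypotheses). -/
theorem exact_loc {n : ℕ} {C : Type} {χ : V n → C} {σ : Equiv.Perm (V n)} {β : V n → V n → V n}
    (ht : Twin χ σ β) (w : V n) (b : Fin n)
    (hmany : n * n ≤
      4 * ((univ : Finset (Fin n × Fin n)).filter fun p => p.1 < p.2 ∧ Reg σ w b p).card) :
    E2f χ := by
  classical
  -- neighbours of `x` kept by `σ`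
  have hch : ∀ x : V n, ∃ f : Fin n → Fin n, ∀ a, adj (σ x) (σ (fl x a)) →
      σ (fl x a) = fl (σ x) (f a) := by
    intro x
    have : ∀ a : Fin n, ∃ i, adj (σ x) (σ (fl x a)) → σ (fl x a) = fl (σ x) i := by
      intro a
      by_cases h : adj (σ x) (σ (fl x a))
      · obtain ⟨i, hi⟩ := adj_iff.1 h
        exact ⟨i, fun _ => hi⟩
      · exact ⟨b, fun h' => absurd h' h⟩
    choose f hf using this
    exact ⟨f, hf⟩
  obtain ⟨f, hf⟩ := hch w
  obtain ⟨h, hh⟩ := hch (fl w b)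
  -- second level
  have hsec : ∀ (x : V n) (g : Fin n → Fin n), (∀ a, adj (σ x) (σ (fl x a)) →
      σ (fl x a) = fl (σ x) (g a)) → ∀ a c : Fin n, a ≠ c → adj (σ x) (σ (fl x a)) →
      adj (σ x) (σ (fl x c)) → adj (σ (fl x a)) (σ (fl (fl x a) c)) →
      adj (σ (fl x c)) (σ (fl (fl x c) a)) →
      σ (fl (fl x a) c) = fl (fl (σ x) (g a)) (g c) := by
    intro x g hg a c hac h1 h2 h3 h4
    refine eq_fl_fl ?_ ?_ ?_ ?_
    · intro he
      apply hac
      have := hg a h1
      rw [he, ← hg c h2] at this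
      exact fl_inj.1 (σ.injective this)
    · rw [← hg a h1]
      exact adj_comm.1 h3
    · rw [← hg c h2]
      rw [fl_comm x c a] at h4
      exact adj_comm.1 h4
    · intro he
      have h5 := σ.injective he
      have h6 : fl x a = fl x c := by
        rw [← fl_fl (fl x a) c, h5]
      exact hac (fl_inj.1 h6)
  set R0 := (univ : Finset (Fin n × Fin n)).filter fun p => p.1 < p.2 ∧ Reg σ w b p with hR0
  have hs : ∀ r ∈ R0, σ (fl (fl (fl w b) r.1) r.2) =
      fl (fl (σ (fl w b)) (h r.1)) (h r.2) := by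
    intro r hr
    obtain ⟨hlt, hreg⟩ := (mem_filter.1 hr).2
    obtain ⟨_, _, _, _, _, _, g7, g8, g9, g10, _⟩ := hreg
    exact hsec (fl w b) h hh r.1 r.2 hlt.ne g7 g8 g9 g10
  have hp : ∀ r ∈ R0, σ (fl (fl w r.1) r.2) = fl (fl (σ w) (f r.1)) (f r.2) := by
    intro r hr
    obtain ⟨hlt, hreg⟩ := (mem_filter.1 hr).2
    obtain ⟨_, _, g3, g4, g5, g6, _, _, _, _, _⟩ := hreg
    exact hsec w f hf r.1 r.2 hlt.ne g3 g4 g5 g6
  have hcm : ∀ r : Fin n × Fin n, fl (fl (fl w b) r.1) r.2 = fl (fl (fl w r.1) r.2) b := by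
    intro r
    rw [fl_comm w b r.1, fl_comm (fl w r.1) b r.2]
  have hadj : ∀ r : Fin n × Fin n, adj (fl (fl w r.1) r.2) (fl (fl (fl w b) r.1) r.2) := by
    intro r
    rw [hcm r]
    exact adj_fl _ _
  have hz : ∀ r : Fin n × Fin n, ∃ i : Fin n,
      β (fl (fl w r.1) r.2) (fl (fl (fl w b) r.1) r.2) = fl (σ (fl (fl w r.1) r.2)) i := by
    intro r
    exact adj_iff.1 (ht.1 _ _ (hadj r))
  choose z hz using hz
  -- the two vertices attached to a pair
  let s : Fin n × Fin n → V n := fun r => fl (fl (σ (fl w b)) (h r.1)) (h r.2)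
  let Z : Fin n × Fin n → V n := fun r => fl (fl (fl (σ w) (f r.1)) (f r.2)) (z r)
  have hsinj : ∀ r ∈ R0, ∀ r' ∈ R0, s r = s r' → r = r' := by
    intro r hr r' hr' he
    have he' : σ (fl (fl (fl w b) r.1) r.2) = σ (fl (fl (fl w b) r'.1) r'.2) := by
      rw [hs r hr, hs r' hr']
      exact he
    obtain ⟨e1, e2⟩ := xa_pair_inj _ (mem_filter.1 hr).2.1 (mem_filter.1 hr').2.1
      (σ.injective he')
    exact Prod.ext e1 e2
  have hZeq : ∀ r ∈ R0, Z r = β (fl (fl w r.1) r.2) (fl (fl (fl w b) r.1) r.2) := by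
    intro r hr
    rw [hz r, hp r hr]
  have hZs : ∀ r ∈ R0, Z r ≠ s r := by
    intro r hr he
    have h11 := (mem_filter.1 hr).2.2.2.2.2.2.2.2.2.2.2.2
    apply h11
    rw [← hcm r, hs r hr]
    have h1 := ht.1 _ _ (hadj r)
    rw [← hZeq r hr, he] at h1
    exact h1
  have hcol : ∀ r ∈ R0, χ (s r) = χ (Z r) := by
    intro r hr
    have h1 := ht.2.2 _ _ (hadj r)
    rw [← hZeq r hr, hs r hr] at h1
    exact h1.symm
  -- an independent quarter
  let F : V n → V n := fun v => if hv : ∃ r ∈ R0, s r = v then Z hv.choose else ∅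
  have hF : ∀ r ∈ R0, F (s r) = Z r := by
    intro r hr
    have hv : ∃ r' ∈ R0, s r' = s r := ⟨r, hr, rfl⟩
    have h1 : F (s r) = Z hv.choose := dif_pos hv
    rw [h1, hsinj _ hv.choose_spec.1 r hr hv.choose_spec.2]
  obtain ⟨A', hA', hcard, hind⟩ := sel4 (R0.image s) F (by
    intro a ha
    obtain ⟨r, hr, rfl⟩ := mem_image.1 ha
    rw [hF r hr]
    exact hZs r hr)
  let R := R0.filter fun r => s r ∈ A'
  have hRcard : A'.card ≤ R.card := by
    have : A' ⊆ R.image s := by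
      intro a ha
      obtain ⟨r, hr, rfl⟩ := mem_image.1 (hA' ha)
      exact mem_image.2 ⟨r, mem_filter.2 ⟨hr, ha⟩, rfl⟩
    exact (card_le_card this).trans card_image_le
  have hR0card : (R0.image s).card = R0.card := by
    apply card_image_of_injOn
    intro r hr r' hr' he
    exact hsinj r hr r' hr' he
  refine ⟨σ w, σ (fl w b), f, h, R, z, ?_, ?_, ?_, ?_⟩
  · rw [sq]
    omega
  · intro r hr r' hr' he
    exact hsinj r (mem_filter.1 hr).1 r' (mem_filter.1 hr').1 he
  · intro r hr r' hr' he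
    have h1 := hind (s r) (mem_filter.1 hr).2
    rw [hF r (mem_filter.1 hr).1] at h1
    apply h1
    have h2 : Z r = s r' := he
    rw [h2]
    exact (mem_filter.1 hr').2
  · intro r hr
    exact hcol r (mem_filter.1 hr).1

end Pool.Agent.SHC
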