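import Pool.Agent.SHC.De
import Pool.Agent.SHC.Xe
import Pool.Agent.SH.Dn

set_option autoImplicit false

namespace Pool.Agent.SHC

open Finset Pool.Agent.SH

/-- `σ` preserves almost all edges at `w`. -/
def SN {n : ℕ} (σ : Equiv.Perm (V n)) (κ : ℝ) (w : V n) : Prop :=
  (dfc σ w : ℝ) ≤ 396 * κ * n

open Classical in
/-- `σ` preserves almost all edges at `w` and at almost all neighbours of `w`. -/
def SVN {n : ℕ} (σ : Equiv.Perm (V n)) (κ : ℝ) (w : V n) : Prop :=
  SN σ κ w ∧ ((univ.filter fun a : Fin n => ¬ SN σ κ (fl w a)).card : ℝ) ≤ 2 * κ * n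

/-- Two vertices with almost all edges preserved at almost all of their neighbours. -/
theorem exact_edge {n : ℕ} {C : Type} {χ : V n → C} {σ : Equiv.Perm (V n)} {β : V n → V n → V n}
    (ht : Twin χ σ β) (h2 : ¬ E2f χ) (κ : ℝ) (hκ : 0 < κ) (hκ' : κ ≤ 1 / 500000) (hn : 200 ≤ n)
    (w : V n) (b : Fin n) (hw : 100 * dfc σ w ≤ n)
    (hE : 100 * (univ.filter fun a : Fin n => n < 100 * dfc σ (fl w a)).card ≤ n)
    (hu : SVN σ κ (fl w b)) : adj (σ w) (σ (fl w b)) := by
  classical
  by_contra hb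
  apply h2
  have hnR : (200 : ℝ) ≤ n := by exact_mod_cast hn
  refine exact_loc ht w b (xl_many σ hn w b hw ?_ hE ?_ hb)
  · have h3 : (100 * dfc σ (fl w b) : ℝ) ≤ n := by
      have := hu.1
      unfold SN at this
      nlinarith
    exact_mod_cast h3
  · have h3 : (univ.filter fun a : Fin n => n < 100 * dfc σ (fl (fl w b) a)).card ≤
        (univ.filter fun a : Fin n => ¬ SN σ κ (fl (fl w b) a)).card := by
      refine card_le_card fun a ha => ?_
      rw [mem_filter] at ha ⊢
      refine ⟨mem_univ _, fun h4 => ?_⟩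
      have h5 : (n : ℝ) < 100 * dfc σ (fl (fl w b) a) := by exact_mod_cast ha.2
      unfold SN at h4
      nlinarith
    have h4 : (100 * (univ.filter fun a : Fin n => n < 100 * dfc σ (fl (fl w b) a)).card : ℝ) ≤
        n := by
      have h5 := hu.2
      have h6 : ((univ.filter fun a : Fin n => n < 100 * dfc σ (fl (fl w b) a)).card : ℝ) ≤
        (univ.filter fun a : Fin n => ¬ SN σ κ (fl (fl w b) a)).card := by exact_mod_cast h3
      nlinarith
    exact_mod_cast h4

/-- Double counting between two levels. -/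
theorem ds_count {n : ℕ} (j : ℕ) (κ δ : ℝ) (hκ : 0 < κ) (hδ : 0 ≤ δ) (hn : 0 < n)
    (P Q : V n → Prop) [DecidablePred P] [DecidablePred Q]
    (hP : (((powersetCard (j + 1) (univ : V n)).filter P).card : ℝ) ≤ δ * n.choose (j + 1))
    (h : ∀ S : V n, S.card = j →
      (((Sᶜ).filter fun a => P (insert a S)).card : ℝ) ≤ κ * n → ¬ Q S) :
    (((powersetCard j (univ : V n)).filter Q).card : ℝ) ≤ δ / κ * n.choose j := by
  classical
  have hnpos : (0 : ℝ) < n := by exact_mod_cast hn
  set F := (powersetCard j (univ : V n)).filter Q with hF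
  set g : V n → ℕ := fun S => ((Sᶜ).filter fun a => P (insert a S)).card with hg
  have hlow : ∀ S ∈ F, κ * n ≤ (g S : ℝ) := by
    intro S hS
    rw [hF, mem_filter, mem_powersetCard] at hS
    by_contra hlt
    push Not at hlt
    exact h S hS.1.2 hlt.le hS.2
  have hsum : ∑ S ∈ powersetCard j (univ : V n), g S ≤
      (j + 1) * ((powersetCard (j + 1) (univ : V n)).filter P).card :=
    dn_double j P
  have h5 : (F.card : ℝ) * (κ * n) ≤ ∑ S ∈ F, (g S : ℝ) := by
    rw [← nsmul_eq_mul]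
    exact card_nsmul_le_sum _ _ _ hlow
  have h6 : ∑ S ∈ F, (g S : ℝ) ≤ ∑ S ∈ powersetCard j (univ : V n), (g S : ℝ) :=
    sum_le_sum_of_subset_of_nonneg (filter_subset _ _) fun _ _ _ => Nat.cast_nonneg _
  have h7 : ∑ S ∈ powersetCard j (univ : V n), (g S : ℝ) ≤
      (j + 1) * (((powersetCard (j + 1) (univ : V n)).filter P).card : ℝ) := by
    exact_mod_cast hsum
  have h8 : ((j : ℝ) + 1) * (n.choose (j + 1) : ℝ) ≤ n * n.choose j := by
    have := Nat.choose_succ_right_eq n j
    have h9 : n.choose (j + 1) * (j + 1) ≤ n.choose j * n := by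
      rw [this]
      exact Nat.mul_le_mul_left _ (Nat.sub_le _ _)
    have h10 : (n.choose (j + 1) : ℝ) * (j + 1) ≤ n.choose j * n := by exact_mod_cast h9
    linarith
  have h11 : (F.card : ℝ) * (κ * n) ≤ δ * (n * n.choose j) := by
    calc (F.card : ℝ) * (κ * n) ≤
          (j + 1) * (((powersetCard (j + 1) (univ : V n)).filter P).card : ℝ) :=
            (h5.trans h6).trans h7
      _ ≤ (j + 1) * (δ * n.choose (j + 1)) := by gcongr
      _ = δ * ((j + 1) * n.choose (j + 1)) := by ring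
      _ ≤ δ * (n * n.choose j) := by gcongr
  rw [div_mul_eq_mul_div, le_div_iff₀ hκ]
  have h12 : (F.card : ℝ) * κ * n ≤ δ * n.choose j * n := by linarith
  exact le_of_mul_le_mul_right h12 hnpos

/-- Neighbours of `w0 ∆ S` below or above. -/
theorem ds_nbrs {n : ℕ} (j : ℕ) (w0 S : V n) (hS : S.card = j) (P : V n → Prop)
    [DecidablePred P] :
    (univ.filter fun a : Fin n => P (fl (symmDiff w0 S) a)).card ≤
      ((Sᶜ).filter fun a => P (symmDiff w0 (insert a S))).card + j := by
  classical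
  have hsub : (univ.filter fun a : Fin n => P (fl (symmDiff w0 S) a)) ⊆
      ((Sᶜ).filter fun a => P (symmDiff w0 (insert a S))) ∪ S := by
    intro a ha
    rw [mem_union]
    by_cases h : a ∈ S
    · exact Or.inr h
    · left
      rw [mem_filter, mem_compl]
      refine ⟨h, ?_⟩
      rw [symmDiff_insert w0 S a h]
      exact (mem_filter.1 ha).2
  refine (card_le_card hsub).trans ((card_union_le _ _).trans ?_)
  rw [hS]

/-- One step of the descent, at one set. -/
theorem ds_point {n : ℕ} {C : Type} {χ : V n → C} {σ : Equiv.Perm (V n)} {β : V n → V n → V n}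
    (ht : Twin χ σ β) (h1 : ¬ E1f χ) (h2 : ¬ E2f χ) (j : ℕ) (κ : ℝ) (hκ : 0 < κ)
    (hκ' : κ ≤ 1 / 500000) (hn : 200 ≤ n) (hj : (3 + j : ℝ) ≤ κ * n) (w0 S : V n)
    (hS : S.card = j)
    (hN : letI := Classical.decPred (SVN σ κ)
      (((Sᶜ).filter fun a => ¬ SVN σ κ (symmDiff w0 (insert a S))).card : ℝ) ≤ κ * n) :
    SVN σ κ (symmDiff w0 S) := by
  classical
  have hnR : (200 : ℝ) ≤ n := by exact_mod_cast hn
  have hj10 : 10 * j ≤ n := by
    have h3 : (10 * j : ℝ) ≤ n := by nlinarith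
    exact_mod_cast h3
  have hN1 : (((Sᶜ).filter fun a => ¬ SVN σ κ (symmDiff w0 (insert a S))).card : ℝ) ≤ κ * n := by
    convert hN
  have hmono : ∀ (P : V n → Prop) [DecidablePred P], (∀ v, P v → ¬ SVN σ κ v) →
      (((Sᶜ).filter fun a => P (symmDiff w0 (insert a S))).card : ℝ) ≤ κ * n := by
    intro P _ hP
    refine le_trans ?_ hN1
    have : ((Sᶜ).filter fun a => P (symmDiff w0 (insert a S))).card ≤
        ((Sᶜ).filter fun a => ¬ SVN σ κ (symmDiff w0 (insert a S))).card := by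
      refine card_le_card fun a ha => ?_
      rw [mem_filter] at ha ⊢
      exact ⟨ha.1, hP _ ha.2⟩
    exact_mod_cast this
  -- the rough bound
  have hd : (dfc σ (symmDiff w0 S) : ℝ) ≤ 11 * (κ + 396 * κ) * n := by
    refine dn_point ht h1 j κ (396 * κ) hκ (by positivity) (by linarith) (by omega) hj10 hj w0 S
      hS ?_
    have := hmono (fun v => 396 * κ * n < dfc σ v) (fun v hv h => by
      have h3 := h.1
      unfold SN at h3
      linarith)
    convert this
  have hd100 : 100 * dfc σ (symmDiff w0 S) ≤ n := by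
    have h3 : (100 * dfc σ (symmDiff w0 S) : ℝ) ≤ n := by nlinarith
    exact_mod_cast h3
  -- the neighbours which are not nice
  have hSN : ((univ.filter fun a : Fin n => ¬ SN σ κ (fl (symmDiff w0 S) a)).card : ℝ) ≤
      2 * κ * n := by
    have h3 := ds_nbrs j w0 S hS (fun v => ¬ SN σ κ v)
    have h4 := hmono (fun v => ¬ SN σ κ v) (fun v hv h => hv h.1)
    have h5 : ((univ.filter fun a : Fin n => ¬ SN σ κ (fl (symmDiff w0 S) a)).card : ℝ) ≤
      ((Sᶜ).filter fun a => ¬ SN σ κ (symmDiff w0 (insert a S))).card + j := by exact_mod_cast h3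
    linarith
  have hE : 100 * (univ.filter fun a : Fin n => n < 100 * dfc σ (fl (symmDiff w0 S) a)).card ≤
      n := by
    have h3 : (univ.filter fun a : Fin n => n < 100 * dfc σ (fl (symmDiff w0 S) a)).card ≤
        (univ.filter fun a : Fin n => ¬ SN σ κ (fl (symmDiff w0 S) a)).card := by
      refine card_le_card fun a ha => ?_
      rw [mem_filter] at ha ⊢
      refine ⟨mem_univ _, fun h4 => ?_⟩
      have h5 : (n : ℝ) < 100 * dfc σ (fl (symmDiff w0 S) a) := by exact_mod_cast ha.2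
      unfold SN at h4
      nlinarith
    have h4 : (100 * (univ.filter fun a : Fin n =>
        n < 100 * dfc σ (fl (symmDiff w0 S) a)).card : ℝ) ≤ n := by
      have h6 : ((univ.filter fun a : Fin n =>
          n < 100 * dfc σ (fl (symmDiff w0 S) a)).card : ℝ) ≤
        (univ.filter fun a : Fin n => ¬ SN σ κ (fl (symmDiff w0 S) a)).card := by
        exact_mod_cast h3
      nlinarith
    exact_mod_cast h4
  refine ⟨?_, hSN⟩
  -- the exact bound
  have h3 : dfc σ (symmDiff w0 S) ≤
      (univ.filter fun a : Fin n => ¬ SVN σ κ (fl (symmDiff w0 S) a)).card := by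
    refine card_le_card fun a ha => ?_
    rw [mem_filter] at ha ⊢
    refine ⟨mem_univ _, fun h4 => ?_⟩
    exact ha.2 (exact_edge ht h2 κ hκ hκ' hn _ a hd100 hE h4)
  have h4 := ds_nbrs j w0 S hS (fun v => ¬ SVN σ κ v)
  have h5 : (dfc σ (symmDiff w0 S) : ℝ) ≤
      ((Sᶜ).filter fun a => ¬ SVN σ κ (symmDiff w0 (insert a S))).card + j := by
    exact_mod_cast h3.trans h4
  unfold SN
  nlinarith

/-- The first step of the descent, at one set. -/
theorem ds_start {n : ℕ} {C : Type} {χ : V n → C} {σ : Equiv.Perm (V n)} {β : V n → V n → V n}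
    (ht : Twin χ σ β) (h1 : ¬ E1f χ) (j : ℕ) (κ : ℝ) (hκ : 0 < κ)
    (hκ' : κ ≤ 1 / 500000) (hn : 200 ≤ n) (hj : (3 + j : ℝ) ≤ κ * n) (w0 S : V n)
    (hS : S.card = j)
    (hN : (((Sᶜ).filter fun a => 31 * κ * n < dfc σ (symmDiff w0 (insert a S))).card : ℝ) ≤
      κ * n) :
    SVN σ κ (symmDiff w0 S) := by
  classical
  have hnR : (200 : ℝ) ≤ n := by exact_mod_cast hn
  have hj10 : 10 * j ≤ n := by
    have h3 : (10 * j : ℝ) ≤ n := by nlinarith
    exact_mod_cast h3
  have hd : (dfc σ (symmDiff w0 S) : ℝ) ≤ 11 * (κ + 31 * κ) * n :=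
    dn_point ht h1 j κ (31 * κ) hκ (by positivity) (by linarith) (by omega) hj10 hj w0 S hS hN
  refine ⟨?_, ?_⟩
  · unfold SN
    nlinarith
  · have h3 := ds_nbrs j w0 S hS (fun v => ¬ SN σ κ v)
    have h4 : ((Sᶜ).filter fun a => ¬ SN σ κ (symmDiff w0 (insert a S))).card ≤
        ((Sᶜ).filter fun a => 31 * κ * n < dfc σ (symmDiff w0 (insert a S))).card := by
      refine card_le_card fun a ha => ?_
      rw [mem_filter] at ha ⊢
      refine ⟨ha.1, ?_⟩
      have h5 := ha.2
      unfold SN at h5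
      push Not at h5
      nlinarith
    have h5 : ((univ.filter fun a : Fin n => ¬ SN σ κ (fl (symmDiff w0 S) a)).card : ℝ) ≤
        ((Sᶜ).filter fun a => 31 * κ * n < dfc σ (symmDiff w0 (insert a S))).card + j := by
      exact_mod_cast h3.trans (Nat.add_le_add_right h4 j)
    linarith

open Classical in
/-- All levels. -/
theorem ds_all {n : ℕ} {C : Type} {χ : V n → C} {σ : Equiv.Perm (V n)} {β : V n → V n → V n}
    (ht : Twin χ σ β) (h1 : ¬ E1f χ) (h2 : ¬ E2f χ) (κ : ℝ) (hκ : 0 < κ)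
    (hκ' : κ ≤ 1 / 500000) (hn : 200 ≤ n) (w0 : V n) (j : ℕ) (hj : (3 + j : ℝ) ≤ κ * n) :
    ∀ δ : ℝ, 0 ≤ δ → δ < κ ^ j →
    (((powersetCard j (univ : V n)).filter fun S => ¬ SVN σ κ (symmDiff w0 S)).card : ℝ) ≤
      δ * n.choose j → SVN σ κ w0 := by
  induction j with
  | zero =>
    intro δ hδ hδ1 hc
    by_contra hneg
    have h3 : ((powersetCard 0 (univ : V n)).filter fun S => ¬ SVN σ κ (symmDiff w0 S)).card =
        1 := by
      rw [powersetCard_zero, filter_singleton, if_pos]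
      · simp
      · have : symmDiff w0 (∅ : V n) = w0 := symmDiff_bot w0
        rw [this]
        exact hneg
    rw [h3] at hc
    simp only [Nat.choose_zero_right, pow_zero] at hc hδ1
    norm_num at hc
    linarith
  | succ j ih =>
    intro δ hδ hδ1 hc
    have hj' : (3 + j : ℝ) ≤ κ * n := by
      push_cast at hj
      linarith
    refine ih hj' (δ / κ) (by positivity) ?_ ?_
    · rw [div_lt_iff₀ hκ, ← pow_succ]
      exact hδ1
    · refine ds_count j κ δ hκ hδ (by omega) (fun S => ¬ SVN σ κ (symmDiff w0 S))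
        (fun S => ¬ SVN σ κ (symmDiff w0 S)) hc ?_
      intro S hS hN h4
      apply h4
      refine ds_point ht h1 h2 j κ hκ hκ' hn hj' w0 S hS ?_
      convert hN

/-- The descent from level `j` to level `0` with reset. -/
theorem descent_gen {n : ℕ} {C : Type} {χ : V n → C} {σ : Equiv.Perm (V n)} {β : V n → V n → V n}
    (ht : Twin χ σ β) (h1 : ¬ E1f χ) (h2 : ¬ E2f χ) (j : ℕ) (κ δ : ℝ) (hκ : 0 < κ)
    (hκ' : κ ≤ 1 / 500000) (hn : 200 ≤ n) (hj : (3 + j : ℝ) ≤ κ * n) (hδ : δ < κ ^ j)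
    (hl : Lv σ j (31 * κ) δ) : ∀ w b, adj (σ w) (σ (fl w b)) := by
  classical
  have hnR : (200 : ℝ) ≤ n := by exact_mod_cast hn
  have hall : ∀ w0 : V n, 100 * dfc σ w0 ≤ n := by
    intro w0
    have hδ0 : 0 ≤ δ := by
      by_contra hneg
      push Not at hneg
      have h3 := hl w0
      have h4 : (0 : ℝ) < n.choose j := by
        have h5 : j ≤ n := by
          have h6 : (j : ℝ) ≤ n := by nlinarith
          exact_mod_cast h6
        exact_mod_cast Nat.choose_pos h5
      have h5 : (0 : ℝ) ≤ ((powersetCard j (univ : V n)).filter fun S =>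
        31 * κ * n < dfc σ (symmDiff w0 S)).card := Nat.cast_nonneg _
      nlinarith
    have key : (dfc σ w0 : ℝ) ≤ 396 * κ * n := by
      rcases Nat.eq_zero_or_pos j with hj0 | hj0
      · subst hj0
        by_contra hneg
        push Not at hneg
        have h3 := hl w0
        have h4 : ((powersetCard 0 (univ : V n)).filter fun S =>
            31 * κ * n < dfc σ (symmDiff w0 S)).card = 1 := by
          rw [powersetCard_zero, filter_singleton, if_pos]
          · simp
          · have : symmDiff w0 (∅ : V n) = w0 := symmDiff_bot w0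
            rw [this]
            nlinarith
        rw [h4] at h3
        simp only [Nat.choose_zero_right, pow_zero] at h3 hδ
        norm_num at h3
        linarith
      · obtain ⟨i, rfl⟩ : ∃ i, j = i + 1 := ⟨j - 1, by omega⟩
        have hj' : (3 + i : ℝ) ≤ κ * n := by
          push_cast at hj
          linarith
        refine (ds_all ht h1 h2 κ hκ hκ' hn w0 i hj' (δ / κ) (by positivity) ?_ ?_).1
        · rw [div_lt_iff₀ hκ, ← pow_succ]
          exact hδ
        · refine ds_count i κ δ hκ hδ0 (by omega) (fun S => 31 * κ * n < dfc σ (symmDiff w0 S))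
            (fun S => ¬ SVN σ κ (symmDiff w0 S)) (by convert hl w0) ?_
          intro S hS hN h4
          apply h4
          refine ds_start ht h1 i κ hκ hκ' hn hj' w0 S hS ?_
          convert hN
    have h3 : (100 * dfc σ w0 : ℝ) ≤ n := by nlinarith
    exact_mod_cast h3
  intro w b
  by_contra hb
  exact h2 (exact_ ht (by omega) hall w b hb)

/-- Descent: all vertices are nice. -/
theorem descent : ∃ k0 : ℕ, ∀ k ≥ k0, ∀ n, Sz k n → ∀ (C : Type) (χ : V n → C)
    (σ : Equiv.Perm (V n)) (β : V n → V n → V n), Twin χ σ β → ¬ E1f χ → ¬ E2f χ →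
    Lv σ (k - 1) (31 / 2 ^ 20) ((1 / 2 : ℝ) ^ (25 * k)) →
    ∀ w b, adj (σ w) (σ (fl w b)) := by
  refine ⟨1, fun k hk n hn C χ σ β ht h1 h2 hl => ?_⟩
  obtain ⟨hn1, -⟩ := hn
  have hk1 : k + 2 ≤ 2 ^ (2 * k) := by
    have h3 : k < 2 ^ k := Nat.lt_two_pow_self
    have h4 : 2 ^ (2 * k) = 2 ^ k * 2 ^ k := by rw [two_mul, pow_add]
    have h5 : 2 ≤ 2 ^ k := by
      calc 2 = 2 ^ 1 := rfl
        _ ≤ 2 ^ k := Nat.pow_le_pow_right (by norm_num) hk
    nlinarith
  have h200 : 200 ≤ n := by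
    have h3 : 2 ^ 8 ≤ 2 ^ (320 * k) := Nat.pow_le_pow_right (by norm_num) (by omega)
    omega
  have hbig : 2 ^ 20 * (k + 2) ≤ n := by
    have h3 : 2 ^ 20 * 2 ^ (2 * k) ≤ 2 ^ (320 * k) := by
      rw [← pow_add]
      exact Nat.pow_le_pow_right (by norm_num) (by omega)
    exact (Nat.mul_le_mul_left _ hk1).trans (h3.trans hn1)
  refine descent_gen ht h1 h2 (k - 1) (1 / 2 ^ 20) ((1 / 2 : ℝ) ^ (25 * k)) (by positivity)
    (by norm_num) h200 ?_ ?_ ?_
  · have h3 : ((k - 1 : ℕ) : ℝ) = k - 1 := by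
      rw [Nat.cast_sub hk]
      simp
    rw [h3]
    have h4 : ((2 : ℝ) ^ 20) * (k + 2) ≤ n := by exact_mod_cast hbig
    have h5 : (1 / 2 ^ 20 : ℝ) * ((2 : ℝ) ^ 20 * (k + 2)) ≤ 1 / 2 ^ 20 * n :=
      mul_le_mul_of_nonneg_left h4 (by positivity)
    have h6 : (1 / 2 ^ 20 : ℝ) * ((2 : ℝ) ^ 20 * (k + 2)) = k + 2 := by
      field_simp
    linarith
  · rw [← one_div_pow, ← pow_mul]
    exact pow_lt_pow_right_of_lt_one₀ (by norm_num) (by norm_num) (by omega)
  · have h3 : (31 : ℝ) * (1 / 2 ^ 20) = 31 / 2 ^ 20 := by ring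
    rw [h3]
    exact hl

end Pool.Agent.SHC
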