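import Pool.Agent.SHC.De
import Pool.Agent.SH.Cb
import Pool.Agent.SH.Pr0

set_option autoImplicit false

namespace Pool.Agent.SHC

open Finset Pool.Agent.SH

theorem e0_ub {α ι : Type*} [DecidableEq α] (s : Finset α) (I : Finset ι) (P : α → Prop)
    (Q : ι → α → Prop) [DecidablePred P] [∀ i, DecidablePred (Q i)]
    (h : ∀ a ∈ s, P a → ∃ i ∈ I, Q i a) :
    (s.filter P).card ≤ ∑ i ∈ I, (s.filter (Q i)).card := by
  classical
  refine (card_le_card ?_).trans (card_biUnion_le (s := I) (t := fun i => s.filter (Q i)))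
  intro a ha
  rw [mem_filter] at ha
  obtain ⟨i, hi, hq⟩ := h a ha.1 ha.2
  exact mem_biUnion.2 ⟨i, hi, mem_filter.2 ⟨ha.1, hq⟩⟩

open Classical in
theorem e0_one {n q : ℕ} (y : V n) (J : Finset (Fin n)) (g : Fin n → Fin n) :
    (univ.filter fun χ : V n → Fin q => ∀ i ∈ J, g i ∉ J ∧ χ (fl y i) = χ (fl y (g i))).card *
      q ^ J.card ≤ q ^ (2 ^ n) := by
  by_cases h0 : ∀ i ∈ J, g i ∉ J
  · have hc : (J.image (fl y)).card = J.card := card_image_of_injective _ fun a b h => fl_inj.1 h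
    set f : V n → V n := fun a => if h : ∃ i ∈ J, fl y i = a then fl y (g h.choose) else a with hf
    have hfi : ∀ i ∈ J, f (fl y i) = fl y (g i) := by
      intro i hi
      have h : ∃ i' ∈ J, fl y i' = fl y i := ⟨i, hi, rfl⟩
      rw [hf]
      simp only [dif_pos h]
      rw [fl_inj.1 h.choose_spec.2]
    have key := pr (q := q) (J.image (fl y)) f (by
      intro a ha hfa
      obtain ⟨i, hi, rfl⟩ := mem_image.1 ha
      obtain ⟨i', hi', he⟩ := mem_image.1 hfa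
      rw [hfi i hi] at he
      exact h0 i hi (fl_inj.1 he ▸ hi'))
    rw [hc] at key
    refine le_trans (Nat.mul_le_mul_right _ (card_le_card ?_)) key
    intro χ hχ
    rw [mem_filter] at hχ ⊢
    refine ⟨hχ.1, fun a ha => ?_⟩
    obtain ⟨i, hi, rfl⟩ := mem_image.1 ha
    rw [hfi i hi]
    exact (hχ.2 i hi).2
  · have : (univ.filter fun χ : V n → Fin q =>
        ∀ i ∈ J, g i ∉ J ∧ χ (fl y i) = χ (fl y (g i))) = ∅ := by
      rw [filter_eq_empty_iff]
      intro χ _ h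
      exact h0 fun i hi => (h i hi).1
    rw [this]
    simp

open Classical in
theorem e0_cover {n q : ℕ} (hn : 0 < n) (χ : V n → Fin q) (h : E0f χ) :
    ∃ i ∈ (univ : Finset (V n)) ×ˢ
      ((univ.filter fun J : Finset (Fin n) => n ≤ 2 ^ 23 * J.card).sigma fun J =>
        Fintype.piFinset fun i => if i ∈ J then (univ : Finset (Fin n)) else {⟨0, hn⟩}),
      ∀ a ∈ i.2.1, i.2.2 a ∉ i.2.1 ∧ χ (fl i.1 a) = χ (fl i.1 (i.2.2 a)) := by
  obtain ⟨y, J, g, hA, hc⟩ := h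
  refine ⟨(y, ⟨J, fun i => if i ∈ J then g i else ⟨0, hn⟩⟩), ?_, ?_⟩
  · simp only [mem_product, mem_univ, true_and, mem_sigma, mem_filter]
    refine ⟨hc, ?_⟩
    rw [Fintype.mem_piFinset]
    intro i
    by_cases hi : i ∈ J
    · simp [hi]
    · simp [hi]
  · intro a ha
    simp only
    rw [if_pos ha]
    exact hA a ha

open Classical in
/-- Stars have few repeated colours. -/
theorem e0 : ∃ C n0 : ℕ, ∀ n ≥ n0, ∀ q : ℕ, 2 ^ C * n ≤ q →
    ((univ.filter fun χ : V n → Fin q => E0f χ).card : ℝ) ≤ (1 / 4) ^ n * (q : ℝ) ^ (2 ^ n) := by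
  refine ⟨4 * 2 ^ 23, 1, fun n hn q hq => ?_⟩
  have hn' : 0 < n := by omega
  have hnr : (0 : ℝ) < n := by exact_mod_cast hn'
  have hq' : (2 : ℝ) ^ (4 * 2 ^ 23) * n ≤ q := by exact_mod_cast hq
  have hq0 : (0 : ℝ) < q := lt_of_lt_of_le (by positivity) hq'
  have h1 := e0_ub (univ : Finset (V n → Fin q)) _ (fun χ => E0f χ) _
    (fun χ _ h => e0_cover hn' χ h)
  have h2 : ((univ.filter fun χ : V n → Fin q => E0f χ).card : ℝ) ≤
      ∑ i ∈ (univ : Finset (V n)) ×ˢ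
      ((univ.filter fun J : Finset (Fin n) => n ≤ 2 ^ 23 * J.card).sigma fun J =>
        Fintype.piFinset fun i => if i ∈ J then (univ : Finset (Fin n)) else {⟨0, hn'⟩}),
        (q : ℝ) ^ (2 ^ n) / (q : ℝ) ^ i.2.1.card := by
    refine le_trans (Nat.cast_le.2 h1) ?_
    rw [Nat.cast_sum]
    refine sum_le_sum fun i _ => ?_
    rw [le_div_iff₀ (by positivity)]
    exact_mod_cast e0_one i.1 i.2.1 i.2.2
  refine h2.trans ?_
  rw [sum_product]
  simp_rw [sum_sigma]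
  have h5 : (n : ℝ) / q ≤ (1 / 2) ^ (4 * 2 ^ 23) := by
    rw [div_le_iff₀ hq0, one_div, inv_pow, inv_mul_eq_div, le_div_iff₀ (by positivity), mul_comm]
    exact hq'
  have h3 : ∀ J ∈ (univ.filter fun J : Finset (Fin n) => n ≤ 2 ^ 23 * J.card),
      ∑ _j ∈ Fintype.piFinset fun i => if i ∈ J then (univ : Finset (Fin n)) else {⟨0, hn'⟩},
        (q : ℝ) ^ (2 ^ n) / (q : ℝ) ^ J.card ≤ (1 / 16) ^ n * (q : ℝ) ^ (2 ^ n) := by
    intro J hJ
    have hJ' := (mem_filter.1 hJ).2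
    rw [sum_const, nsmul_eq_mul, Fintype.card_piFinset]
    have hp : ∏ i : Fin n, (if i ∈ J then (univ : Finset (Fin n)) else {⟨0, hn'⟩}).card =
        n ^ J.card := by
      have : ∀ i : Fin n, (if i ∈ J then (univ : Finset (Fin n)) else {⟨0, hn'⟩}).card =
          if i ∈ J then n else 1 := by
        intro i
        split_ifs <;> simp
      rw [prod_congr rfl fun i _ => this i, prod_ite]
      simp
    rw [hp]
    push_cast
    have h4 : (n : ℝ) ^ J.card * ((q : ℝ) ^ (2 ^ n) / (q : ℝ) ^ J.card) =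
        ((n : ℝ) / q) ^ J.card * (q : ℝ) ^ (2 ^ n) := by
      rw [div_pow]; ring
    rw [h4]
    refine mul_le_mul_of_nonneg_right ?_ (by positivity)
    have h6 : 4 * n ≤ 4 * 2 ^ 23 * J.card := by
      rw [mul_assoc]
      exact Nat.mul_le_mul_left 4 hJ'
    calc ((n : ℝ) / q) ^ J.card ≤ ((1 / 2 : ℝ) ^ (4 * 2 ^ 23)) ^ J.card :=
          pow_le_pow_left₀ (by positivity) h5 _
      _ = (1 / 2 : ℝ) ^ (4 * 2 ^ 23 * J.card) := (pow_mul _ _ _).symm
      _ ≤ (1 / 2 : ℝ) ^ (4 * n) := pow_le_pow_of_le_one (by norm_num) (by norm_num) h6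
      _ = (1 / 16 : ℝ) ^ n := by rw [pow_mul]; norm_num
  have h6 : ∑ J ∈ (univ.filter fun J : Finset (Fin n) => n ≤ 2 ^ 23 * J.card),
      ∑ _j ∈ Fintype.piFinset fun i => if i ∈ J then (univ : Finset (Fin n)) else {⟨0, hn'⟩},
        (q : ℝ) ^ (2 ^ n) / (q : ℝ) ^ J.card ≤ 2 ^ n * ((1 / 16) ^ n * (q : ℝ) ^ (2 ^ n)) := by
    refine (sum_le_sum h3).trans ?_
    rw [sum_const, nsmul_eq_mul]
    refine mul_le_mul_of_nonneg_right ?_ (by positivity)
    have : (univ.filter fun J : Finset (Fin n) => n ≤ 2 ^ 23 * J.card).card ≤ 2 ^ n := by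
      refine (card_filter_le _ _).trans ?_
      simp
    exact_mod_cast this
  refine (sum_le_sum fun x _ => h6).trans ?_
  rw [sum_const, nsmul_eq_mul]
  have hcv : ((univ : Finset (V n)).card : ℝ) = 2 ^ n := by
    simp
  rw [hcv]
  have : (2 : ℝ) ^ n * (2 ^ n * ((1 / 16) ^ n * (q : ℝ) ^ (2 ^ n))) =
      ((2 * (2 * (1 / 16))) ^ n) * (q : ℝ) ^ (2 ^ n) := by
    rw [mul_pow, mul_pow]; ring
  rw [this]
  norm_num

end Pool.Agent.SHC
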