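import Pool.Agent.SHC.De
import Pool.Agent.SH.Cb

set_option autoImplicit false

namespace Pool.Agent.SHC

open Finset Pool.Agent.SH

open Classical in
/-- Transversals with `r` elements of the stars of `r` of the `x (T.erase t)`. -/
noncomputable def FamA {n : ℕ} (r : ℕ) (x : V n → V n) (T : V n) : Finset (Finset (V n)) :=
  univ.filter fun D => D.card = r ∧ ∃ F ⊆ T, F.card = r ∧
    ∃ i : Fin n → Fin n, D = F.image fun t => fl (x (T.erase t)) (i t)

open Classical in
/-- Pairs of common neighbours of pairs of the `x (T.erase t)`. -/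
noncomputable def FamB {n : ℕ} (x : V n → V n) (T : V n) : Finset (Finset (V n)) :=
  univ.filter fun D => D.card = 2 ∧ ∃ t1 ∈ T, ∃ t2 ∈ T, ∃ t3 ∈ T, ∃ t4 ∈ T, ∃ v v' : V n,
    x (T.erase t1) ≠ x (T.erase t2) ∧ x (T.erase t3) ≠ x (T.erase t4) ∧
      adj (x (T.erase t1)) v ∧ adj (x (T.erase t2)) v ∧
      adj (x (T.erase t3)) v' ∧ adj (x (T.erase t4)) v' ∧ D = {v, v'}

/-- The family at `T`. -/
noncomputable def Fam3 {n : ℕ} (r : ℕ) (x : V n → V n) (T : V n) : Finset (Finset (V n)) :=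
  FamA r x T ∪ FamB x T

theorem fam3_one {n : ℕ} (k r : ℕ) (x : V n → V n) (T : V n) (hT : T.card = k + 1) :
    (FamA r x T).card ≤ 2 ^ (k + 1) * n ^ r := by
  classical
  have hsub : FamA r x T ⊆ (T.powerset.filter fun F => F.card = r).biUnion fun F =>
      (univ : Finset ({t // t ∈ F} → Fin n)).image
      (fun g : {t // t ∈ F} → Fin n => (univ : Finset {t // t ∈ F}).image
        fun t : {t // t ∈ F} => fl (x (T.erase t.1)) (g t)) := by
    intro D hD
    obtain ⟨-, -, F, hF, hFc, i, hi⟩ := Finset.mem_filter.1 hD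
    refine Finset.mem_biUnion.2 ⟨F, by simp [hF, hFc], ?_⟩
    refine Finset.mem_image.2 ⟨fun t => i t.1, Finset.mem_univ _, ?_⟩
    rw [hi]
    ext v
    simp only [Finset.mem_image, Finset.mem_univ, true_and, Subtype.exists]
    constructor
    · rintro ⟨t, ht, h⟩
      exact ⟨t, ht, h⟩
    · rintro ⟨t, ht, h⟩
      exact ⟨t, ht, h⟩
  refine (Finset.card_le_card hsub).trans (Finset.card_biUnion_le.trans ?_)
  have h1 : ∀ F ∈ (T.powerset.filter fun F => F.card = r),
      ((univ : Finset ({t // t ∈ F} → Fin n)).image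
      (fun g : {t // t ∈ F} → Fin n => (univ : Finset {t // t ∈ F}).image
        fun t : {t // t ∈ F} => fl (x (T.erase t.1)) (g t))).card ≤ n ^ r := by
    intro F hF
    refine Finset.card_image_le.trans ?_
    rw [Finset.card_univ, Fintype.card_fun, Fintype.card_fin, Fintype.card_coe,
      (Finset.mem_filter.1 hF).2]
  refine (Finset.sum_le_sum h1).trans ?_
  rw [Finset.sum_const, smul_eq_mul]
  refine Nat.mul_le_mul_right _ ((Finset.card_filter_le _ _).trans ?_)
  rw [Finset.card_powerset, hT]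

theorem fam3_two {n : ℕ} (k : ℕ) (x : V n → V n) (T : V n) (hT : T.card = k + 1) :
    (FamB x T).card ≤ 4 * (k + 1) ^ 4 := by
  classical
  set P := ((T ×ˢ T) ×ˢ (T ×ˢ T)).filter fun p : (Fin n × Fin n) × (Fin n × Fin n) =>
    x (T.erase p.1.1) ≠ x (T.erase p.1.2) ∧ x (T.erase p.2.1) ≠ x (T.erase p.2.2) with hP
  have hsub : FamB x T ⊆ P.biUnion fun p =>
      ((univ.filter fun v => adj (x (T.erase p.1.1)) v ∧ adj (x (T.erase p.1.2)) v) ×ˢ
        (univ.filter fun v' => adj (x (T.erase p.2.1)) v' ∧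
          adj (x (T.erase p.2.2)) v')).image fun s => {s.1, s.2} := by
    intro D hD
    obtain ⟨-, -, t1, h1, t2, h2, t3, h3, t4, h4, v, v', hne, hne', a1, a2, a3, a4, hD'⟩ :=
      Finset.mem_filter.1 hD
    refine Finset.mem_biUnion.2 ⟨((t1, t2), (t3, t4)), ?_, ?_⟩
    · rw [hP]
      refine Finset.mem_filter.2 ⟨?_, hne, hne'⟩
      simp [h1, h2, h3, h4]
    · refine Finset.mem_image.2 ⟨(v, v'), ?_, hD'.symm⟩
      simp [a1, a2, a3, a4]
  refine (Finset.card_le_card hsub).trans (Finset.card_biUnion_le.trans ?_)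
  have hp : ∀ p ∈ P, (((univ.filter fun v => adj (x (T.erase p.1.1)) v ∧
      adj (x (T.erase p.1.2)) v) ×ˢ (univ.filter fun v' => adj (x (T.erase p.2.1)) v' ∧
          adj (x (T.erase p.2.2)) v')).image
        fun s => ({s.1, s.2} : Finset (V n))).card ≤ 4 := by
    intro p hp
    refine Finset.card_image_le.trans ?_
    rw [Finset.card_product]
    have hp' := (Finset.mem_filter.1 hp).2
    exact Nat.mul_le_mul (card_common_le hp'.1) (card_common_le hp'.2)
  refine (Finset.sum_le_sum hp).trans ?_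
  rw [Finset.sum_const, smul_eq_mul]
  have hPc : P.card ≤ (k + 1) ^ 4 := by
    refine (Finset.card_filter_le _ _).trans ?_
    rw [Finset.card_product, Finset.card_product, hT]
    exact le_of_eq (by ring)
  calc P.card * 4 ≤ (k + 1) ^ 4 * 4 := Nat.mul_le_mul_right _ hPc
    _ = 4 * (k + 1) ^ 4 := by ring

/-- The weight of the family at `T`. -/
theorem fam3_weight {n : ℕ} (k r : ℕ) (q : ℕ) (hq : 0 < q) (x : V n → V n) (T : V n)
    (hT : T.card = k + 1) :
    ∑ D ∈ Fam3 r x T, ((1 : ℝ) / q) ^ (D.card - 1) ≤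
      2 ^ (k + 1) * (n : ℝ) ^ r / (q : ℝ) ^ (r - 1) + 4 * ((k : ℝ) + 1) ^ 4 / q := by
  classical
  have hq0 : (0 : ℝ) < q := by exact_mod_cast hq
  have h0 : ∑ D ∈ Fam3 r x T, ((1 : ℝ) / q) ^ (D.card - 1) ≤
      ∑ D ∈ FamA r x T, ((1 : ℝ) / q) ^ (D.card - 1) +
        ∑ D ∈ FamB x T, ((1 : ℝ) / q) ^ (D.card - 1) := by
    have h := Finset.sum_union_inter (s₁ := FamA r x T) (s₂ := FamB x T)
      (f := fun D => ((1 : ℝ) / q) ^ (D.card - 1))
    have h' : 0 ≤ ∑ D ∈ FamA r x T ∩ FamB x T, ((1 : ℝ) / q) ^ (D.card - 1) :=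
      Finset.sum_nonneg fun D _ => by positivity
    have h'' : Fam3 r x T = FamA r x T ∪ FamB x T := by
      unfold Fam3
      congr!
    rw [h'']
    linarith
  refine h0.trans (add_le_add ?_ ?_)
  · have h1 : ∑ D ∈ FamA r x T, ((1 : ℝ) / q) ^ (D.card - 1) =
        (FamA r x T).card * ((1 : ℝ) / q) ^ (r - 1) := by
      rw [← nsmul_eq_mul, ← Finset.sum_const]
      refine Finset.sum_congr rfl fun D hD => ?_
      obtain ⟨-, hc, -⟩ := Finset.mem_filter.1 hD
      rw [hc]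
    rw [h1, one_div, inv_pow, ← div_eq_mul_inv]
    gcongr
    exact_mod_cast fam3_one k r x T hT
  · have h1 : ∑ D ∈ FamB x T, ((1 : ℝ) / q) ^ (D.card - 1) =
        (FamB x T).card * ((1 : ℝ) / q) := by
      rw [← nsmul_eq_mul, ← Finset.sum_const]
      refine Finset.sum_congr rfl fun D hD => ?_
      obtain ⟨-, hc, -⟩ := Finset.mem_filter.1 hD
      rw [hc]
      norm_num
    rw [h1, one_div, ← div_eq_mul_inv]
    gcongr
    exact_mod_cast fam3_two k x T hT

theorem fam3_nonempty {n : ℕ} (r : ℕ) (hr : 1 ≤ r) (x : V n → V n) (T : V n) (D : Finset (V n))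
    (hD : D ∈ Fam3 r x T) : D.Nonempty := by
  classical
  have h : D ∈ FamA r x T ∪ FamB x T := by
    unfold Fam3 at hD
    convert hD
  rcases Finset.mem_union.1 h with h | h
  · obtain ⟨-, hc, -⟩ := Finset.mem_filter.1 h
    exact Finset.card_pos.1 (by omega)
  · obtain ⟨-, hc, -⟩ := Finset.mem_filter.1 h
    exact Finset.card_pos.1 (by omega)

/-- Exactly `m` disjoint monochromatic sets in one window of the family `𝒳`. -/
def Ev3 {n : ℕ} {C : Type} (𝒳 : Finset (V n → V n)) (k r m : ℕ) (χ : V n → C) : Prop :=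
  ∃ x ∈ 𝒳, ∃ 𝒯 ⊆ powersetCard (k + 1) (univ : V n), 𝒯.card = m ∧
    ∃ D : V n → Finset (V n), (∀ T ∈ 𝒯, D T ∈ Fam3 r x T) ∧
      (∀ T ∈ 𝒯, ∀ T' ∈ 𝒯, T ≠ T' → Disjoint (D T) (D T')) ∧ ∀ T ∈ 𝒯, Mono χ (D T)

end Pool.Agent.SHC
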