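import Pool.Agent.SHC.Main
import Pool.Agent.SH.MoC

set_option autoImplicit false

namespace Pool.Agent.SHF

open Filter

open Classical in
theorem fin_of {n q : ℕ} (hn2 : 2 ≤ n) (hq : 0 < q)
    (hb : ((Finset.univ.filter fun χ : SH.V n → Fin q =>
        ∃ (σ : Equiv.Perm (SH.V n)) (β : SH.V n → SH.V n → SH.V n),
        SH.Twin χ σ β ∧ ∃ w b, ¬ SH.adj (σ w) (σ (SH.fl w b))).card : ℝ) ≤
        (1 / 2) ^ n * (q : ℝ) ^ (2 ^ n)) :
    1 - (1 / 2 : ℝ) ^ n ≤ prob n q 1 := by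
  have hqpos : (0 : ℝ) < q := by exact_mod_cast hq
  have hle : (Finset.univ.filter fun χ : (Fin n → Bool) → Fin q =>
      ¬ Distinguishable 1 fun v => (χ v : ℕ)).card ≤
      (Finset.univ.filter fun χ : SH.V n → Fin q =>
        ∃ (σ : Equiv.Perm (SH.V n)) (β : SH.V n → SH.V n → SH.V n),
        SH.Twin χ σ β ∧ ∃ w b, ¬ SH.adj (σ w) (σ (SH.fl w b))).card := by
    apply Finset.card_le_card_of_injOn (fun χ => χ ∘ (fn_e n).symm)
    · intro χ hχ
      have hχ' := (Finset.mem_filter.1 hχ).2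
      refine Finset.mem_coe.2 (Finset.mem_filter.2 ⟨Finset.mem_univ _, ?_⟩)
      by_contra hcon
      apply hχ'
      apply fn_main hn2
      intro σ β hT w b
      by_contra hna
      exact hcon ⟨σ, β, hT, w, b, hna⟩
    · intro χ _ χ' _ he
      funext x
      have := congrFun he (fn_e n x)
      simpa using this
  have hsum : (Finset.univ.filter fun χ : (Fin n → Bool) → Fin q =>
      Distinguishable 1 fun v => (χ v : ℕ)).card +
      (Finset.univ.filter fun χ : (Fin n → Bool) → Fin q =>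
      ¬ Distinguishable 1 fun v => (χ v : ℕ)).card = q ^ (2 ^ n) := by
    rw [Finset.card_filter_add_card_filter_not, Finset.card_univ, Fintype.card_fun,
      Fintype.card_fin, Fintype.card_fun, Fintype.card_bool, Fintype.card_fin]
  unfold prob
  rw [le_div_iff₀ (by positivity)]
  have hs2 : ((Finset.univ.filter fun χ : (Fin n → Bool) → Fin q =>
      Distinguishable 1 fun v => (χ v : ℕ)).card : ℝ) +
      ((Finset.univ.filter fun χ : (Fin n → Bool) → Fin q =>
      ¬ Distinguishable 1 fun v => (χ v : ℕ)).card : ℝ) = (q : ℝ) ^ (2 ^ n) := by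
    exact_mod_cast hsum
  have hle2 : ((Finset.univ.filter fun χ : (Fin n → Bool) → Fin q =>
      ¬ Distinguishable 1 fun v => (χ v : ℕ)).card : ℝ) ≤ (1 / 2) ^ n * (q : ℝ) ^ (2 ^ n) :=
    le_trans (by exact_mod_cast hle) hb
  linarith

/-- `C n` colours suffice. -/
theorem final_c : ∃ C : ℕ, 0 < C ∧ ∃ n0 : ℕ, ∀ n ≥ n0, ∀ q : ℕ, C * n ≤ q →
    1 - (1 / 2 : ℝ) ^ n ≤ prob n q 1 := by
  obtain ⟨C, n0, h0⟩ := SHC.main_c
  refine ⟨2 ^ C, by positivity, n0 + 2, fun n hn q hq => ?_⟩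
  have hq0 : 0 < q := lt_of_lt_of_le (Nat.mul_pos (by positivity) (by omega)) hq
  exact fin_of (by omega) hq0 (h0 n (by omega) q hq)

end Pool.Agent.SHF
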