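import Mathlib

set_option autoImplicit false

namespace Pool.Agent.SHC

open Finset

/-- Greedy choice of sets with few conflicts. -/
theorem greedy {α β : Type*} [DecidableEq α] [DecidableEq β] (𝒮 : Finset α) (P : α → Finset β)
    (cf : β → β → Prop) [DecidableRel cf] (W : ℕ) (hsym : ∀ b b', cf b b' → cf b' b)
    (hin : ∀ S ∈ 𝒮, ∀ b ∈ P S, ∀ b' ∈ P S, b ≠ b' → ¬ cf b b')
    (hdisj : ∀ S ∈ 𝒮, ∀ S' ∈ 𝒮, S ≠ S' → Disjoint (P S) (P S'))
    (hW : ∀ b ∈ 𝒮.biUnion P, ((𝒮.biUnion P).filter fun b' => cf b b').card ≤ W) :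
    ∃ 𝒮' ⊆ 𝒮, ∃ U ⊆ 𝒮'.biUnion P, (∀ b ∈ U, ∀ b' ∈ U, b ≠ b' → ¬ cf b b') ∧
      (∀ S ∈ 𝒮', (P S).card ≤ 2 * (U ∩ P S).card) ∧
      ∑ S ∈ 𝒮, (P S).card ≤ (2 * W + 2) * U.card := by
  classical
  let 𝒬 : Finset (Finset α × Finset β) := (𝒮.powerset ×ˢ (𝒮.biUnion P).powerset).filter fun c =>
    c.2 ⊆ c.1.biUnion P ∧ (∀ b ∈ c.2, ∀ b' ∈ c.2, b ≠ b' → ¬ cf b b') ∧
      (∀ S ∈ c.1, (P S).card ≤ 2 * (c.2 ∩ P S).card)
  have hne : 𝒬.Nonempty := ⟨(∅, ∅), by simp [𝒬]⟩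
  obtain ⟨⟨𝒮', U⟩, hQ, hmax⟩ := exists_max_image 𝒬 (fun c => c.1.card) hne
  obtain ⟨hQ1, hUs, hfree, hhalf⟩ := mem_filter.1 hQ
  obtain ⟨hS', hU'⟩ := mem_product.1 hQ1
  replace hS' : 𝒮' ⊆ 𝒮 := mem_powerset.1 hS'
  replace hU' : U ⊆ 𝒮.biUnion P := mem_powerset.1 hU'
  simp only at hUs hfree hhalf
  refine ⟨𝒮', hS', U, hUs, hfree, hhalf, ?_⟩
  -- the conflicts of `S`
  let bad : α → Finset β := fun S => (P S).filter fun b => ∃ u ∈ U, cf u b
  have hbad : ∀ S ∈ 𝒮 \ 𝒮', (P S).card ≤ 2 * (bad S).card := by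
    intro S hS
    obtain ⟨hS1, hS2⟩ := mem_sdiff.1 hS
    by_contra hcon
    push Not at hcon
    set G : Finset β := (P S).filter fun b => ¬ ∃ u ∈ U, cf u b with hG
    have hcard : (bad S).card + G.card = (P S).card := card_filter_add_card_filter_not _
    have hmem : (insert S 𝒮', U ∪ G) ∈ 𝒬 := by
      rw [mem_filter, mem_product, mem_powerset, mem_powerset]
      refine ⟨⟨insert_subset hS1 hS', ?_⟩, ?_, ?_, ?_⟩
      · apply union_subset hU'
        intro b hb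
        exact mem_biUnion.2 ⟨S, hS1, (mem_filter.1 hb).1⟩
      · intro b hb
        rcases mem_union.1 hb with hb | hb
        · obtain ⟨S1, h1, h2⟩ := mem_biUnion.1 (hUs hb)
          exact mem_biUnion.2 ⟨S1, mem_insert_of_mem h1, h2⟩
        · exact mem_biUnion.2 ⟨S, mem_insert_self _ _, (mem_filter.1 hb).1⟩
      · intro b hb b' hb' hbb
        rcases mem_union.1 hb with hb | hb <;> rcases mem_union.1 hb' with hb' | hb'
        · exact hfree b hb b' hb' hbb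
        · intro hc
          exact (mem_filter.1 hb').2 ⟨b, hb, hc⟩
        · intro hc
          exact (mem_filter.1 hb).2 ⟨b', hb', hsym _ _ hc⟩
        · exact hin S hS1 b (mem_filter.1 hb).1 b' (mem_filter.1 hb').1 hbb
      · intro S1 h1
        rcases mem_insert.1 h1 with rfl | h1
        · have : G ⊆ (U ∪ G) ∩ P S1 := by
            intro b hb
            exact mem_inter.2 ⟨mem_union_right _ hb, (mem_filter.1 hb).1⟩
          have := card_le_card this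
          show (P S1).card ≤ 2 * ((U ∪ G) ∩ P S1).card
          omega
        · refine (hhalf S1 h1).trans ?_
          apply Nat.mul_le_mul_left
          apply card_le_card
          exact inter_subset_inter_right subset_union_left
    have h0 : (insert S 𝒮').card ≤ 𝒮'.card := hmax _ hmem
    rw [card_insert_of_notMem hS2] at h0
    omega
  -- the sum over the sets which are not chosen
  have h1 : ∑ S ∈ 𝒮 \ 𝒮', (bad S).card ≤ W * U.card := by
    have e1 : ((𝒮 \ 𝒮').biUnion bad).card = ∑ S ∈ 𝒮 \ 𝒮', (bad S).card := by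
      apply card_biUnion
      intro S hS S1 hS1 h
      exact (hdisj S (mem_sdiff.1 hS).1 S1 (mem_sdiff.1 hS1).1 h).mono (filter_subset _ _)
        (filter_subset _ _)
    have e2 : (𝒮 \ 𝒮').biUnion bad ⊆ U.biUnion fun u => (𝒮.biUnion P).filter fun b' => cf u b' := by
      intro b hb
      obtain ⟨S, hS, hb⟩ := mem_biUnion.1 hb
      obtain ⟨hb1, u, hu, hc⟩ := mem_filter.1 hb
      exact mem_biUnion.2 ⟨u, hu, mem_filter.2
        ⟨mem_biUnion.2 ⟨S, (mem_sdiff.1 hS).1, hb1⟩, hc⟩⟩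
    rw [← e1]
    refine (card_le_card e2).trans (card_biUnion_le.trans ?_)
    refine (sum_le_card_nsmul _ _ W fun u hu => hW u (hU' hu)).trans ?_
    rw [smul_eq_mul, mul_comm]
  have h2 : ∑ S ∈ 𝒮', (U ∩ P S).card ≤ U.card := by
    have e1 : (𝒮'.biUnion fun S => U ∩ P S).card = ∑ S ∈ 𝒮', (U ∩ P S).card := by
      apply card_biUnion
      intro S hS S1 hS1 h
      exact (hdisj S (hS' hS) S1 (hS' hS1) h).mono inter_subset_right inter_subset_right
    rw [← e1]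
    apply card_le_card
    intro b hb
    obtain ⟨S, _, hb⟩ := mem_biUnion.1 hb
    exact (mem_inter.1 hb).1
  have h3 : ∑ S ∈ 𝒮 \ 𝒮', (P S).card ≤ 2 * (W * U.card) := by
    calc ∑ S ∈ 𝒮 \ 𝒮', (P S).card ≤ ∑ S ∈ 𝒮 \ 𝒮', 2 * (bad S).card := sum_le_sum hbad
      _ = 2 * ∑ S ∈ 𝒮 \ 𝒮', (bad S).card := by rw [mul_sum]
      _ ≤ 2 * (W * U.card) := Nat.mul_le_mul_left _ h1
  have h4 : ∑ S ∈ 𝒮', (P S).card ≤ 2 * U.card := by
    calc ∑ S ∈ 𝒮', (P S).card ≤ ∑ S ∈ 𝒮', 2 * (U ∩ P S).card := sum_le_sum hhalf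
      _ = 2 * ∑ S ∈ 𝒮', (U ∩ P S).card := by rw [mul_sum]
      _ ≤ 2 * U.card := Nat.mul_le_mul_left _ h2
  have h5 : ∑ S ∈ 𝒮 \ 𝒮', (P S).card + ∑ S ∈ 𝒮', (P S).card = ∑ S ∈ 𝒮, (P S).card :=
    sum_sdiff hS'
  have h6 : (2 * W + 2) * U.card = 2 * (W * U.card) + 2 * U.card := by ring
  omega

end Pool.Agent.SHC
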