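import Pool.Agent.SH.Pr
import Pool.Agent.SH.Sel

set_option autoImplicit false

namespace Pool.Agent.SHC

open Finset Pool.Agent.SH

/-- Choose sources with distinct values none of which is an anchor. -/
theorem selG {α β : Type*} [DecidableEq α] [DecidableEq β] (E : Finset α) (s f : α → β) (K : ℕ)
    (hK : ∀ v, (E.filter fun e => s e = v).card ≤ K) (h : ∀ e ∈ E, f e ≠ s e) :
    ∃ E' ⊆ E, E.card ≤ 4 * K * E'.card ∧ (∀ e ∈ E', ∀ e' ∈ E', s e = s e' → e = e') ∧
      ∀ e ∈ E', ∀ e' ∈ E', f e ≠ s e' := by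
  classical
  -- a section of `s` on its image
  rcases E.eq_empty_or_nonempty with hE | ⟨e0, he0⟩
  · exact ⟨∅, by simp, by simp [hE], by simp, by simp⟩
  set sec : β → α := fun v => if hv : ∃ e ∈ E, s e = v then hv.choose else e0 with hsec
  have hsecE : ∀ v ∈ E.image s, sec v ∈ E ∧ s (sec v) = v := by
    intro v hv
    obtain ⟨e, he, hev⟩ := mem_image.1 hv
    have hv' : ∃ e ∈ E, s e = v := ⟨e, he, hev⟩
    simp only [hsec, dif_pos hv']
    exact hv'.choose_spec
  obtain ⟨A', hA', hcard, hind⟩ := sel4 (E.image s) (fun v => f (sec v)) (by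
    intro v hv
    obtain ⟨h1, h2⟩ := hsecE v hv
    have := h _ h1
    rw [h2] at this
    exact this)
  refine ⟨A'.image sec, ?_, ?_, ?_, ?_⟩
  · intro e he
    obtain ⟨v, hv, rfl⟩ := mem_image.1 he
    exact (hsecE v (hA' hv)).1
  · have h1 : E.card ≤ K * (E.image s).card := by
      apply Finset.card_le_mul_card_image
      intro v _
      exact hK v
    have h2 : (A'.image sec).card = A'.card := by
      apply card_image_of_injOn
      intro v hv v' hv' he
      have h3 := (hsecE v (hA' hv)).2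
      have h4 := (hsecE v' (hA' hv')).2
      rw [← h3, ← h4]
      exact congrArg s he
    rw [h2]
    calc E.card ≤ K * (E.image s).card := h1
      _ ≤ K * (4 * A'.card) := Nat.mul_le_mul_left _ hcard
      _ = 4 * K * A'.card := by ring
  · intro e he e' he' hs
    obtain ⟨v, hv, rfl⟩ := mem_image.1 he
    obtain ⟨v', hv', rfl⟩ := mem_image.1 he'
    rw [(hsecE v (hA' hv)).2, (hsecE v' (hA' hv')).2] at hs
    rw [hs]
  · intro e he e' he' hs
    obtain ⟨v, hv, rfl⟩ := mem_image.1 he
    obtain ⟨v', hv', rfl⟩ := mem_image.1 he'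
    rw [(hsecE v' (hA' hv')).2] at hs
    exact hind v hv (by rw [hs]; exact hv')

/-- A maximal family whose members keep many new elements. -/
theorem maxfam {α β : Type*} [DecidableEq α] [DecidableEq β] (ℛ0 : Finset α) (U : α → Finset β)
    (D K : ℕ) (hU : ∀ R ∈ ℛ0, 2 * D ≤ (U R).card)
    (hK : ∀ T, (ℛ0.filter fun R => T ∈ U R).card ≤ K) :
    ∃ ℛ ⊆ ℛ0, D * ℛ.card ≤ (ℛ.biUnion U).card ∧ D * ℛ0.card ≤ K * (ℛ.biUnion U).card := by
  classical
  obtain ⟨ℛ, hℛ, hmax⟩ := Finset.exists_max_image
    (ℛ0.powerset.filter fun ℛ => D * ℛ.card ≤ (ℛ.biUnion U).card) Finset.card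
    ⟨∅, by simp⟩
  rw [mem_filter, mem_powerset] at hℛ
  refine ⟨ℛ, hℛ.1, hℛ.2, ?_⟩
  have hbig : ∀ R ∈ ℛ0, D ≤ ((ℛ.biUnion U).filter fun T => T ∈ U R).card := by
    intro R hR
    by_cases hRm : R ∈ ℛ
    · have hsub : U R ⊆ (ℛ.biUnion U).filter fun T => T ∈ U R := by
        intro T hT
        exact mem_filter.2 ⟨mem_biUnion.2 ⟨R, hRm, hT⟩, hT⟩
      have := card_le_card hsub
      have := hU R hR
      omega
    · by_contra hcon
      push Not at hcon
      have hU1 : (U R).card ≤ ((ℛ.biUnion U).filter fun T => T ∈ U R).card +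
          (U R \ ℛ.biUnion U).card := by
        have hsub : U R ⊆ ((ℛ.biUnion U).filter fun T => T ∈ U R) ∪ (U R \ ℛ.biUnion U) := by
          intro T hT
          by_cases hT' : T ∈ ℛ.biUnion U
          · exact mem_union_left _ (mem_filter.2 ⟨hT', hT⟩)
          · exact mem_union_right _ (mem_sdiff.2 ⟨hT, hT'⟩)
        exact (card_le_card hsub).trans (card_union_le _ _)
      have h2 := hU R hR
      have h3 : D ≤ (U R \ ℛ.biUnion U).card := by omega
      have h4 : ((insert R ℛ).biUnion U).card = (U R \ ℛ.biUnion U).card + (ℛ.biUnion U).card := by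
        rw [biUnion_insert, ← sdiff_union_self_eq_union, card_union_of_disjoint sdiff_disjoint]
      have h5 : (insert R ℛ).card = ℛ.card + 1 := card_insert_of_notMem hRm
      have h6 := hmax (insert R ℛ) (by
        rw [mem_filter, mem_powerset]
        refine ⟨insert_subset hR hℛ.1, ?_⟩
        rw [h4, h5]
        have := hℛ.2
        rw [mul_add, mul_one]
        omega)
      rw [h5] at h6
      omega
  have h1 := Finset.card_nsmul_le_card_nsmul (r := fun R T => T ∈ U R) (s := ℛ0)
    (t := ℛ.biUnion U) (m := D) (n := K) ?_ ?_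
  · simp only [smul_eq_mul] at h1
    rw [mul_comm D, mul_comm K]
    exact h1
  · intro R hR
    simpa [Finset.bipartiteAbove] using hbig R hR
  · intro T _
    simpa [Finset.bipartiteBelow] using hK T

open Classical in
/-- Colourings with hits at all elements of `E` for some choice of directions. -/
theorem hits {n q : ℕ} {ι : Type*} (E : Finset ι) (s f : ι → Fin n → V n) :
    (univ.filter fun χ : V n → Fin q => ∃ d : ι → Fin n,
      (∀ e ∈ E, ∀ e' ∈ E, s e (d e) = s e' (d e') → e = e') ∧
      (∀ e ∈ E, ∀ e' ∈ E, f e (d e) ≠ s e' (d e')) ∧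
      ∀ e ∈ E, χ (s e (d e)) = χ (f e (d e))).card * q ^ E.card ≤ n ^ E.card * q ^ (2 ^ n) := by
  rcases Nat.eq_zero_or_pos n with hn | hn
  · -- no directions
    subst hn
    rcases E.eq_empty_or_nonempty with hE | ⟨e0, he0⟩
    · subst hE
      simp only [card_empty, pow_zero, mul_one, one_mul]
      refine (card_le_univ _).trans (le_of_eq ?_)
      simp
    · rw [Finset.filter_false_of_mem]
      · simp
      · intro χ _ ⟨d, _⟩
        exact (d e0).elim0
  have hsub : (univ.filter fun χ : V n → Fin q => ∃ d : ι → Fin n,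
      (∀ e ∈ E, ∀ e' ∈ E, s e (d e) = s e' (d e') → e = e') ∧
      (∀ e ∈ E, ∀ e' ∈ E, f e (d e) ≠ s e' (d e')) ∧
      ∀ e ∈ E, χ (s e (d e)) = χ (f e (d e))) ⊆
      (univ : Finset (E → Fin n)).biUnion fun d => univ.filter fun χ : V n → Fin q =>
        (∀ e e' : E, s e (d e) = s e' (d e') → e = e') ∧
        (∀ e e' : E, f e (d e) ≠ s e' (d e')) ∧
        ∀ e : E, χ (s e (d e)) = χ (f e (d e)) := by
    intro χ hχ
    simp only [mem_filter, mem_univ, true_and] at hχ
    obtain ⟨d, h1, h2, h3⟩ := hχ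
    rw [mem_biUnion]
    refine ⟨fun e => d e.1, mem_univ _, ?_⟩
    simp only [mem_filter, mem_univ, true_and]
    exact ⟨fun e e' h => Subtype.ext (h1 e.1 e.2 e'.1 e'.2 h), fun e e' => h2 e.1 e.2 e'.1 e'.2,
      fun e => h3 e.1 e.2⟩
  have hone : ∀ d : E → Fin n, (univ.filter fun χ : V n → Fin q =>
        (∀ e e' : E, s e (d e) = s e' (d e') → e = e') ∧
        (∀ e e' : E, f e (d e) ≠ s e' (d e')) ∧
        ∀ e : E, χ (s e (d e)) = χ (f e (d e))).card * q ^ E.card ≤ q ^ (2 ^ n) := by
    intro d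
    by_cases hd : (∀ e e' : E, s e (d e) = s e' (d e') → e = e') ∧
        (∀ e e' : E, f e (d e) ≠ s e' (d e'))
    · obtain ⟨hd1, hd2⟩ := hd
      set A : Finset (V n) := Finset.image (fun e : {e // e ∈ E} => s e.1 (d e)) univ with hA
      have hAc : A.card = E.card := by
        rw [hA, card_image_of_injective _ (fun e e' h => hd1 e e' h), card_univ,
          Fintype.card_coe]
      set F : V n → V n := fun v => if hv : ∃ e : E, s e (d e) = v then
        f hv.choose (d hv.choose) else v with hF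
      have hFe : ∀ e : E, F (s e (d e)) = f e (d e) := by
        intro e
        have hv : ∃ e' : E, s e' (d e') = s e (d e) := ⟨e, rfl⟩
        have h1 : F (s e (d e)) = f hv.choose (d hv.choose) := by
          simp only [hF, dif_pos hv]
        rw [h1, hd1 _ _ hv.choose_spec]
      have hp := pr (q := q) A F (by
        intro a ha
        obtain ⟨e, _, rfl⟩ := mem_image.1 ha
        rw [hFe e]
        intro hm
        obtain ⟨e', _, he'⟩ := mem_image.1 hm
        exact hd2 e e' he'.symm)
      rw [hAc] at hp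
      refine le_trans (Nat.mul_le_mul_right _ (card_le_card ?_)) hp
      intro χ hχ
      simp only [mem_filter, mem_univ, true_and] at hχ ⊢
      intro a ha
      obtain ⟨e, _, rfl⟩ := mem_image.1 ha
      rw [hFe e]
      exact hχ.2.2 e
    · rw [Finset.filter_false_of_mem]
      · simp
      · intro χ _ h
        exact hd ⟨h.1, h.2.1⟩
  calc _ ≤ ((univ : Finset (E → Fin n)).biUnion fun d => univ.filter fun χ : V n → Fin q =>
        (∀ e e' : E, s e (d e) = s e' (d e') → e = e') ∧
        (∀ e e' : E, f e (d e) ≠ s e' (d e')) ∧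
        ∀ e : E, χ (s e (d e)) = χ (f e (d e))).card * q ^ E.card :=
          Nat.mul_le_mul_right _ (card_le_card hsub)
    _ ≤ (∑ d : (E → Fin n), (univ.filter fun χ : V n → Fin q =>
        (∀ e e' : E, s e (d e) = s e' (d e') → e = e') ∧
        (∀ e e' : E, f e (d e) ≠ s e' (d e')) ∧
        ∀ e : E, χ (s e (d e)) = χ (f e (d e))).card) * q ^ E.card :=
          Nat.mul_le_mul_right _ card_biUnion_le
    _ = ∑ d : (E → Fin n), (univ.filter fun χ : V n → Fin q =>
        (∀ e e' : E, s e (d e) = s e' (d e') → e = e') ∧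
        (∀ e e' : E, f e (d e) ≠ s e' (d e')) ∧
        ∀ e : E, χ (s e (d e)) = χ (f e (d e))).card * q ^ E.card := by
          rw [Finset.sum_mul]
    _ ≤ ∑ _d : (E → Fin n), q ^ (2 ^ n) := Finset.sum_le_sum fun d _ => hone d
    _ = n ^ E.card * q ^ (2 ^ n) := by
          rw [Finset.sum_const, card_univ, Fintype.card_fun, Fintype.card_fin, Fintype.card_coe,
            smul_eq_mul]

end Pool.Agent.SHC
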