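import Pool.Agent.SHC.De
import Pool.Agent.SH.Cb
import Pool.Agent.SH.Gr

set_option autoImplicit false

namespace Pool.Agent.SHC

open Finset Pool.Agent.SH

theorem lt_pow (k : ℕ) (hk : 12 ≤ k) : 4 * gr_C k ≤ 2 ^ k := by
  unfold gr_C
  induction k, hk using Nat.le_induction with
  | base => norm_num
  | succ m hm ih =>
    have h1 : 4 * ((2 * (m + 1) + 2) ^ 2 + 2 * (m + 1)) ≤ 2 * (4 * ((2 * m + 2) ^ 2 + 2 * m)) := by
      nlinarith
    calc 4 * ((2 * (m + 1) + 2) ^ 2 + 2 * (m + 1)) ≤ 2 * (4 * ((2 * m + 2) ^ 2 + 2 * m)) := h1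
      _ ≤ 2 * 2 ^ m := Nat.mul_le_mul_left 2 ih
      _ = 2 ^ (m + 1) := by rw [pow_succ]; ring

theorem lt_dg {n k : ℕ} (x : V n → V n)
    (hx : ∀ S S' : V n, S.card = k → S'.card = k → x S = x S' → S = S') (v : V n) :
    (((Lk n k).image x).filter fun x' => (symmDiff x' v).card = 1).card = dg k x v := by
  classical
  unfold dg
  rw [filter_image, card_image_of_injOn]
  · rfl
  · intro S hS S' hS' h
    exact hx S S' (mem_powersetCard.1 (mem_filter.1 hS).1).2
      (mem_powersetCard.1 (mem_filter.1 hS').1).2 h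

/-- Few pairs lead to heavy vertices. -/
theorem light : ∃ k0 : ℕ, ∀ k ≥ k0, ∀ n : ℕ, ∀ x : V n → V n,
    (∀ S S' : V n, S.card = k → S'.card = k → x S = x S' → S = S') →
    2 ^ (31 * k) * ((Lk n k ×ˢ (univ : Finset (Fin n))).filter fun p =>
      2 ^ (32 * k) < dg k x (fl (x p.1) p.2)).card ≤ n * n.choose k := by
  classical
  refine ⟨12, fun k hk n x hx => ?_⟩
  set X := (Lk n k).image x with hX
  have hinj : Set.InjOn x (Lk n k : Finset (V n)) := by
    intro S hS S' hS' h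
    exact hx S S' (mem_powersetCard.1 hS).2 (mem_powersetCard.1 hS').2 h
  have hXc : X.card = n.choose k := by
    rw [hX, card_image_of_injOn hinj, card_powersetCard, card_univ, Fintype.card_fin]
  have hXle : X.card ≤ n ^ k := by rw [hXc]; exact Nat.choose_le_pow n k
  have h1 := gr_heavy n k (2 ^ (32 * k)) X hXle
  set H := ((Lk n k ×ˢ (univ : Finset (Fin n))).filter fun p =>
      2 ^ (32 * k) < dg k x (fl (x p.1) p.2)) with hH
  have h2 : H.card ≤ ((X ×ˢ (univ : Finset (Fin n))).filter (fun p =>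
      2 ^ (32 * k) < (X.filter (fun x' => (symmDiff x' (symmDiff p.1 {p.2})).card = 1)).card)).card := by
    refine card_le_card_of_injOn (fun p => (x p.1, p.2)) ?_ ?_
    · rintro ⟨S, i⟩ hp
      obtain ⟨hp1, hp2⟩ := mem_filter.1 hp
      rw [mem_coe, mem_filter]
      refine ⟨mem_product.2 ⟨mem_image_of_mem _ (mem_product.1 hp1).1, mem_univ _⟩, ?_⟩
      simp only at hp2 ⊢
      rw [hX, lt_dg x hx]
      exact hp2
    · rintro ⟨S, i⟩ hp ⟨S', i'⟩ hp' h
      simp only [Prod.mk.injEq] at h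
      have e1 : S = S' := hinj (mem_product.1 (mem_filter.1 hp).1).1
        (mem_product.1 (mem_filter.1 hp').1).1 h.1
      rw [e1, h.2]
  rw [hXc] at h1
  have h3 : H.card * 2 ^ (32 * k) ≤ 2 * (2 * (gr_C k * n) * n.choose k) :=
    (Nat.mul_le_mul_right _ h2).trans h1
  have h4 := lt_pow k hk
  have h5 : 2 ^ (32 * k) = 2 ^ (31 * k) * 2 ^ k := by rw [← pow_add]; congr 1; omega
  have h6 : (2 ^ (31 * k) * H.card) * 2 ^ k ≤ (n * n.choose k) * 2 ^ k := by
    calc (2 ^ (31 * k) * H.card) * 2 ^ k = H.card * 2 ^ (32 * k) := by rw [h5]; ring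
      _ ≤ 2 * (2 * (gr_C k * n) * n.choose k) := h3
      _ = (4 * gr_C k) * (n * n.choose k) := by ring
      _ ≤ 2 ^ k * (n * n.choose k) := Nat.mul_le_mul_right _ h4
      _ = _ := by ring
  exact Nat.le_of_mul_le_mul_right h6 (by positivity)

end Pool.Agent.SHC
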