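import Pool.Agent.SHC.De
import Pool.Agent.SH.Cb
import Pool.Agent.SH.Sel
import Pool.Agent.SH.Pr
import Pool.Agent.SH.Gr

set_option autoImplicit false

namespace Pool.Agent.SHC

open Finset Pool.Agent.SH

open Classical in
/-- The number of `k`-sets whose image is at distance 2 of the image of `S`. -/
noncomputable def deg2 {n : ℕ} (k : ℕ) (x : V n → V n) (S : V n) : ℕ :=
  ((powersetCard k univ).filter fun S' => (symmDiff (x S) (x S')).card = 2).card

/-- The facets of `T` in `A`. -/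
def facA {n : ℕ} (k : ℕ) (A : Finset (V n)) (T : V n) : Finset (V n) :=
  (powersetCard k T).filter fun S => S ∈ A

theorem mem_facA {n k : ℕ} {A : Finset (V n)} {T S : V n} :
    S ∈ facA k A T ↔ (S ⊆ T ∧ S.card = k) ∧ S ∈ A := by
  rw [facA, mem_filter, mem_powersetCard]

/-- The `(k + 1)`-sets with many facets in `A`. -/
def tA {n : ℕ} (k : ℕ) (A : Finset (V n)) : Finset (V n) :=
  (powersetCard (k + 1) univ).filter fun T => k + 1 < 25 * (facA k A T).card

/-! ### The deterministic part -/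

open Classical in
theorem u1_deg {n k : ℕ} {x : V n → V n}
    (inj : ∀ S S' : V n, S.card = k → S'.card = k → x S = x S' → S = S')
    {S : V n} (hS : S.card = k) (h : ℕ) :
    (univ.filter fun v => adj (x S) v ∧
      h + 1 ≤ ((powersetCard k univ).filter fun S' => adj (x S') v).card).card * h
      ≤ 2 * deg2 k x S := by
  set Vh := univ.filter fun v => adj (x S) v ∧
      h + 1 ≤ ((powersetCard k univ).filter fun S' => adj (x S') v).card with hVh
  -- pairs
  have h1 : ∀ v ∈ Vh, h ≤ (((powersetCard k univ).filter fun S' =>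
      (symmDiff (x S) (x S')).card = 2).filter fun S' => adj (x S') v).card := by
    intro v hv
    rw [hVh, mem_filter] at hv
    obtain ⟨-, hv1, hv2⟩ := hv
    have h2 : (((powersetCard k univ).filter fun S' => adj (x S') v).erase S) ⊆
        (((powersetCard k univ).filter fun S' =>
          (symmDiff (x S) (x S')).card = 2).filter fun S' => adj (x S') v) := by
      intro S' hS'
      rw [mem_erase, mem_filter, mem_powersetCard] at hS'
      obtain ⟨hne, ⟨-, hk⟩, ha⟩ := hS'
      rw [mem_filter, mem_filter, mem_powersetCard]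
      refine ⟨⟨⟨subset_univ _, hk⟩, ?_⟩, ha⟩
      exact two_of_common (fun he => hne (inj S S' hS hk he).symm) hv1 ha
    have h3 := card_le_card h2
    have h4 := card_erase_add_one (s := (powersetCard k univ).filter fun S' => adj (x S') v)
      (a := S) (by rw [mem_filter, mem_powersetCard]; exact ⟨⟨subset_univ _, hS⟩, hv1⟩)
    omega
  calc Vh.card * h = ∑ _v ∈ Vh, h := by rw [sum_const, smul_eq_mul]
    _ ≤ ∑ v ∈ Vh, (((powersetCard k univ).filter fun S' =>
      (symmDiff (x S) (x S')).card = 2).filter fun S' => adj (x S') v).card := sum_le_sum h1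
    _ = ∑ S' ∈ (powersetCard k univ).filter (fun S' => (symmDiff (x S) (x S')).card = 2),
        (Vh.filter fun v => adj (x S') v).card := by
      exact sum_card_bipartiteAbove_eq_sum_card_bipartiteBelow (fun v S' => adj (x S') v)
    _ ≤ ∑ S' ∈ (powersetCard k univ).filter (fun S' => (symmDiff (x S) (x S')).card = 2), 2 := by
      refine sum_le_sum fun S' hS' => ?_
      rw [mem_filter, mem_powersetCard] at hS'
      have hne : x S ≠ x S' := by
        intro he
        rw [he, symmDiff_self] at hS'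
        simp at hS'
      refine le_trans (card_le_card ?_) (card_common_le hne)
      intro v hv
      rw [mem_filter, hVh, mem_filter] at hv
      rw [mem_filter]
      exact ⟨mem_univ _, hv.1.2.1, hv.2⟩
    _ = 2 * deg2 k x S := by
      rw [sum_const, smul_eq_mul, mul_comm]
      rfl

open Classical in
/-- Extraction: many positions of low degree, each given to one `T`. -/
theorem u1_extract {n k : ℕ} (hn : 0 < n) {C : Type} {χ : V n → C} {x : V n → V n}
    {p : V n → V n → V n}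
    (h : IsCfg k χ x p) (A 𝒯 : Finset (V n)) (hA : A ⊆ powersetCard k univ)
    (h𝒯 : 𝒯 ⊆ powersetCard (k + 1) univ)
    (hl : ∀ S ∈ A, 8 * (univ.filter fun v => adj (x S) v ∧
      17 ≤ ((powersetCard k univ).filter fun S' => adj (x S') v).card).card ≤ n)
    (hs : n * A.card ≤ 4 * ∑ T ∈ 𝒯, (facA k A T).card) :
    ∃ (F : V n → Finset (V n)) (i : V n → V n → Fin n),
      (∀ T ∉ 𝒯, F T = ∅) ∧ (∀ T, F T ⊆ facA k A T) ∧
      (∀ T, Set.InjOn (fun S => fl (x S) (i S T)) (F T)) ∧
      (∀ T T', T ≠ T' → Disjoint ((F T).image fun S => fl (x S) (i S T))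
        ((F T').image fun S => fl (x S) (i S T'))) ∧
      (∀ T, Mono χ ((F T).image fun S => fl (x S) (i S T))) ∧
      n * A.card ≤ 128 * ∑ T, (F T).card := by
  have hk : ∀ S ∈ A, S.card = k := fun S hS => (mem_powersetCard.1 (hA hS)).2
  have hk1 : ∀ T ∈ 𝒯, T.card = k + 1 := fun T hT => (mem_powersetCard.1 (h𝒯 hT)).2
  set d : V n → ℕ := fun v => ((powersetCard k univ).filter fun S' => adj (x S') v).card with hd
  -- directions of the positions
  have hi : ∀ S T : V n, ∃ i : Fin n, S ∈ A → T ∈ 𝒯 → S ⊆ T → p S T = fl (x S) i := by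
    intro S T
    by_cases hc : S ∈ A ∧ T ∈ 𝒯 ∧ S ⊆ T
    · obtain ⟨j, hj⟩ := adj_iff.1 (h.hp S T (hk S hc.1) (hk1 T hc.2.1) hc.2.2)
      exact ⟨j, fun _ _ _ => hj⟩
    · exact ⟨⟨0, hn⟩, fun h1 h2 h3 => absurd ⟨h1, h2, h3⟩ hc⟩
  choose i hi using hi
  -- all pairs, heavy pairs, light pairs
  set Pa := (A ×ˢ 𝒯).filter fun c => c.1 ⊆ c.2 with hPa
  set Pl := Pa.filter fun c => d (p c.1 c.2) ≤ 16 with hPl
  have hPac : Pa.card = ∑ T ∈ 𝒯, (facA k A T).card := by
    rw [hPa, card_filter, sum_product_right]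
    refine sum_congr rfl fun T hT => ?_
    rw [← card_filter]
    congr 1
    ext S
    simp only [mem_filter, mem_facA]
    constructor
    · rintro ⟨h1, h2⟩
      exact ⟨⟨h2, hk S h1⟩, h1⟩
    · rintro ⟨⟨h1, -⟩, h2⟩
      exact ⟨h2, h1⟩
  have hheavy : 8 * (Pa.filter fun c => ¬ d (p c.1 c.2) ≤ 16).card ≤ n * A.card := by
    have h1 : (Pa.filter fun c => ¬ d (p c.1 c.2) ≤ 16).card =
        ∑ S ∈ A, (𝒯.filter fun T => S ⊆ T ∧ ¬ d (p S T) ≤ 16).card := by
      rw [hPa, filter_filter, card_filter, sum_product]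
      refine sum_congr rfl fun S _ => ?_
      rw [← card_filter]
    rw [h1, mul_sum, mul_comm n, ← smul_eq_mul (a := A.card), ← sum_const]
    refine sum_le_sum fun S hS => le_trans (Nat.mul_le_mul_left _ ?_) (hl S hS)
    refine card_le_card_of_injOn (fun T => p S T) ?_ ?_
    · intro T hT
      rw [mem_coe, mem_filter] at hT
      rw [mem_coe, mem_filter]
      refine ⟨mem_univ _, h.hp S T (hk S hS) (hk1 T hT.1) hT.2.1, ?_⟩
      have := hT.2.2
      simp only [hd] at this
      simp only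
      omega
    · intro T hT T' hT' he
      rw [mem_coe, mem_filter] at hT hT'
      exact h.hpi S T T' (hk S hS) (hk1 T hT.1) (hk1 T' hT'.1) hT.2.1 hT'.2.1 he
  have hlight : n * A.card ≤ 8 * Pl.card := by
    have h1 := card_filter_add_card_filter_not (s := Pa) (fun c => d (p c.1 c.2) ≤ 16)
    rw [← hPl] at h1
    rw [← hPac] at hs
    omega
  -- positions
  set Pos := Pl.image fun c => p c.1 c.2 with hPos
  have hmem : ∀ c ∈ Pl, c.1 ∈ A ∧ c.2 ∈ 𝒯 ∧ c.1 ⊆ c.2 ∧ d (p c.1 c.2) ≤ 16 := by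
    intro c hc
    rw [hPl, mem_filter, hPa, mem_filter, mem_product] at hc
    exact ⟨hc.1.1.1, hc.1.1.2, hc.1.2, hc.2⟩
  have hposc : Pl.card ≤ 16 * Pos.card := by
    refine card_le_mul_card_image Pl 16 fun v hv => ?_
    obtain ⟨c0, hc0, rfl⟩ := mem_image.1 hv
    refine le_trans ?_ (hmem c0 hc0).2.2.2
    refine card_le_card_of_injOn (fun c => c.1) ?_ ?_
    · intro c hc
      rw [mem_coe, mem_filter] at hc
      obtain ⟨h1, h2, h3, -⟩ := hmem c hc.1
      rw [mem_coe, mem_filter, mem_powersetCard]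
      exact ⟨⟨subset_univ _, hk _ h1⟩, hc.2 ▸ h.hp _ _ (hk _ h1) (hk1 _ h2) h3⟩
    · intro c hc c' hc' he
      rw [mem_coe, mem_filter] at hc hc'
      obtain ⟨h1, h2, h3, -⟩ := hmem c hc.1
      obtain ⟨h1', h2', h3', -⟩ := hmem c' hc'.1
      simp only at he
      refine Prod.ext he ?_
      refine h.hpi c.1 c.2 c'.2 (hk _ h1) (hk1 _ h2) (hk1 _ h2') h3 (he ▸ h3') ?_
      rw [hc.2, he, hc'.2]
  -- one pair for each position
  have hch : ∀ v : V n, ∃ c : V n × V n, v ∈ Pos → c ∈ Pl ∧ p c.1 c.2 = v := by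
    intro v
    by_cases hv : v ∈ Pos
    · obtain ⟨c, hc, he⟩ := mem_image.1 hv
      exact ⟨c, fun _ => ⟨hc, he⟩⟩
    · exact ⟨(∅, ∅), fun h1 => absurd h1 hv⟩
  choose g hg using hch
  set F : V n → Finset (V n) := fun T => (Pos.filter fun v => (g v).2 = T).image fun v => (g v).1
    with hF
  have hFm : ∀ T S, S ∈ F T → ∃ v ∈ Pos, (g v).2 = T ∧ (g v).1 = S ∧ S ∈ A ∧ T ∈ 𝒯 ∧ S ⊆ T ∧
      p S T = v := by
    intro T S hS
    rw [hF, mem_image] at hS
    obtain ⟨v, hv, hvS⟩ := hS
    rw [mem_filter] at hv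
    obtain ⟨h1, h2⟩ := hg v hv.1
    obtain ⟨h3, h4, h5, -⟩ := hmem _ h1
    rw [hv.2, hvS] at h2
    rw [hvS] at h3 h5
    rw [hv.2] at h4 h5
    exact ⟨v, hv.1, hv.2, hvS, h3, h4, h5, h2⟩
  have hfl : ∀ T S, S ∈ F T → fl (x S) (i S T) = p S T := by
    intro T S hS
    obtain ⟨v, -, -, -, h3, h4, h5, -⟩ := hFm T S hS
    exact (hi S T h3 h4 h5).symm
  refine ⟨F, i, ?_, ?_, ?_, ?_, ?_, ?_⟩
  · intro T hT
    rw [eq_empty_iff_forall_notMem]
    intro S hS
    obtain ⟨v, -, -, -, -, h4, -⟩ := hFm T S hS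
    exact hT h4
  · intro T S hS
    obtain ⟨v, -, -, -, h3, h4, h5, -⟩ := hFm T S hS
    rw [mem_facA]
    exact ⟨⟨h5, hk S h3⟩, h3⟩
  · intro T S hS S' hS' he
    simp only at he
    rw [hfl T S hS, hfl T S' hS'] at he
    obtain ⟨v, -, -, h2, -, -, -, h6⟩ := hFm T S hS
    obtain ⟨v', -, -, h2', -, -, -, h6'⟩ := hFm T S' hS'
    rw [← h2, ← h2', ← h6, ← h6', he]
  · intro T T' hTT
    rw [disjoint_left]
    intro v hv hv'
    obtain ⟨S, hS, rfl⟩ := mem_image.1 hv
    obtain ⟨S', hS', he⟩ := mem_image.1 hv'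
    rw [hfl T S hS, hfl T' S' hS'] at he
    obtain ⟨v, -, h1, -, -, -, -, h6⟩ := hFm T S hS
    obtain ⟨v', -, h1', -, -, -, -, h6'⟩ := hFm T' S' hS'
    exact hTT (by rw [← h1, ← h1', ← h6, ← h6', he])
  · intro T a ha b hb
    obtain ⟨S, hS, rfl⟩ := mem_image.1 ha
    obtain ⟨S', hS', rfl⟩ := mem_image.1 hb
    rw [hfl T S hS, hfl T S' hS']
    obtain ⟨v, -, -, -, h3, h4, h5, -⟩ := hFm T S hS
    obtain ⟨v', -, -, -, h3', -, h5', -⟩ := hFm T S' hS'
    exact h.hc S S' T (hk S h3) (hk S' h3') (hk1 T h4) h5 h5'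
  · have h1 : ∀ T, (F T).card = (Pos.filter fun v => (g v).2 = T).card := by
      intro T
      refine card_image_of_injOn ?_
      intro v hv v' hv' he
      rw [mem_coe, mem_filter] at hv hv'
      obtain ⟨-, h2⟩ := hg v hv.1
      obtain ⟨-, h2'⟩ := hg v' hv'.1
      simp only at he
      rw [← h2, ← h2', he, hv.2, hv'.2]
    have h2 : ∑ T, (F T).card = Pos.card := by
      rw [card_eq_sum_card_fiberwise (f := fun v => (g v).2) (t := univ) (fun v _ => mem_coe.2 (mem_univ _))]
      exact sum_congr rfl fun T _ => h1 T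
    rw [h2]
    omega

/-! ### The union bound -/

open Classical in
/-- The conditions on the codes. -/
def CondA {n : ℕ} {C : Type} (χ : V n → C) (F : V n → Finset (V n)) (x : V n → V n)
    (i : V n → V n → Fin n) : Prop :=
  (∀ T, Set.InjOn (fun S => fl (x S) (i S T)) (F T)) ∧
  (∀ T T', T ≠ T' → Disjoint ((F T).image fun S => fl (x S) (i S T))
    ((F T').image fun S => fl (x S) (i S T'))) ∧
  ∀ T, Mono χ ((F T).image fun S => fl (x S) (i S T))

open Classical in
theorem condA_congr {n : ℕ} {C : Type} {χ : V n → C} {F : V n → Finset (V n)}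
    {x x' : V n → V n} {i i' : V n → V n → Fin n}
    (h : ∀ T, ∀ S ∈ F T, x' S = x S ∧ i' S T = i S T) (hc : CondA χ F x i) :
    CondA χ F x' i' := by
  have him : ∀ T, ((F T).image fun S => fl (x' S) (i' S T)) =
      (F T).image fun S => fl (x S) (i S T) := by
    intro T
    refine image_congr ?_
    intro S hS
    obtain ⟨h1, h2⟩ := h T S hS
    simp only [h1, h2]
  refine ⟨?_, ?_, ?_⟩
  · intro T S hS S' hS' he
    refine hc.1 T hS hS' ?_
    obtain ⟨h1, h2⟩ := h T S hS
    obtain ⟨h3, h4⟩ := h T S' hS'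
    simp only [h1, h2, h3, h4] at he ⊢
    exact he
  · intro T T' hTT
    rw [him T, him T']
    exact hc.2.1 T T' hTT
  · intro T
    rw [him T]
    exact hc.2.2 T

theorem u1_sum {α ι : Type*} [DecidableEq α] (s : Finset α) (I : Finset ι) (P : α → Prop)
    (Q : ι → α → Prop) [DecidablePred P] [∀ i, DecidablePred (Q i)]
    (h : ∀ a ∈ s, P a → ∃ i ∈ I, Q i a) (K B N : ℕ) (hI : I.card ≤ K) (hK : 0 < K)
    (hQ : ∀ i ∈ I, (s.filter (Q i)).card * (K * B) ≤ N) : (s.filter P).card * B ≤ N := by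
  have h1 : (s.filter P).card ≤ ∑ i ∈ I, (s.filter (Q i)).card := by
    refine (card_le_card ?_).trans (card_biUnion_le (s := I) (t := fun i => s.filter (Q i)))
    intro a ha
    rw [mem_filter] at ha
    obtain ⟨i, hi, hq⟩ := h a ha.1 ha.2
    exact mem_biUnion.2 ⟨i, hi, mem_filter.2 ⟨ha.1, hq⟩⟩
  have h2 : (∑ i ∈ I, (s.filter (Q i)).card) * (K * B) ≤ K * N := by
    rw [sum_mul]
    refine (sum_le_card_nsmul _ _ N hQ).trans ?_
    rw [smul_eq_mul]
    exact Nat.mul_le_mul_right _ hI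
  have h3 : K * ((s.filter P).card * B) ≤ K * N := by
    calc K * ((s.filter P).card * B) = (s.filter P).card * (K * B) := by ring
      _ ≤ (∑ i ∈ I, (s.filter (Q i)).card) * (K * B) := Nat.mul_le_mul_right _ h1
      _ ≤ K * N := h2
  exact Nat.le_of_mul_le_mul_left h3 hK

open Classical in
/-- One code. -/
theorem u1_one {n q : ℕ} (hq : 0 < q) (F : V n → Finset (V n)) (x : V n → V n)
    (i : V n → V n → Fin n) (tt : Finset (V n)) (hF : ∀ T ∉ tt, F T = ∅) :
    (univ.filter fun χ : V n → Fin q => CondA χ F x i).card *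
      q ^ (∑ T, (F T).card - tt.card) ≤ q ^ (2 ^ n) := by
  by_cases h0 : (∀ T, Set.InjOn (fun S => fl (x S) (i S T)) (F T)) ∧
    (∀ T T', T ≠ T' → Disjoint ((F T).image fun S => fl (x S) (i S T))
      ((F T').image fun S => fl (x S) (i S T')))
  · obtain ⟨h1, h2⟩ := h0
    set 𝒯 := tt.filter fun T => (F T).Nonempty with h𝒯
    have key := prD (q := q) 𝒯 (fun T => (F T).image fun S => fl (x S) (i S T))
      (fun T hT => by
        rw [h𝒯, mem_filter] at hT
        exact hT.2.image _)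
      (fun T _ T' _ hTT => h2 T T' hTT)
    have hc : ∀ T, ((F T).image fun S => fl (x S) (i S T)).card = (F T).card :=
      fun T => card_image_of_injOn (h1 T)
    have hsum : ∑ T, (F T).card - tt.card ≤
        ∑ T ∈ 𝒯, (((F T).image fun S => fl (x S) (i S T)).card - 1) := by
      have e1 : ∑ T, (F T).card = ∑ T ∈ 𝒯, (F T).card := by
        refine (sum_subset (subset_univ _) ?_).symm
        intro T _ hT
        rw [card_eq_zero]
        by_contra hne
        refine hT ?_
        rw [h𝒯, mem_filter]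
        refine ⟨by_contra fun h => hne (hF T h), nonempty_iff_ne_empty.2 hne⟩
      have e2 : ∑ T ∈ 𝒯, (F T).card ≤
          ∑ T ∈ 𝒯, (((F T).image fun S => fl (x S) (i S T)).card - 1) + 𝒯.card := by
        rw [card_eq_sum_ones, ← sum_add_distrib]
        refine sum_le_sum fun T _ => ?_
        rw [hc T]
        omega
      have e3 : 𝒯.card ≤ tt.card := card_le_card (filter_subset _ _)
      omega
    refine le_trans (Nat.mul_le_mul (card_le_card ?_) (Nat.pow_le_pow_right hq hsum)) key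
    intro χ hχ
    rw [mem_filter] at hχ ⊢
    exact ⟨hχ.1, fun T _ => hχ.2.2.2 T⟩
  · have : (univ.filter fun χ : V n → Fin q => CondA χ F x i) = ∅ := by
      rw [filter_eq_empty_iff]
      intro χ _ h
      exact h0 ⟨h.1, h.2.1⟩
    rw [this]
    simp

/-- The number of pairs of a member of `A` and a `(k + 1)`-set containing it. -/
theorem u1_pairs {n k : ℕ} (A : Finset (V n)) (hA : A ⊆ powersetCard k univ) :
    ∑ T ∈ powersetCard (k + 1) (univ : V n), (facA k A T).card ≤ n * A.card := by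
  classical
  have h1 : ∑ T ∈ powersetCard (k + 1) (univ : V n), (facA k A T).card =
      ∑ S ∈ A, ((powersetCard (k + 1) (univ : V n)).filter fun T => S ⊆ T).card := by
    have h2 : ∀ T ∈ powersetCard (k + 1) (univ : V n), (facA k A T).card =
        (A.filter fun S => S ⊆ T).card := by
      intro T _
      congr 1
      ext S
      rw [mem_facA, mem_filter]
      constructor
      · rintro ⟨⟨h1, -⟩, h2⟩
        exact ⟨h2, h1⟩
      · rintro ⟨h1, h2⟩
        exact ⟨⟨h2, (mem_powersetCard.1 (hA h1)).2⟩, h1⟩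
    rw [sum_congr rfl h2]
    exact sum_card_bipartiteAbove_eq_sum_card_bipartiteBelow (fun T S : V n => S ⊆ T)
  rw [h1, mul_comm, ← smul_eq_mul, ← sum_const]
  refine sum_le_sum fun S hS => ?_
  have h3 : ((powersetCard (k + 1) (univ : V n)).filter fun T => S ⊆ T) ⊆
      (univ : Finset (Fin n)).image fun a => insert a S := by
    intro T hT
    rw [mem_filter, mem_powersetCard] at hT
    obtain ⟨⟨-, hT1⟩, hT2⟩ := hT
    have hS1 := (mem_powersetCard.1 (hA hS)).2
    have h4 : (T \ S).card = 1 := by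
      rw [card_sdiff_of_subset hT2]
      omega
    obtain ⟨a, ha⟩ := card_eq_one.1 h4
    rw [mem_image]
    refine ⟨a, mem_univ _, ?_⟩
    rw [← sdiff_union_of_subset hT2, ha, insert_eq]
  refine (card_le_card h3).trans (card_image_le.trans ?_)
  rw [card_univ, Fintype.card_fin]

theorem u1_tA {n k : ℕ} (A : Finset (V n)) (hA : A ⊆ powersetCard k univ) :
    (k + 1) * (tA k A).card ≤ 25 * (n * A.card) := by
  have hsub : tA k A ⊆ powersetCard (k + 1) (univ : V n) := filter_subset _ _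
  refine le_trans ?_ (Nat.mul_le_mul_left 25 (u1_pairs A hA))
  rw [mul_comm, ← smul_eq_mul, ← sum_const, mul_sum]
  refine (sum_le_sum fun T hT => ?_).trans (sum_le_sum_of_subset hsub)
  rw [tA, mem_filter] at hT
  exact hT.2.le

open Classical in
/-- The rare event. -/
def CodeA {n : ℕ} {C : Type} (k : ℕ) (χ : V n → C) : Prop :=
  ∃ (A : Finset (V n)) (F : V n → Finset (V n)) (x : V n → V n) (i : V n → V n → Fin n),
    A ⊆ powersetCard k univ ∧ n.choose k ≤ n * A.card ∧
    (∀ T ∉ tA k A, F T = ∅) ∧ (∀ T, F T ⊆ facA k A T) ∧ CondA χ F x i ∧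
    n * A.card ≤ 128 * ∑ T, (F T).card

/-- The event for fixed `A`. -/
def QA {n : ℕ} {C : Type} (k : ℕ) (A : Finset (V n)) (χ : V n → C) : Prop :=
  ∃ (F : V n → Finset (V n)) (x : V n → V n) (i : V n → V n → Fin n),
    (∀ T ∉ tA k A, F T = ∅) ∧ (∀ T, F T ⊆ facA k A T) ∧ CondA χ F x i ∧
    n * A.card ≤ 128 * ∑ T, (F T).card

/-- The event for fixed `A` and `F`. -/
def QF {n : ℕ} {C : Type} (k : ℕ) (A : Finset (V n)) (F : V n → Finset (V n)) (χ : V n → C) :
    Prop :=
  ∃ (x : V n → V n) (i : V n → V n → Fin n),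
    (∀ T ∉ tA k A, F T = ∅) ∧ (∀ T, F T ⊆ facA k A T) ∧ CondA χ F x i ∧
    n * A.card ≤ 128 * ∑ T, (F T).card

/-- The event for fixed `F` and `x`. -/
def QX {n : ℕ} {C : Type} (F : V n → Finset (V n)) (x : V n → V n) (χ : V n → C) : Prop :=
  ∃ i : V n → V n → Fin n, CondA χ F x i

/-- The arithmetic of one code. -/
theorem u1_num {n k q a t N D : ℕ} (hk : 6400 ≤ k) (hn2 : n ≤ 2 ^ (640 * k))
    (hD : 4097280 ≤ D) (hq : 2 ^ D * n ≤ q) (ht : (k + 1) * t ≤ 25 * (n * a)) (hN : n * a ≤ 128 * N) :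
    n ^ N * 2 ^ (5 * (n * a)) ≤ q ^ (N - t) := by
  have ht2 : 256 * t ≤ n * a := by nlinarith
  have htN : t ≤ N := by omega
  have hNt : n * a ≤ 256 * (N - t) := by omega
  have hkt : 640 * k * t ≤ 16000 * (n * a) := by nlinarith
  calc n ^ N * 2 ^ (5 * (n * a)) = n ^ t * n ^ (N - t) * 2 ^ (5 * (n * a)) := by
        rw [← pow_add, Nat.add_sub_cancel' htN]
    _ ≤ (2 ^ (640 * k)) ^ t * n ^ (N - t) * 2 ^ (5 * (n * a)) :=
        Nat.mul_le_mul_right _ (Nat.mul_le_mul_right _ (Nat.pow_le_pow_left hn2 _))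
    _ = 2 ^ (640 * k * t + 5 * (n * a)) * n ^ (N - t) := by
        rw [← pow_mul, pow_add]
        ring
    _ ≤ 2 ^ (D * (N - t)) * n ^ (N - t) := by
        refine Nat.mul_le_mul_right _ (Nat.pow_le_pow_right (by norm_num) ?_)
        have : 4097280 * (N - t) ≤ D * (N - t) := Nat.mul_le_mul_right _ hD
        clear hq
        omega
    _ = (2 ^ D * n) ^ (N - t) := by
        rw [mul_pow, ← pow_mul]
    _ ≤ q ^ (N - t) := Nat.pow_le_pow_left hq _

open Classical in
theorem u1_code {n k q D : ℕ} (hn : 0 < n) (hkn : k ≤ n) (hk : 6400 ≤ k)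
    (hn2 : n ≤ 2 ^ (640 * k)) (hD : 4097280 ≤ D) (hq : 2 ^ D * n ≤ q) :
    (univ.filter fun χ : V n → Fin q => CodeA k χ).card * 4 ^ n ≤ q ^ (2 ^ n) := by
  have hq0 : 0 < q := lt_of_lt_of_le (Nat.mul_pos (by positivity) hn) hq
  refine u1_sum univ ((powersetCard k (univ : V n)).powerset.filter
      fun A => n.choose k ≤ n * A.card) _
    (fun A χ => QA k A χ) ?_ (2 ^ n.choose k) (4 ^ n) (q ^ (2 ^ n)) ?_
      (by positivity) ?_
  · rintro χ - ⟨A, F, x, i, h1, h2, h3⟩
    exact ⟨A, mem_filter.2 ⟨mem_powerset.2 h1, h2⟩, F, x, i, h3⟩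
  · refine (card_le_card (filter_subset _ _)).trans ?_
    rw [card_powerset, card_powersetCard, card_univ, Fintype.card_fin]
  intro A hA
  rw [mem_filter, mem_powerset] at hA
  obtain ⟨hA1, hA2⟩ := hA
  have ht := u1_tA A hA1
  have hA0 : 1 ≤ A.card := by
    by_contra h0
    have h1 : A.card = 0 := by omega
    rw [h1, mul_zero] at hA2
    have := Nat.choose_pos hkn
    omega
  have hb : 2 ^ n.choose k * 4 ^ n ≤ 2 ^ (3 * (n * A.card)) := by
    have e : (4 : ℕ) ^ n = 2 ^ (2 * n) := by rw [pow_mul]; norm_num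
    rw [e, ← pow_add]
    refine Nat.pow_le_pow_right (by norm_num) ?_
    nlinarith
  refine le_trans (Nat.mul_le_mul_left _ hb) ?_
  -- the sets of facets
  refine u1_sum univ (Fintype.piFinset fun T => if T ∈ tA k A then (facA k A T).powerset else {∅}) _
    (fun F χ => QF k A F χ) ?_ (2 ^ (n * A.card)) _ (q ^ (2 ^ n)) ?_
      (by positivity) ?_
  · rintro χ - ⟨F, x, i, h1, h2, h3⟩
    refine ⟨F, ?_, x, i, h1, h2, h3⟩
    rw [Fintype.mem_piFinset]
    intro T
    by_cases hT : T ∈ tA k A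
    · rw [if_pos hT, mem_powerset]
      exact h2 T
    · rw [if_neg hT, h1 T hT]
      exact mem_singleton_self _
  · rw [Fintype.card_piFinset]
    have e : ∀ T : V n, (if T ∈ tA k A then (facA k A T).powerset else {∅} :
        Finset (Finset (V n))).card = 2 ^ (if T ∈ tA k A then (facA k A T).card else 0) := by
      intro T
      split_ifs
      · rw [card_powerset]
      · simp
    rw [prod_congr rfl fun T _ => e T, prod_pow_eq_pow_sum]
    refine Nat.pow_le_pow_right (by norm_num) ?_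
    rw [← sum_filter]
    refine le_trans (sum_le_sum_of_subset ?_) (u1_pairs A hA1)
    intro T hT
    rw [mem_filter] at hT
    exact (mem_filter.1 hT.2).1
  intro F hF
  have hb2 : 2 ^ (n * A.card) * 2 ^ (3 * (n * A.card)) = 2 ^ (4 * (n * A.card)) := by
    rw [← pow_add]
    congr 1
    ring
  rw [hb2]
  -- if the conditions on `F` fail there is nothing to do
  by_cases hF0 : (∀ T ∉ tA k A, F T = ∅) ∧ (∀ T, F T ⊆ facA k A T) ∧
      n * A.card ≤ 128 * ∑ T, (F T).card
  swap
  · have : (univ.filter fun χ : V n → Fin q => QF k A F χ) = ∅ := by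
      rw [filter_eq_empty_iff]
      rintro χ - ⟨x, i, h1, h2, -, h4⟩
      exact hF0 ⟨h1, h2, h4⟩
    rw [this]
    simp
  obtain ⟨hF1, hF2, hF3⟩ := hF0
  -- the images
  refine u1_sum univ (Fintype.piFinset fun S => if S ∈ A then (univ : Finset (V n)) else {∅}) _
    (fun x χ => QX F x χ) ?_ (2 ^ (n * A.card)) _ (q ^ (2 ^ n)) ?_
      (by positivity) ?_
  · rintro χ - ⟨x, i, -, -, h3, -⟩
    refine ⟨fun S => if S ∈ A then x S else ∅, ?_, i, condA_congr ?_ h3⟩
    · rw [Fintype.mem_piFinset]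
      intro S
      by_cases hS : S ∈ A <;> simp [hS]
    · intro T S hS
      have := (mem_facA.1 (hF2 T hS)).2
      simp [this]
  · rw [Fintype.card_piFinset]
    have e : ∀ S : V n, (if S ∈ A then (univ : Finset (V n)) else {∅}).card =
        2 ^ (if S ∈ A then n else 0) := by
      intro S
      split_ifs
      · rw [card_univ, Fintype.card_finset, Fintype.card_fin]
      · simp
    rw [prod_congr rfl fun S _ => e S, prod_pow_eq_pow_sum]
    refine Nat.pow_le_pow_right (by norm_num) (le_of_eq ?_)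
    rw [← sum_filter, sum_const, smul_eq_mul, mul_comm]
    congr 2
    ext S
    simp
  intro x hx
  have hb3 : 2 ^ (n * A.card) * 2 ^ (4 * (n * A.card)) = 2 ^ (5 * (n * A.card)) := by
    rw [← pow_add]
    congr 1
    ring
  rw [hb3]
  -- the directions
  refine u1_sum univ (Fintype.piFinset fun S => Fintype.piFinset fun T =>
      if S ∈ F T then (univ : Finset (Fin n)) else {⟨0, hn⟩}) _
    (fun i χ => CondA χ F x i) ?_ (n ^ ∑ T, (F T).card) _ (q ^ (2 ^ n)) ?_
      (by positivity) ?_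
  · rintro χ - ⟨i, h3⟩
    refine ⟨fun S T => if S ∈ F T then i S T else ⟨0, hn⟩, ?_, condA_congr ?_ h3⟩
    · rw [Fintype.mem_piFinset]
      intro S
      rw [Fintype.mem_piFinset]
      intro T
      by_cases hS : S ∈ F T <;> simp [hS]
    · intro T S hS
      simp [hS]
  · rw [Fintype.card_piFinset]
    have e : ∀ S : V n, (Fintype.piFinset fun T =>
        if S ∈ F T then (univ : Finset (Fin n)) else {⟨0, hn⟩}).card =
        n ^ ∑ T, (if S ∈ F T then 1 else 0) := by
      intro S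
      rw [Fintype.card_piFinset, ← prod_pow_eq_pow_sum]
      refine prod_congr rfl fun T _ => ?_
      split_ifs <;> simp
    rw [prod_congr rfl fun S _ => e S, prod_pow_eq_pow_sum, sum_comm]
    refine Nat.pow_le_pow_right hn (le_of_eq ?_)
    refine sum_congr rfl fun T _ => ?_
    rw [← sum_filter, ← card_eq_sum_ones]
    congr 1
    ext S
    simp
  intro i hi
  have h1 := u1_one hq0 F x i (tA k A) hF1
  have h2 := u1_num hk hn2 hD hq ht hF3
  exact le_trans (Nat.mul_le_mul_left _ h2) h1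

theorem u1_facets {n k : ℕ} (A : Finset (V n)) (T : V n) (hT : T.card = k + 1) :
    (T.filter fun t => T.erase t ∈ A).card = (facA k A T).card := by
  refine card_bij (fun t _ => T.erase t) ?_ ?_ ?_
  · intro t ht
    rw [mem_filter] at ht
    rw [mem_facA, card_erase_of_mem ht.1]
    exact ⟨⟨erase_subset _ _, by omega⟩, ht.2⟩
  · intro t ht t' ht' he
    rw [mem_filter] at ht ht'
    exact erase_injOn T ht.1 ht'.1 he
  · intro S hS
    rw [mem_facA] at hS
    obtain ⟨⟨h1, h2⟩, h3⟩ := hS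
    have h4 : (T \ S).card = 1 := by
      rw [card_sdiff_of_subset h1]
      omega
    obtain ⟨t, ht⟩ := card_eq_one.1 h4
    have ht2 : t ∈ T \ S := by rw [ht]; exact mem_singleton_self t
    have h5 : T.erase t = S := by
      rw [← sdiff_singleton_eq_erase, ← ht, Finset.sdiff_sdiff_eq_self h1]
    refine ⟨t, mem_filter.2 ⟨(mem_sdiff.1 ht2).1, ?_⟩, h5⟩
    rw [h5]
    exact h3

open Classical in
/-- Many points which are not crowded, with neighbours of the same kind, have small
probability. -/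
theorem u1 : ∃ C k0 : ℕ, ∀ k ≥ k0, ∀ n, Sz k n → ∀ q : ℕ, 2 ^ C * n ≤ q →
    ((univ.filter fun χ : V n → Fin q => ∃ (x : V n → V n) (p : V n → V n → V n),
      IsCfg k χ x p ∧ n.choose k ≤ 2 ^ (28 * k) * (Ak k x).card ∧
      n * (Ak k x).card ≤ 4 * ∑ T ∈ TA k x, aT k x T).card : ℝ) ≤
      (1 / 4) ^ n * (q : ℝ) ^ (2 ^ n) := by
  obtain ⟨D, hD⟩ : ∃ D : ℕ, 4097280 ≤ D := ⟨_, le_rfl⟩
  refine ⟨D, 6400, fun k hk n hSz q hq => ?_⟩
  obtain ⟨hn1, hn2⟩ := hSz
  have hn : 0 < n := lt_of_lt_of_le (by positivity) hn1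
  have hkn : k ≤ n := by
    have := Nat.lt_two_pow_self (n := 320 * k)
    omega
  have key := u1_code (q := q) hn hkn hk hn2 hD hq
  have hsub : (univ.filter fun χ : V n → Fin q => ∃ (x : V n → V n) (p : V n → V n → V n),
      IsCfg k χ x p ∧ n.choose k ≤ 2 ^ (28 * k) * (Ak k x).card ∧
      n * (Ak k x).card ≤ 4 * ∑ T ∈ TA k x, aT k x T) ⊆
      univ.filter fun χ : V n → Fin q => CodeA k χ := by
    intro χ hχ
    rw [mem_filter] at hχ ⊢
    refine ⟨hχ.1, ?_⟩
    obtain ⟨x, p, hcfg, h1, h2⟩ := hχ.2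
    have hA : Ak k x ⊆ powersetCard k (univ : V n) := sdiff_subset
    have haT : ∀ T ∈ Lk n (k + 1), aT k x T = (facA k (Ak k x) T).card := fun T hT =>
      u1_facets (Ak k x) T (mem_powersetCard.1 hT).2
    have hTA : TA k x = tA k (Ak k x) := by
      rw [TA, tA]
      refine filter_congr fun T hT => ?_
      rw [haT T hT]
    have h3 : n * (Ak k x).card ≤ 4 * ∑ T ∈ tA k (Ak k x), (facA k (Ak k x) T).card := by
      rw [hTA] at h2
      refine h2.trans (le_of_eq ?_)
      congr 1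
      refine sum_congr rfl fun T hT => haT T ?_
      rw [tA, mem_filter] at hT
      exact hT.1
    obtain ⟨F, i, g1, g2, g3, g4, g5, g6⟩ := u1_extract hn hcfg (Ak k x) (tA k (Ak k x)) hA
      (filter_subset _ _) (by
        intro S hS
        rw [Ak, mem_sdiff, Bk, crowd, mem_filter] at hS
        obtain ⟨hS1, hS2⟩ := hS
        have h4 : (univ.filter fun v => adj (x S) v ∧
            17 ≤ ((powersetCard k univ).filter fun S' => adj (x S') v).card).card * 16 ≤
            2 * deg2 k x S := u1_deg hcfg.inj (mem_powersetCard.1 hS1).2 16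
        have h5 : deg2 k x S < n := by
          by_contra hge
          refine hS2 ⟨hS1, (not_lt.1 hge).trans (card_le_card ?_)⟩
          intro S' hS'
          rw [mem_filter] at hS' ⊢
          exact ⟨hS'.1, hS'.2.le⟩
        clear hq key hn1 hn2
        omega) h3
    refine ⟨Ak k x, F, x, i, hA, h1.trans ?_, g1, g2, ⟨g3, g4, g5⟩, g6⟩
    refine Nat.mul_le_mul_right _ (le_trans (Nat.pow_le_pow_right (by norm_num) (by omega)) hn1)
  have h3 : (univ.filter fun χ : V n → Fin q => ∃ (x : V n → V n) (p : V n → V n → V n),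
      IsCfg k χ x p ∧ n.choose k ≤ 2 ^ (28 * k) * (Ak k x).card ∧
      n * (Ak k x).card ≤ 4 * ∑ T ∈ TA k x, aT k x T).card * 4 ^ n ≤ q ^ (2 ^ n) :=
    le_trans (Nat.mul_le_mul_right _ (card_le_card hsub)) key
  have h4 : (((univ.filter fun χ : V n → Fin q => ∃ (x : V n → V n) (p : V n → V n → V n),
      IsCfg k χ x p ∧ n.choose k ≤ 2 ^ (28 * k) * (Ak k x).card ∧
      n * (Ak k x).card ≤ 4 * ∑ T ∈ TA k x, aT k x T).card : ℕ) : ℝ) * 4 ^ n ≤
        (q : ℝ) ^ (2 ^ n) := by exact_mod_cast h3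
  rw [one_div, inv_pow, inv_mul_eq_div, le_div_iff₀ (by positivity)]
  exact h4

end Pool.Agent.SHC
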