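import Pool.Agent.SHC.Fam3
import Pool.Agent.SH.Pr

set_option autoImplicit false

namespace Pool.Agent.SHC

open Finset Pool.Agent.SH

open Classical in
/-- The number of colourings with the event, in finite form. -/
theorem p3c {n q : ℕ} (𝒳 : Finset (V n → V n)) (k r m : ℕ) (hr : 1 ≤ r) (hq : 0 < q)
    (Z : ℝ) (hZ : 2 ^ (k + 1) * (n : ℝ) ^ r / (q : ℝ) ^ (r - 1) +
      4 * ((k : ℝ) + 1) ^ 4 / q ≤ Z) :
    ((univ.filter fun χ : V n → Fin q => Ev3 𝒳 k r m χ).card : ℝ) ≤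
      𝒳.card * (((n.choose (k + 1)).choose m : ℝ) * ((q : ℝ) ^ (2 ^ n) * Z ^ m)) := by
  have hq0 : (0 : ℝ) < q := by exact_mod_cast hq
  have hZ0 : 0 ≤ Z := le_trans (by positivity) hZ
  set PP : Finset (Finset (V n)) := powersetCard m (powersetCard (k + 1) (univ : V n)) with hPP
  set E : (V n → V n) → Finset (V n) → Finset (V n → Fin q) := fun y 𝒯 =>
    univ.filter fun χ : V n → Fin q => ∃ D : V n → Finset (V n),
      (∀ T ∈ 𝒯, D T ∈ Fam3 r y T) ∧
      (∀ T ∈ 𝒯, ∀ T' ∈ 𝒯, T ≠ T' → Disjoint (D T) (D T')) ∧ ∀ T ∈ 𝒯, Mono χ (D T) with hE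
  have hsub : (univ.filter fun χ : V n → Fin q => Ev3 𝒳 k r m χ) ⊆
      𝒳.biUnion fun y => PP.biUnion fun 𝒯 => E y 𝒯 := by
    intro χ hχ
    simp only [mem_filter, mem_univ, true_and] at hχ
    obtain ⟨x, hx, 𝒯, h1, h2, D, h3, h4, h5⟩ := hχ
    rw [Finset.mem_biUnion]
    refine ⟨x, hx, ?_⟩
    rw [Finset.mem_biUnion]
    refine ⟨𝒯, ?_, ?_⟩
    · rw [hPP, Finset.mem_powersetCard]
      exact ⟨h1, h2⟩
    · simp only [hE, mem_filter, mem_univ, true_and]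
      exact ⟨D, h3, h4, h5⟩
  have hEc : ∀ y, ∀ 𝒯 ∈ PP, ((E y 𝒯).card : ℝ) ≤ (q : ℝ) ^ (2 ^ n) * Z ^ m := by
    intro y 𝒯 h𝒯
    rw [hPP, Finset.mem_powersetCard] at h𝒯
    have hub := ub hq 𝒯 (fun T => Fam3 r y T) (fun T _ D hD => fam3_nonempty r hr y T D hD)
    refine le_trans hub ?_
    apply mul_le_mul_of_nonneg_left _ (by positivity)
    calc ∏ T ∈ 𝒯, ∑ D ∈ Fam3 r y T, ((1 : ℝ) / q) ^ (D.card - 1)
        ≤ ∏ _T ∈ 𝒯, Z := by
          apply Finset.prod_le_prod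
          · intro T _
            apply Finset.sum_nonneg
            intro D _
            positivity
          · intro T hT
            exact (fam3_weight k r q hq y T
              (Finset.mem_powersetCard.1 (h𝒯.1 hT)).2).trans hZ
      _ = Z ^ m := by rw [Finset.prod_const, h𝒯.2]
  have hP : (PP.card : ℝ) = ((n.choose (k + 1)).choose m : ℝ) := by
    rw [hPP, Finset.card_powersetCard, Finset.card_powersetCard, Finset.card_univ,
      Fintype.card_fin]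
  calc _ ≤ ((𝒳.biUnion fun y => PP.biUnion fun 𝒯 => E y 𝒯).card : ℝ) := by
          exact_mod_cast Finset.card_le_card hsub
    _ ≤ ∑ y ∈ 𝒳, ((PP.biUnion fun 𝒯 => E y 𝒯).card : ℝ) := by
          exact_mod_cast Finset.card_biUnion_le
    _ ≤ ∑ y ∈ 𝒳, ∑ 𝒯 ∈ PP, ((E y 𝒯).card : ℝ) := by
          apply Finset.sum_le_sum
          intro y _
          exact_mod_cast Finset.card_biUnion_le
    _ ≤ ∑ _y ∈ 𝒳, ∑ _𝒯 ∈ PP, (q : ℝ) ^ (2 ^ n) * Z ^ m := by
          apply Finset.sum_le_sum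
          intro y _
          exact Finset.sum_le_sum (hEc y)
    _ = 𝒳.card * (((n.choose (k + 1)).choose m : ℝ) * ((q : ℝ) ^ (2 ^ n) * Z ^ m)) := by
          rw [Finset.sum_const, Finset.sum_const, nsmul_eq_mul, nsmul_eq_mul, hP]

end Pool.Agent.SHC
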