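import Pool.Agent.SHC.U3n
import Pool.Agent.SHC.P3c

set_option autoImplicit false

namespace Pool.Agent.SHC

open Finset Pool.Agent.SH

open Classical in
/-- Many sets which are not regular have small probability. -/
theorem u3 : ∃ C k0 : ℕ, ∀ k ≥ k0, ∀ n, Sz k n → ∀ q : ℕ, 2 ^ C * n ≤ q →
    ((univ.filter fun χ : V n → Fin q => ∃ (x : V n → V n) (p : V n → V n → V n),
      IsCfg k χ x p ∧ n.choose (k + 1) ≤ 2 ^ (30 * k) * (NR k x p).card).card : ℝ) ≤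
      (1 / 4) ^ n * (q : ℝ) ^ (2 ^ n) := by
  obtain ⟨k1, hk1⟩ := u3y
  refine ⟨4000, max k1 80, ?_⟩
  intro k hk n hn q hq
  have hk80 : 80 ≤ k := le_trans (le_max_right _ _) hk
  have hn1 : 1 ≤ n := le_trans Nat.one_le_two_pow hn.1
  have hq0 : 0 < q := by
    have h8 : 1 ≤ 2 ^ 4000 := Nat.one_le_two_pow
    have h9 : 1 ≤ 2 ^ 4000 * n := Nat.one_le_iff_ne_zero.2 (by positivity)
    omega
  set r := (k + 4) / 4 with hr
  have hr1 : k + 1 ≤ 4 * r := by omega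
  have hr2 : 4 * r ≤ k + 4 := by omega
  set m := n.choose (k + 1) / 2 ^ (63 * k) with hm
  obtain ⟨hm1, hm2⟩ := u3n_m (by omega : 25 ≤ k) hn
  rw [← hm] at hm1 hm2
  have hsub : (univ.filter fun χ : V n → Fin q => ∃ (x : V n → V n) (p : V n → V n → V n),
      IsCfg k χ x p ∧ n.choose (k + 1) ≤ 2 ^ (30 * k) * (NR k x p).card) ⊆
      univ.filter fun χ : V n → Fin q => Ev3 (XX n k) k r m χ := by
    intro χ hχ
    obtain ⟨-, x, p, hc, hN⟩ := mem_filter.1 hχ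
    exact mem_filter.2 ⟨mem_univ _,
      hk1 k (le_trans (le_max_left _ _) hk) n hn _ χ x p hc hN r hr1 hr2⟩
  have h1 := p3c (n := n) (q := q) (XX n k) k r m (by omega) hq0 ((1 / 2 : ℝ) ^ (318 * k))
    (u3n_Z hk80 hn hq r hr1 hr2)
  have h2 : ((univ.filter fun χ : V n → Fin q => ∃ (x : V n → V n) (p : V n → V n → V n),
      IsCfg k χ x p ∧ n.choose (k + 1) ≤ 2 ^ (30 * k) * (NR k x p).card).card : ℝ) ≤
      ((univ.filter fun χ : V n → Fin q => Ev3 (XX n k) k r m χ).card : ℝ) := by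
    exact_mod_cast card_le_card hsub
  refine (h2.trans h1).trans ?_
  have h3 : ((XX n k).card : ℝ) ≤ 2 ^ (1000 * k ^ 2 * n.choose k) := by
    exact_mod_cast u3n_XX (by omega : 8 ≤ k) hn
  have h4 : ((n.choose (k + 1)).choose m : ℝ) ≤ 2 ^ ((63 * k + 3) * m) := by
    exact_mod_cast u3n_choose (63 * k) _ m hm1
  have h5 : ((XX n k).card : ℝ) * ((n.choose (k + 1)).choose m : ℝ) * 2 ^ (2 * n) ≤
      2 ^ (318 * k * m) := by
    calc ((XX n k).card : ℝ) * ((n.choose (k + 1)).choose m : ℝ) * 2 ^ (2 * n)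
        ≤ 2 ^ (1000 * k ^ 2 * n.choose k) * 2 ^ ((63 * k + 3) * m) * 2 ^ (2 * n) := by gcongr
      _ = 2 ^ (1000 * k ^ 2 * n.choose k + (63 * k + 3) * m + 2 * n) := by
          rw [← pow_add, ← pow_add]
      _ ≤ 2 ^ (318 * k * m) := pow_le_pow_right₀ (by norm_num) hm2
  have h6 : ((1 / 2 : ℝ) ^ (318 * k)) ^ m * 2 ^ (318 * k * m) = 1 := by
    rw [← pow_mul, ← mul_pow]
    norm_num
  have h7 : (1 / 4 : ℝ) ^ n * 2 ^ (2 * n) = 1 := by
    rw [pow_mul, ← mul_pow]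
    norm_num
  have h8 : ((XX n k).card : ℝ) * ((n.choose (k + 1)).choose m : ℝ) *
      ((1 / 2 : ℝ) ^ (318 * k)) ^ m ≤ (1 / 4 : ℝ) ^ n := by
    have h9 : ((XX n k).card : ℝ) * ((n.choose (k + 1)).choose m : ℝ) *
        ((1 / 2 : ℝ) ^ (318 * k)) ^ m * 2 ^ (2 * n) ≤ (1 / 4 : ℝ) ^ n * 2 ^ (2 * n) := by
      calc ((XX n k).card : ℝ) * ((n.choose (k + 1)).choose m : ℝ) *
        ((1 / 2 : ℝ) ^ (318 * k)) ^ m * 2 ^ (2 * n) =
          (((XX n k).card : ℝ) * ((n.choose (k + 1)).choose m : ℝ) * 2 ^ (2 * n)) *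
            ((1 / 2 : ℝ) ^ (318 * k)) ^ m := by ring
        _ ≤ 2 ^ (318 * k * m) * ((1 / 2 : ℝ) ^ (318 * k)) ^ m :=
            mul_le_mul_of_nonneg_right h5 (by positivity)
        _ = 1 := by rw [mul_comm]; exact h6
        _ = (1 / 4 : ℝ) ^ n * 2 ^ (2 * n) := h7.symm
    exact le_of_mul_le_mul_right h9 (by positivity)
  calc ((XX n k).card : ℝ) * (((n.choose (k + 1)).choose m : ℝ) *
        ((q : ℝ) ^ (2 ^ n) * ((1 / 2 : ℝ) ^ (318 * k)) ^ m))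
      = (((XX n k).card : ℝ) * ((n.choose (k + 1)).choose m : ℝ) *
        ((1 / 2 : ℝ) ^ (318 * k)) ^ m) * (q : ℝ) ^ (2 ^ n) := by ring
    _ ≤ (1 / 4 : ℝ) ^ n * (q : ℝ) ^ (2 ^ n) := mul_le_mul_of_nonneg_right h8 (by positivity)

end Pool.Agent.SHC
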