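import Pool.Agent.SHC.U4w

set_option autoImplicit false

namespace Pool.Agent.SHC

open Finset Pool.Agent.SH

/-- Pairs `(S, a)` with `a ∈ P S`. -/
def x4_pairs {n : ℕ} (𝒮 : Finset (V n)) (P : V n → Finset (Fin n)) : Finset (V n × Fin n) :=
  𝒮.biUnion fun S => (P S).image (Prod.mk S)

theorem x4_mem_pairs {n : ℕ} {𝒮 : Finset (V n)} {P : V n → Finset (Fin n)} {u : V n × Fin n} :
    u ∈ x4_pairs 𝒮 P ↔ u.1 ∈ 𝒮 ∧ u.2 ∈ P u.1 := by
  unfold x4_pairs
  rw [mem_biUnion]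
  constructor
  · rintro ⟨S, hS, h⟩
    obtain ⟨a, ha, rfl⟩ := mem_image.1 h
    exact ⟨hS, ha⟩
  · rintro ⟨h1, h2⟩
    exact ⟨u.1, h1, mem_image.2 ⟨u.2, h2, rfl⟩⟩

theorem x4_card_pairs {n : ℕ} (𝒮 : Finset (V n)) (P : V n → Finset (Fin n)) :
    (x4_pairs 𝒮 P).card = ∑ S ∈ 𝒮, (P S).card := by
  unfold x4_pairs
  rw [card_biUnion]
  · refine sum_congr rfl fun S _ => card_image_of_injective _ fun a b h => ?_
    exact (Prod.mk.inj h).2
  · intro S _ S' _ hne
    rw [Function.onFun, disjoint_left]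
    rintro ⟨S1, a⟩ h1 h2
    obtain ⟨_, _, e⟩ := mem_image.1 h1
    obtain ⟨_, _, e'⟩ := mem_image.1 h2
    exact hne ((Prod.mk.inj e).1.trans (Prod.mk.inj e').1.symm)

section

variable {n k : ℕ} {C : Type} {χ : V n → C} {x : V n → V n} {p : V n → V n → V n}

open Classical in
/-- Off directions with a heavy vertex. -/
noncomputable def x4_Oh (k : ℕ) (x : V n → V n) (p : V n → V n → V n) (S : V n) :
    Finset (Fin n) :=
  (offs k x p S).filter fun a => 2 ^ (32 * k) < dg k x (p S (insert a S)) ∨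
    2 ^ (32 * k) < dg k x (vT k x (insert a S))

open Classical in
/-- Off directions with light vertices. -/
noncomputable def x4_Ol (k : ℕ) (x : V n → V n) (p : V n → V n → V n) (S : V n) :
    Finset (Fin n) :=
  (offs k x p S).filter fun a => ¬ (2 ^ (32 * k) < dg k x (p S (insert a S)) ∨
    2 ^ (32 * k) < dg k x (vT k x (insert a S)))

theorem x4_Ohl (S : V n) : (x4_Oh k x p S).card + (x4_Ol k x p S).card = (offs k x p S).card := by
  unfold x4_Oh x4_Ol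
  exact card_filter_add_card_filter_not _

open Classical in
theorem x4_heavy (hc : IsCfg k χ x p) :
    ∑ S ∈ Lk n k, (x4_Oh k x p S).card ≤ 3 * (x4_H k x).card := by
  rw [← x4_card_pairs]
  set 𝒯 := (Lk n (k + 1)).filter fun T => Reg k x p T ∧ 2 ^ (32 * k) < dg k x (vT k x T) with h𝒯
  have hsub : x4_pairs (Lk n k) (x4_Oh k x p) ⊆
      ((Lk n k ×ˢ (univ : Finset (Fin n))).filter fun u => u.2 ∈ offs k x p u.1 ∧
        2 ^ (32 * k) < dg k x (p u.1 (insert u.2 u.1))) ∪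
      𝒯.biUnion fun T => T.image fun a => (T.erase a, a) := by
    rintro ⟨S, a⟩ hu
    obtain ⟨h1, h2⟩ := x4_mem_pairs.1 hu
    simp only at h1 h2
    unfold x4_Oh at h2
    obtain ⟨h3, h4⟩ := mem_filter.1 h2
    rw [mem_union]
    rcases h4 with h4 | h4
    · left
      exact mem_filter.2 ⟨mem_product.2 ⟨h1, mem_univ _⟩, h3, h4⟩
    · right
      obtain ⟨_, g1, _, g3, _⟩ := mem_filter.1 h3
      rw [mem_biUnion]
      refine ⟨insert a S, mem_filter.2 ⟨x4_T h1 g1, g3, h4⟩, ?_⟩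
      rw [mem_image]
      exact ⟨a, mem_insert_self _ _, by rw [erase_insert g1]⟩
  have h1 := card_le_card hsub
  have h2 := card_union_le ((Lk n k ×ˢ (univ : Finset (Fin n))).filter fun u =>
      u.2 ∈ offs k x p u.1 ∧ 2 ^ (32 * k) < dg k x (p u.1 (insert u.2 u.1)))
      (𝒯.biUnion fun T => T.image fun a => (T.erase a, a))
  have h3 := x4_h1 hc
  have h4 : (𝒯.biUnion fun T => T.image fun a => (T.erase a, a)).card ≤ 𝒯.card * (k + 1) := by
    refine card_biUnion_le.trans ?_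
    have h5 : ∀ T ∈ 𝒯, (T.image fun a => (T.erase a, a)).card ≤ k + 1 := by
      intro T hT
      exact card_image_le.trans (mem_powersetCard.1 (mem_filter.1 hT).1).2.le
    refine (sum_le_card_nsmul _ _ _ h5).trans ?_
    rw [smul_eq_mul]
  have h5 := x4_h2T hc
  have h6 : 𝒯.card * (3 * (k + 1)) = 3 * (𝒯.card * (k + 1)) := by ring
  have h7 : 3 * (𝒯.card * (k + 1)) ≤ 5 * (x4_H k x).card := by rw [← h6]; exact h5
  omega

open Classical in
/-- Representatives of the colours. -/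
noncomputable def x4_P0 (k : ℕ) (χ : V n → C) (x : V n → V n) (p : V n → V n → V n) (S : V n) :
    Finset (Fin n) :=
  (x4_Ol k x p S).filter fun a => ∀ a' ∈ x4_Ol k x p S,
    χ (p S (insert a' S)) = χ (p S (insert a S)) → a ≤ a'

theorem x4_repr (hc : IsCfg k χ x p) (h0 : ¬ E0f χ) {S : V n} (hS : S ∈ Lk n k) :
    2 ^ 23 * (x4_Ol k x p S \ x4_P0 k χ x p S).card < n := by
  classical
  by_contra hcon
  push Not at hcon
  apply h0
  set R := x4_Ol k x p S \ x4_P0 k χ x p S with hR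
  have hoff : ∀ a ∈ x4_Ol k x p S, a ∉ S := fun a ha =>
    (mem_filter.1 (mem_filter.1 ha).1).2.1
  have hz : ∀ a : Fin n, ∃ i : Fin n, a ∉ S → p S (insert a S) = fl (x S) i := by
    intro a
    by_cases ha : a ∉ S
    · have := hc.hp _ _ (mem_powersetCard.1 hS).2 (mem_powersetCard.1 (x4_T hS ha)).2
        (subset_insert _ _)
      obtain ⟨i, hi⟩ := adj_iff.1 this
      exact ⟨i, fun _ => hi⟩
    · exact ⟨a, fun h => absurd h ha⟩
  choose z hz using hz
  have hzi : ∀ a a', a ∉ S → a' ∉ S → z a = z a' → a = a' := by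
    intro a a' ha ha' h
    have e : p S (insert a S) = p S (insert a' S) := by rw [hz a ha, hz a' ha', h]
    have := hc.hpi S (insert a S) (insert a' S) (mem_powersetCard.1 hS).2
      (mem_powersetCard.1 (x4_T hS ha)).2 (mem_powersetCard.1 (x4_T hS ha')).2
      (subset_insert _ _) (subset_insert _ _) e
    have h2 : a ∈ insert a' S := by rw [← this]; exact mem_insert_self _ _
    rcases mem_insert.1 h2 with e | e
    · exact e
    · exact absurd e ha
  set J := R.image z with hJ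
  have hJc : J.card = R.card := by
    rw [hJ, card_image_of_injOn]
    intro a ha a' ha' h
    exact hzi a a' (hoff a (mem_sdiff.1 (mem_coe.1 ha)).1) (hoff a' (mem_sdiff.1 (mem_coe.1 ha')).1) h
  have hg : ∀ i : Fin n, ∃ j : Fin n, i ∈ J → (j ∉ J ∧ χ (fl (x S) i) = χ (fl (x S) j)) := by
    intro i
    by_cases hi : i ∈ J
    · obtain ⟨a, ha, rfl⟩ := mem_image.1 hi
      have haO : a ∈ x4_Ol k x p S := (mem_sdiff.1 ha).1
      obtain ⟨b, hb, hmin⟩ := exists_min_image ((x4_Ol k x p S).filter fun a' =>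
        χ (p S (insert a' S)) = χ (p S (insert a S))) id ⟨a, mem_filter.2 ⟨haO, rfl⟩⟩
      obtain ⟨hb1, hb2⟩ := mem_filter.1 hb
      have hbP : b ∈ x4_P0 k χ x p S := by
        unfold x4_P0
        refine mem_filter.2 ⟨hb1, fun a' ha' h => ?_⟩
        exact hmin a' (mem_filter.2 ⟨ha', h.trans hb2⟩)
      refine ⟨z b, fun _ => ⟨?_, ?_⟩⟩
      · intro hzb
        obtain ⟨c, hc1, hc2⟩ := mem_image.1 hzb
        have : c = b := hzi c b (hoff c (mem_sdiff.1 hc1).1) (hoff b hb1) hc2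
        rw [this] at hc1
        exact (mem_sdiff.1 hc1).2 hbP
      · rw [← hz a (hoff a haO), ← hz b (hoff b hb1)]
        exact hb2.symm
    · exact ⟨i, fun h => absurd h hi⟩
  choose g hg using hg
  exact ⟨x S, J, g, hg, by rw [hJc]; exact hcon⟩

open Classical in
/-- Many `k`-sets with many usable directions. -/
theorem x4_many (hc : IsCfg k χ x p) (h0 : ¬ E0f χ) (hk : 25 ≤ k) (hn : 0 < n)
    (hH : 2 ^ (31 * k) * (x4_H k x).card ≤ n * n.choose k)
    (hB : n.choose k ≤ 2 ^ (30 * k) * (BAD k x p).card) :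
    n.choose k ≤ 2 ^ (30 * k + 1) *
      ((BAD k x p).filter fun S => n ≤ 2 ^ 21 * (x4_P0 k χ x p S).card).card := by
  set S1 := (BAD k x p).filter fun S => n ≤ 2 ^ 21 * (x4_P0 k χ x p S).card with hS1
  set S2 := (BAD k x p).filter fun S => ¬ n ≤ 2 ^ 21 * (x4_P0 k χ x p S).card with hS2
  have hsum : S1.card + S2.card = (BAD k x p).card := card_filter_add_card_filter_not _
  have hBL : ∀ S ∈ BAD k x p, S ∈ Lk n k := fun S hS => (mem_filter.1 hS).1
  have h1 : ∀ S ∈ S2, n ≤ 2 ^ 22 * (x4_Oh k x p S).card := by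
    intro S hS
    obtain ⟨hb, hlt⟩ := mem_filter.1 hS
    have e1 : n ≤ 2 ^ 20 * (offs k x p S).card := (mem_filter.1 hb).2
    have e2 := x4_repr hc h0 (hBL S hb)
    have e3 := x4_Ohl (k := k) (x := x) (p := p) S
    have e4 : (x4_Ol k x p S).card ≤ (x4_P0 k χ x p S).card +
        (x4_Ol k x p S \ x4_P0 k χ x p S).card := by
      have := le_card_sdiff (x4_P0 k χ x p S) (x4_Ol k x p S)
      omega
    omega
  have h2 : S2.card * n ≤ 2 ^ 22 * ∑ S ∈ Lk n k, (x4_Oh k x p S).card := by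
    calc S2.card * n = ∑ S ∈ S2, n := by rw [sum_const, smul_eq_mul]
      _ ≤ ∑ S ∈ S2, 2 ^ 22 * (x4_Oh k x p S).card := sum_le_sum h1
      _ = 2 ^ 22 * ∑ S ∈ S2, (x4_Oh k x p S).card := by rw [mul_sum]
      _ ≤ 2 ^ 22 * ∑ S ∈ Lk n k, (x4_Oh k x p S).card := by
        refine Nat.mul_le_mul_left _ (sum_le_sum_of_subset fun S hS => hBL S (mem_filter.1 hS).1)
  have h3 := x4_heavy hc
  have h4 : S2.card * n ≤ 2 ^ 24 * (x4_H k x).card := by omega
  have h5 : (2 ^ (31 * k) * S2.card) * n ≤ (2 ^ 24 * n.choose k) * n := by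
    calc (2 ^ (31 * k) * S2.card) * n = 2 ^ (31 * k) * (S2.card * n) := by ring
      _ ≤ 2 ^ (31 * k) * (2 ^ 24 * (x4_H k x).card) := Nat.mul_le_mul_left _ h4
      _ = 2 ^ 24 * (2 ^ (31 * k) * (x4_H k x).card) := by ring
      _ ≤ 2 ^ 24 * (n * n.choose k) := Nat.mul_le_mul_left _ hH
      _ = _ := by ring
  have h6 : 2 ^ (31 * k) * S2.card ≤ 2 ^ 24 * n.choose k := Nat.le_of_mul_le_mul_right h5 hn
  have h7 : 2 ^ k * n.choose k ≤ 2 ^ (31 * k) * S1.card + 2 ^ 24 * n.choose k := by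
    calc 2 ^ k * n.choose k ≤ 2 ^ k * (2 ^ (30 * k) * (BAD k x p).card) :=
          Nat.mul_le_mul_left _ hB
      _ = 2 ^ (31 * k) * (S1.card + S2.card) := by
        rw [hsum, ← mul_assoc, ← pow_add]; congr 2; omega
      _ = 2 ^ (31 * k) * S1.card + 2 ^ (31 * k) * S2.card := by ring
      _ ≤ _ := Nat.add_le_add_left h6 _
  have h8 : 2 ^ k = 2 * 2 ^ (k - 1) := by
    rw [← pow_succ']; congr 1; omega
  have h9 : 2 ^ 24 ≤ 2 ^ (k - 1) := Nat.pow_le_pow_right (by norm_num) (by omega)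
  have h10 : 2 ^ 24 * n.choose k ≤ 2 ^ (k - 1) * n.choose k := Nat.mul_le_mul_right _ h9
  have h11 : 2 ^ (k - 1) * n.choose k ≤ 2 ^ (31 * k) * S1.card := by
    rw [h8, mul_assoc] at h7
    omega
  have h12 : 2 ^ (31 * k) = 2 ^ (k - 1) * 2 ^ (30 * k + 1) := by
    rw [← pow_add]; congr 1; omega
  rw [h12, mul_assoc] at h11
  exact Nat.le_of_mul_le_mul_left h11 (by positivity)

end

theorem u4x : ∃ k0 : ℕ, ∀ k ≥ k0, ∀ n, Sz k n → ∀ (C : Type) (χ : V n → C) (x : V n → V n)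
    (p : V n → V n → V n), IsCfg k χ x p → ¬ E0f χ →
    n.choose k ≤ 2 ^ (30 * k) * (BAD k x p).card → Code4 k χ := by
  classical
  obtain ⟨k1, hlight⟩ := light
  refine ⟨max k1 25, fun k hk n hsz C χ x p hc h0 hB => ?_⟩
  have hk1 : k1 ≤ k := le_trans (le_max_left _ _) hk
  have hk25 : 25 ≤ k := le_trans (le_max_right _ _) hk
  have hn : 0 < n := lt_of_lt_of_le (by positivity) hsz.1
  have hH : 2 ^ (31 * k) * (x4_H k x).card ≤ n * n.choose k := hlight k hk1 n x hc.inj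
  obtain ⟨x', hx', hxx'⟩ := XX_spec (k := k) hn x
  have hmany := x4_many hc h0 hk25 hn hH hB
  set 𝒮 := (BAD k x p).filter fun S => n ≤ 2 ^ 21 * (x4_P0 k χ x p S).card with h𝒮
  have h𝒮L : ∀ S ∈ 𝒮, S ∈ Lk n k := fun S hS => (mem_filter.1 (mem_filter.1 hS).1).1
  set P : V n → Finset (V n × Fin n) := fun S => (x4_P0 k χ x p S).image (Prod.mk S) with hP
  have hPc : ∀ S, (P S).card = (x4_P0 k χ x p S).card := fun S =>
    card_image_of_injective _ fun a b h => (Prod.mk.inj h).2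
  -- facts on pairs
  have hpair : ∀ S ∈ 𝒮, ∀ u ∈ P S, u.1 = S ∧ u.2 ∈ x4_P0 k χ x p S := by
    intro S _ u hu
    obtain ⟨a, ha, rfl⟩ := mem_image.1 hu
    exact ⟨rfl, ha⟩
  have hP0 : ∀ S, ∀ a ∈ x4_P0 k χ x p S, a ∉ S ∧ insert a S ∉ TA k x ∧
      Reg k x p (insert a S) ∧ p S (insert a S) ≠ vT k x (insert a S) ∧
      dg k x (p S (insert a S)) ≤ 2 ^ (32 * k) ∧ dg k x (vT k x (insert a S)) ≤ 2 ^ (32 * k) := by
    intro S a ha
    have h1 := (mem_filter.1 ha).1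
    obtain ⟨h2, h3⟩ := mem_filter.1 h1
    obtain ⟨_, h4, h5, h6, h7⟩ := mem_filter.1 h2
    push Not at h3
    exact ⟨h4, h5, h6, h7, h3.1, h3.2⟩
  have hcolQ : ∀ S ∈ 𝒮, ∀ u ∈ P S, ∀ v ∈ x4_Q k x p u, χ v = χ (p u.1 (insert u.2 u.1)) := by
    intro S hS u hu v hv
    obtain ⟨e1, e2⟩ := hpair S hS u hu
    unfold x4_Q at hv
    rw [mem_insert, mem_singleton] at hv
    rcases hv with rfl | rfl
    · rfl
    · obtain ⟨g1, g2, g3, _⟩ := hP0 S u.2 e2
      rw [e1]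
      exact (x4_col hc (h𝒮L S hS) (x4_T (h𝒮L S hS) g1) (subset_insert _ _) g3).symm
  set W := 2 * ((k + 2) * 2 ^ (32 * k)) with hWdef
  obtain ⟨𝒮', h𝒮', U, hU, hUcf, hUhalf, hUsum⟩ := greedy 𝒮 P
    (fun u u' => ¬ Disjoint (x4_Q k x p u) (x4_Q k x p u')) W
    (fun u u' h h' => h h'.symm)
    (by
      intro S hS u hu u' hu' hne hcf
      rw [Finset.not_disjoint_iff] at hcf
      obtain ⟨v, hv, hv'⟩ := hcf
      obtain ⟨e1, e2⟩ := hpair S hS u hu
      obtain ⟨e1', e2'⟩ := hpair S hS u' hu'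
      have c1 := hcolQ S hS u hu v hv
      have c2 := hcolQ S hS u' hu' v hv'
      have c3 : χ (p S (insert u.2 S)) = χ (p S (insert u'.2 S)) := by
        rw [e1] at c1; rw [e1'] at c2
        rw [← c1, ← c2]
      have m1 := (mem_filter.1 e2).2 u'.2 (mem_filter.1 e2').1 c3.symm
      have m2 := (mem_filter.1 e2').2 u.2 (mem_filter.1 e2).1 c3
      apply hne
      exact Prod.ext (e1.trans e1'.symm) (le_antisymm m1 m2))
    (by
      intro S _ S' _ hne
      rw [disjoint_left]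
      rintro ⟨S1, a⟩ h1 h2
      obtain ⟨_, _, e⟩ := mem_image.1 h1
      obtain ⟨_, _, e'⟩ := mem_image.1 h2
      exact hne ((Prod.mk.inj e).1.trans (Prod.mk.inj e').1.symm))
    (by
      intro u hu
      obtain ⟨S, hS, huS⟩ := mem_biUnion.1 hu
      obtain ⟨e1, e2⟩ := hpair S hS u huS
      obtain ⟨g1, g2, g3, g4, g5, g6⟩ := hP0 S u.2 e2
      refine le_trans (card_le_card ?_) (x4_W hc (2 ^ (32 * k)) u (by rw [e1]; exact g5)
        (by rw [e1]; exact g6))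
      intro u' hu'
      obtain ⟨h1, h2⟩ := mem_filter.1 hu'
      obtain ⟨S', hS', huS'⟩ := mem_biUnion.1 h1
      obtain ⟨e1', e2'⟩ := hpair S' hS' u' huS'
      obtain ⟨g1', g2', g3', _⟩ := hP0 S' u'.2 e2'
      rw [mem_filter]
      refine ⟨mem_product.2 ⟨by rw [e1']; exact h𝒮L S' hS', mem_univ _⟩, ⟨?_, ?_⟩, h2⟩
      · rw [e1']; exact g1'
      · rw [e1']; exact g3')
  have h𝒮'L : ∀ S ∈ 𝒮', S ∈ 𝒮 := fun S hS => h𝒮' hS
  have hUfact : ∀ u ∈ U, u.1 ∈ 𝒮' ∧ u.2 ∈ x4_P0 k χ x p u.1 := by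
    intro u hu
    obtain ⟨S, hS, huS⟩ := mem_biUnion.1 (hU hu)
    obtain ⟨e1, e2⟩ := hpair S (h𝒮'L S hS) u huS
    rw [e1]
    exact ⟨hS, e2⟩
  have hz : ∀ u : V n × Fin n, ∃ i : Fin n, u ∈ U → fl (x u.1) i = p u.1 (insert u.2 u.1) := by
    intro u
    by_cases hu : u ∈ U
    · obtain ⟨h1, h2⟩ := hUfact u hu
      have hS := h𝒮L _ (h𝒮'L _ h1)
      have ha := (hP0 _ _ h2).1
      have := hc.hp _ _ (mem_powersetCard.1 hS).2 (mem_powersetCard.1 (x4_T hS ha)).2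
        (subset_insert _ _)
      obtain ⟨i, hi⟩ := adj_iff.1 this
      exact ⟨i, fun _ => hi.symm⟩
    · exact ⟨u.2, fun h => absurd h hu⟩
  choose z hz using hz
  have hv : ∀ u ∈ U, vT k x' (insert u.2 u.1) = vT k x (insert u.2 u.1) := by
    intro u hu
    obtain ⟨h1, h2⟩ := hUfact u hu
    have hS := h𝒮L _ (h𝒮'L _ h1)
    obtain ⟨g1, g2, g3, _⟩ := hP0 _ _ h2
    have hT := x4_T hS g1
    refine vT_eq k hk25 x x' hc.inj hxx' _ hT g2 _ ?_
    unfold Reg at g3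
    refine g3.trans (Nat.mul_le_mul_left 5 (card_le_card ?_))
    intro t ht
    obtain ⟨r1, r2, r3⟩ := mem_filter.1 ht
    refine mem_filter.2 ⟨r1, r2, ?_⟩
    rw [← r3]
    exact x4_adj hc hT r1
  have hQ1 : ∀ u : V n × Fin n, p u.1 (insert u.2 u.1) ∈ x4_Q k x p u := fun u => by
    unfold x4_Q; exact mem_insert_self _ _
  have hQ2 : ∀ u : V n × Fin n, vT k x (insert u.2 u.1) ∈ x4_Q k x p u := fun u => by
    unfold x4_Q; exact mem_insert_of_mem (mem_singleton_self _)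
  refine ⟨x', hx', 𝒮', x, U, z, fun S hS => h𝒮L _ (h𝒮'L S hS), fun u hu => (hUfact u hu).1,
    ?_, ?_, ?_, ?_, ?_⟩
  · intro u hu u' hu' h
    rw [hz u hu, hz u' hu'] at h
    by_contra hne
    apply hUcf u hu u' hu' hne
    rw [Finset.not_disjoint_iff]
    exact ⟨_, hQ1 u, by rw [h]; exact hQ1 u'⟩
  · intro u hu u' hu' h
    rw [hz u hu, hv u' hu'] at h
    by_cases hne : u = u'
    · subst hne
      exact (hP0 _ _ (hUfact u hu).2).2.2.2.1 h
    · apply hUcf u hu u' hu' hne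
      rw [Finset.not_disjoint_iff]
      exact ⟨_, hQ1 u, by rw [h]; exact hQ2 u'⟩
  · intro u hu
    rw [hz u hu, hv u hu]
    obtain ⟨h1, h2⟩ := hUfact u hu
    have hS := h𝒮L _ (h𝒮'L _ h1)
    obtain ⟨g1, g2, g3, _⟩ := hP0 _ _ h2
    exact x4_col hc hS (x4_T hS g1) (subset_insert _ _) g3
  · -- n |𝒮'| ≤ 2^22 |U|
    have h1 : ∀ S ∈ 𝒮', n ≤ 2 ^ 22 * (U ∩ P S).card := by
      intro S hS
      have e1 := (mem_filter.1 (h𝒮'L S hS)).2
      have e2 := hUhalf S hS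
      rw [hPc] at e2
      omega
    have h2 : ∑ S ∈ 𝒮', (U ∩ P S).card ≤ U.card := by
      rw [← card_biUnion]
      · apply card_le_card
        intro u hu
        obtain ⟨S, _, h⟩ := mem_biUnion.1 hu
        exact (mem_inter.1 h).1
      · intro S _ S' _ hne
        rw [Function.onFun, disjoint_left]
        intro u h1 h2
        obtain ⟨_, _, e⟩ := mem_image.1 (mem_inter.1 h1).2
        obtain ⟨_, _, e'⟩ := mem_image.1 (mem_inter.1 h2).2
        rw [← e] at e'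
        exact hne (Prod.mk.inj e').1.symm
    calc n * 𝒮'.card = ∑ S ∈ 𝒮', n := by rw [sum_const, smul_eq_mul, mul_comm]
      _ ≤ ∑ S ∈ 𝒮', 2 ^ 22 * (U ∩ P S).card := sum_le_sum h1
      _ = 2 ^ 22 * ∑ S ∈ 𝒮', (U ∩ P S).card := by rw [mul_sum]
      _ ≤ _ := Nat.mul_le_mul_left _ h2
  · -- n M ≤ 2^(70k) |U|
    have h1 : n * 𝒮.card ≤ 2 ^ 21 * ∑ S ∈ 𝒮, (P S).card := by
      calc n * 𝒮.card = ∑ S ∈ 𝒮, n := by rw [sum_const, smul_eq_mul, mul_comm]
        _ ≤ ∑ S ∈ 𝒮, 2 ^ 21 * (P S).card := by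
          refine sum_le_sum fun S hS => ?_
          rw [hPc]
          exact (mem_filter.1 hS).2
        _ = _ := by rw [mul_sum]
    have h2 : n * n.choose k ≤ 2 ^ (30 * k + 1) * (2 ^ 21 * ((2 * W + 2) * U.card)) := by
      calc n * n.choose k ≤ n * (2 ^ (30 * k + 1) * 𝒮.card) := Nat.mul_le_mul_left _ hmany
        _ = 2 ^ (30 * k + 1) * (n * 𝒮.card) := by ring
        _ ≤ 2 ^ (30 * k + 1) * (2 ^ 21 * ((2 * W + 2) * U.card)) := by
          refine Nat.mul_le_mul_left _ (h1.trans (Nat.mul_le_mul_left _ hUsum))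
    have h3 : 2 * W + 2 ≤ 2 ^ (33 * k + 3) := by
      have e1 : k + 2 ≤ 2 ^ k := by
        have : k + 1 ≤ 2 ^ (k - 1) * 1 + 0 ∨ True := Or.inr trivial
        have h := Nat.lt_two_pow_self (n := k - 1)
        have h' : 2 ^ k = 2 * 2 ^ (k - 1) := by rw [← pow_succ']; congr 1; omega
        omega
      have e2 : 1 ≤ 2 ^ (32 * k) := Nat.one_le_two_pow
      calc 2 * W + 2 = 4 * ((k + 2) * 2 ^ (32 * k)) + 2 := by rw [hWdef]; ring
        _ ≤ 4 * (2 ^ k * 2 ^ (32 * k)) + 4 * (2 ^ k * 2 ^ (32 * k)) := by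
          have e3 : (k + 2) * 2 ^ (32 * k) ≤ 2 ^ k * 2 ^ (32 * k) := Nat.mul_le_mul_right _ e1
          have e4 : 1 ≤ 2 ^ k * 2 ^ (32 * k) := Nat.mul_pos (by positivity) (by positivity)
          omega
        _ = 2 ^ 3 * (2 ^ k * 2 ^ (32 * k)) := by ring
        _ = 2 ^ (33 * k + 3) := by rw [← pow_add, ← pow_add]; congr 1; omega
    calc n * n.choose k ≤ 2 ^ (30 * k + 1) * (2 ^ 21 * ((2 * W + 2) * U.card)) := h2
      _ ≤ 2 ^ (30 * k + 1) * (2 ^ 21 * (2 ^ (33 * k + 3) * U.card)) := by gcongr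
      _ = 2 ^ (30 * k + 1 + 21 + (33 * k + 3)) * U.card := by
        rw [pow_add, pow_add]; ring
      _ ≤ 2 ^ (70 * k) * U.card := by
        refine Nat.mul_le_mul_right _ (Nat.pow_le_pow_right (by norm_num) (by omega))

end Pool.Agent.SHC
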