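import Pool.Agent.SHC.U4c
import Pool.Agent.SHC.U4x

set_option autoImplicit false

namespace Pool.Agent.SHC

open Finset Pool.Agent.SH

open Classical in
/-- Many bad `k`-sets have small probability. -/
theorem u4 : ∃ C k0 : ℕ, ∀ k ≥ k0, ∀ n, Sz k n → ∀ q : ℕ, 2 ^ C * n ≤ q →
    ((univ.filter fun χ : V n → Fin q => ¬ E0f χ ∧ ∃ (x : V n → V n) (p : V n → V n → V n),
      IsCfg k χ x p ∧ n.choose k ≤ 2 ^ (30 * k) * (BAD k x p).card).card : ℝ) ≤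
      (1 / 4) ^ n * (q : ℝ) ^ (2 ^ n) := by
  obtain ⟨C, k0, hc⟩ := u4c
  obtain ⟨k1, hx⟩ := u4x
  refine ⟨C, max k0 k1, fun k hk n hn q hq => ?_⟩
  refine le_trans ?_ (hc k (le_trans (le_max_left _ _) hk) n hn q hq)
  refine Nat.cast_le.2 (card_le_card ?_)
  intro χ hχ
  obtain ⟨_, h0, x, p, h1, h2⟩ := mem_filter.1 hχ
  exact mem_filter.2 ⟨mem_univ _, hx k (le_trans (le_max_right _ _) hk) n hn _ χ x p h1 h0 h2⟩

end Pool.Agent.SHC
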