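import Pool.Agent.SHC.Tp
import Pool.Agent.SHC.Ds
import Pool.Agent.SHC.U1
import Pool.Agent.SHC.U3
import Pool.Agent.SHC.U4
import Pool.Agent.SHC.E0
import Pool.Agent.SH.P12c

set_option autoImplicit false

namespace Pool.Agent.SHC

open Finset Pool.Agent.SH

theorem mn_pow (n : ℕ) (hn : 3 ≤ n) : 6 * (1 / 4 : ℝ) ^ n ≤ (1 / 2) ^ n := by
  have h4 : (1 / 4 : ℝ) ^ n = (1 / 2) ^ n * (1 / 2) ^ n := by
    rw [← mul_pow]
    norm_num
  have h2 : (1 / 2 : ℝ) ^ n ≤ (1 / 2) ^ 3 :=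
    pow_le_pow_of_le_one (by norm_num) (by norm_num) hn
  rw [h4]
  have h3 : 0 < (1 / 2 : ℝ) ^ n := by positivity
  nlinarith

theorem mn_sum (n : ℕ) (hn : 3 ≤ n) (Q a b c d e f : ℝ) (hQ : 0 ≤ Q) (ha : a ≤ (1 / 4) ^ n * Q)
    (hb : b ≤ (1 / 4) ^ n * Q) (hc : c ≤ (1 / 4) ^ n * Q) (hd : d ≤ (1 / 4) ^ n * Q)
    (he : e ≤ (1 / 4) ^ n * Q) (hf : f ≤ (1 / 4) ^ n * Q) :
    a + (b + (c + (d + (e + f)))) ≤ (1 / 2) ^ n * Q := by
  have h := mul_le_mul_of_nonneg_right (mn_pow n hn) hQ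
  rw [mul_assoc] at h
  linarith

open Classical in
/-- The colourings with a twin which does not preserve all edges are rare. -/
theorem main_c : ∃ C n0 : ℕ, ∀ n ≥ n0, ∀ q : ℕ, 2 ^ C * n ≤ q →
    ((univ.filter fun χ : V n → Fin q => ∃ (σ : Equiv.Perm (V n)) (β : V n → V n → V n),
      Twin χ σ β ∧ ∃ w b, ¬ adj (σ w) (σ (fl w b))).card : ℝ) ≤
      (1 / 2) ^ n * (q : ℝ) ^ (2 ^ n) := by
  obtain ⟨Ce, ne, He⟩ := e0
  obtain ⟨C3, k3, H3⟩ := u3
  obtain ⟨C4, k4, H4⟩ := u4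
  obtain ⟨C1, k1, H1⟩ := u1
  obtain ⟨kt, Ht⟩ := lvtop
  obtain ⟨kd, Hd⟩ := descent
  refine ⟨Ce + C3 + C4 + C1 + 128, ne + 2 ^ (320 * (k3 + k4 + k1 + kt + kd + 1)) + 12, ?_⟩
  intro n hn q hq
  have hpw : 0 < 2 ^ (320 * (k3 + k4 + k1 + kt + kd + 1)) := by positivity
  have hlog : 320 * (k3 + k4 + k1 + kt + kd + 1) ≤ Nat.log 2 n :=
    Nat.le_log_of_pow_le (by norm_num) (by omega)
  obtain ⟨k, hk1, hk2⟩ : ∃ k : ℕ, 320 * k ≤ Nat.log 2 n ∧ Nat.log 2 n < 320 * (k + 1) :=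
    ⟨Nat.log 2 n / 320, by omega, by omega⟩
  have hkK : k3 + k4 + k1 + kt + kd + 1 ≤ k := by omega
  have hSz : Sz k n := by
    constructor
    · exact (Nat.pow_le_pow_right (by norm_num) hk1).trans (Nat.pow_log_le_self 2 (by omega))
    · refine (Nat.lt_pow_succ_log_self (b := 2) (by norm_num) n).le.trans ?_
      exact Nat.pow_le_pow_right (by norm_num) (by omega)
  have hle : ∀ m : ℕ, m ≤ Ce + C3 + C4 + C1 + 128 → 2 ^ m * n ≤ q := fun m hm =>
    (Nat.mul_le_mul_right _ (Nat.pow_le_pow_right (by norm_num) hm)).trans hq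
  have g0 := He n (by omega) q (hle Ce (by omega))
  have g3 := H3 k (by omega) n hSz q (hle C3 (by omega))
  have g4 := H4 k (by omega) n hSz q (hle C4 (by omega))
  have g1 := H1 k (by omega) n hSz q (hle C1 (by omega))
  have h128 : (n : ℝ) * 2 ^ 128 ≤ q := by
    have := hle 128 (by omega)
    rw [mul_comm]
    exact_mod_cast this
  have h20 : (n : ℝ) * 32 ^ 4 ≤ q := by
    have h := hle 20 (by omega)
    have h32 : (32 : ℝ) ^ 4 = 2 ^ 20 := by norm_num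
    rw [h32, mul_comm]
    exact_mod_cast h
  have f1 := p1c (n := n) (q := q) (by omega) h20
  have f2 := p2c (n := n) (q := q) (by omega) h128
  set W0 := univ.filter fun χ : V n → Fin q => E0f χ
  set W1 := univ.filter fun χ : V n → Fin q => ∃ (x : V n → V n) (p : V n → V n → V n),
      IsCfg k χ x p ∧ n.choose k ≤ 2 ^ (28 * k) * (Ak k x).card ∧
      n * (Ak k x).card ≤ 4 * ∑ T ∈ TA k x, aT k x T
  set W3 := univ.filter fun χ : V n → Fin q => ∃ (x : V n → V n) (p : V n → V n → V n),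
      IsCfg k χ x p ∧ n.choose (k + 1) ≤ 2 ^ (30 * k) * (NR k x p).card
  set W4 := univ.filter fun χ : V n → Fin q => ¬ E0f χ ∧
      ∃ (x : V n → V n) (p : V n → V n → V n),
      IsCfg k χ x p ∧ n.choose k ≤ 2 ^ (30 * k) * (BAD k x p).card
  set Y1 := univ.filter fun χ : V n → Fin q => E1f χ
  set Y2 := univ.filter fun χ : V n → Fin q => E2f χ
  have hsub : (univ.filter fun χ : V n → Fin q => ∃ (σ : Equiv.Perm (V n))
      (β : V n → V n → V n), Twin χ σ β ∧ ∃ w b, ¬ adj (σ w) (σ (fl w b))) ⊆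
      W0 ∪ (W1 ∪ (W3 ∪ (W4 ∪ (Y1 ∪ Y2)))) := by
    intro χ hχ
    obtain ⟨σ, β, ht, w, b, hb⟩ := (mem_filter.1 hχ).2
    by_contra hcon
    simp only [W0, W1, W3, W4, Y1, Y2, mem_filter, mem_univ, true_and, mem_union, not_or] at hcon
    obtain ⟨c0, c1, c3, c4, d1, d2⟩ := hcon
    apply hb
    refine Hd k (by omega) n hSz (Fin q) χ σ β ht d1 d2 ?_ w b
    refine Ht k (by omega) n hSz (Fin q) χ σ β ht d1 ?_ ?_ ?_
    · intro x p hc
      by_contra h
      exact c3 ⟨x, p, hc, not_lt.1 h⟩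
    · intro x p hc
      by_contra h
      exact c4 ⟨c0, x, p, hc, not_lt.1 h⟩
    · intro x p hc hA
      by_contra h
      exact c1 ⟨x, p, hc, hA, not_lt.1 h⟩
  have hcard : (univ.filter fun χ : V n → Fin q => ∃ (σ : Equiv.Perm (V n))
      (β : V n → V n → V n), Twin χ σ β ∧ ∃ w b, ¬ adj (σ w) (σ (fl w b))).card ≤
      W0.card + (W1.card + (W3.card + (W4.card + (Y1.card + Y2.card)))) :=
    (card_le_card hsub).trans ((card_union_le _ _).trans (Nat.add_le_add_left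
      ((card_union_le _ _).trans (Nat.add_le_add_left ((card_union_le _ _).trans
        (Nat.add_le_add_left ((card_union_le _ _).trans (Nat.add_le_add_left
          (card_union_le _ _) _)) _)) _)) _))
  have hcard' : ((univ.filter fun χ : V n → Fin q => ∃ (σ : Equiv.Perm (V n))
      (β : V n → V n → V n), Twin χ σ β ∧ ∃ w b, ¬ adj (σ w) (σ (fl w b))).card : ℝ) ≤
      (W0.card : ℝ) + ((W1.card : ℝ) + ((W3.card : ℝ) + ((W4.card : ℝ) + ((Y1.card : ℝ) +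
        (Y2.card : ℝ))))) := by
    exact_mod_cast hcard
  exact hcard'.trans (mn_sum n (by omega) _ _ _ _ _ _ _ (pow_nonneg (Nat.cast_nonneg q) _)
    g0 g1 g3 g4 f1 f2)

end Pool.Agent.SHC
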