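import Pool.Agent.SHC.Tp0

set_option autoImplicit false

namespace Pool.Agent.SHC

open Finset Pool.Agent.SH

open Classical in
/-- Pairs `(S, a)` with `S ∪ {a}` in a family of `(k+1)`-sets. -/
theorem tpb_up {n : ℕ} (k : ℕ) (F : Finset (V n)) :
    ∑ S ∈ Lk n k, (univ.filter fun a => a ∉ S ∧ insert a S ∈ F).card ≤ (k + 1) * F.card := by
  have h : ∑ S ∈ Lk n k, (univ.filter fun a => a ∉ S ∧ insert a S ∈ F).card =
      ∑ T ∈ Lk n (k + 1), (T.filter fun _ => T ∈ F).card := by
    convert tp_dbl k (fun _ T : V n => T ∈ F)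
  rw [h]
  calc ∑ T ∈ Lk n (k + 1), (T.filter fun _ => T ∈ F).card
      ≤ ∑ T ∈ Lk n (k + 1), if T ∈ F then (k + 1) else 0 := by
        refine sum_le_sum fun T hT => ?_
        rw [mem_powersetCard] at hT
        by_cases hF : T ∈ F
        · rw [if_pos hF]
          exact (card_filter_le _ _).trans hT.2.le
        · rw [if_neg hF, filter_false_of_mem (fun _ _ => hF), card_empty]
    _ = ∑ T ∈ (Lk n (k + 1)).filter (fun T => T ∈ F), (k + 1) := by rw [sum_filter]
    _ = ((Lk n (k + 1)).filter (fun T => T ∈ F)).card * (k + 1) := by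
        rw [sum_const, smul_eq_mul]
    _ ≤ F.card * (k + 1) := by
        refine Nat.mul_le_mul_right _ (card_le_card ?_)
        intro T hT
        exact (mem_filter.1 hT).2
    _ = (k + 1) * F.card := by rw [mul_comm]

theorem tpb_aT {n : ℕ} (k : ℕ) (x : V n → V n) :
    ∑ T ∈ Lk n (k + 1), aT k x T ≤ n * (Ak k x).card := by
  classical
  have h2 : ∑ T ∈ Lk n (k + 1), aT k x T =
      ∑ T ∈ Lk n (k + 1), (T.filter fun t => T.erase t ∈ Ak k x).card := by
    refine sum_congr rfl fun T _ => ?_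
    unfold aT
    congr
  rw [h2]
  have h3 : ∑ T ∈ Lk n (k + 1), (T.filter fun t => T.erase t ∈ Ak k x).card =
      ∑ S ∈ Lk n k, (univ.filter fun a => a ∉ S ∧ S ∈ Ak k x).card := by
    symm
    convert tp_dbl k (fun S _ : V n => S ∈ Ak k x)
  rw [h3]
  calc ∑ S ∈ Lk n k, (univ.filter fun a => a ∉ S ∧ S ∈ Ak k x).card
      ≤ ∑ S ∈ Lk n k, if S ∈ Ak k x then n else 0 := by
        refine sum_le_sum fun S _ => ?_
        by_cases hF : S ∈ Ak k x
        · rw [if_pos hF]
          refine (card_filter_le _ _).trans ?_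
          rw [card_univ, Fintype.card_fin]
        · rw [if_neg hF, filter_false_of_mem (fun _ _ hc => hF hc.2), card_empty]
    _ = ∑ S ∈ (Lk n k).filter (fun S => S ∈ Ak k x), n := by rw [sum_filter]
    _ = ((Lk n k).filter (fun S => S ∈ Ak k x)).card * n := by rw [sum_const, smul_eq_mul]
    _ ≤ (Ak k x).card * n := by
        refine Nat.mul_le_mul_right _ (card_le_card ?_)
        intro T hT
        exact (mem_filter.1 hT).2
    _ = n * (Ak k x).card := by rw [mul_comm]

/-- Claim B. -/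
theorem tp_B : ∃ k0 : ℕ, ∀ k ≥ k0, ∀ n, Sz k n → ∀ (C : Type) (χ : V n → C)
    (x : V n → V n) (p : V n → V n → V n), IsCfg k χ x p →
    2 ^ (30 * k) * (NR k x p).card < n.choose (k + 1) →
    2 ^ (30 * k) * (BAD k x p).card < n.choose k →
    2 ^ (28 * k) * (Ak k x).card < n.choose k →
    2 ^ (26 * k) * (Exc k x p).card ≤ n.choose k := by
  classical
  refine ⟨14, ?_⟩
  intro k hk n hSz C χ x p _ hNR hBAD hAk
  have hn0 : 0 < n := lt_of_lt_of_le (by positivity) hSz.1
  set M := n.choose k with hM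
  set E' := (Exc k x p) \ (BAD k x p) with hE'
  -- the pairs
  have hpt : ∀ S ∈ E', n ≤ 2 ^ 20 * ((univ.filter fun a => a ∉ S ∧ insert a S ∈ TA k x).card +
      (univ.filter fun a => a ∉ S ∧ insert a S ∈ NR k x p).card) := by
    intro S hS
    rw [hE', mem_sdiff] at hS
    obtain ⟨hS1, hS2⟩ := hS
    unfold Exc at hS1
    rw [mem_filter] at hS1
    obtain ⟨hSk, hSn⟩ := hS1
    have hS3 : 2 ^ 20 * (offs k x p S).card < n := by
      by_contra hc
      apply hS2
      unfold BAD
      rw [mem_filter]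
      exact ⟨hSk, by omega⟩
    have hcov : badd k x p S ⊆ ((univ.filter fun a => a ∉ S ∧ insert a S ∈ TA k x) ∪
        (univ.filter fun a => a ∉ S ∧ insert a S ∈ NR k x p)) ∪ offs k x p S := by
      intro a ha
      unfold badd at ha
      rw [mem_filter] at ha
      obtain ⟨_, ha1, ha2⟩ := ha
      rw [mem_union, mem_union, mem_filter, mem_filter]
      by_cases h1 : insert a S ∈ TA k x
      · exact Or.inl (Or.inl ⟨mem_univ _, ha1, h1⟩)
      · by_cases h2 : Reg k x p (insert a S)
        · right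
          unfold offs
          rw [mem_filter]
          exact ⟨mem_univ _, ha1, h1, h2, fun h3 => ha2 ⟨h1, h2, h3⟩⟩
        · left
          right
          refine ⟨mem_univ _, ha1, ?_⟩
          unfold NR
          rw [mem_filter]
          refine ⟨?_, h1, h2⟩
          rw [mem_powersetCard] at hSk ⊢
          exact ⟨subset_univ _, by rw [card_insert_of_notMem ha1, hSk.2]⟩
    have hcard := (card_le_card hcov).trans ((card_union_le _ _).trans
      (Nat.add_le_add_right (card_union_le _ _) _))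
    have e1 : 2 ^ 19 * (badd k x p S).card ≤ 2 ^ 19 *
      ((univ.filter fun a => a ∉ S ∧ insert a S ∈ TA k x).card +
      (univ.filter fun a => a ∉ S ∧ insert a S ∈ NR k x p).card + (offs k x p S).card) :=
      Nat.mul_le_mul_left _ hcard
    have e2 : 2 ^ 20 = 2 * 2 ^ 19 := by norm_num
    rw [e2] at hS3 ⊢
    generalize (2 ^ 19 : ℕ) = w at *
    nlinarith
  have hsum : E'.card * n ≤ 2 ^ 20 * ((k + 1) * (TA k x).card + (k + 1) * (NR k x p).card) := by
    calc E'.card * n = ∑ S ∈ E', n := by rw [sum_const, smul_eq_mul]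
      _ ≤ ∑ S ∈ E', 2 ^ 20 * ((univ.filter fun a => a ∉ S ∧ insert a S ∈ TA k x).card +
          (univ.filter fun a => a ∉ S ∧ insert a S ∈ NR k x p).card) := sum_le_sum hpt
      _ ≤ ∑ S ∈ Lk n k, 2 ^ 20 * ((univ.filter fun a => a ∉ S ∧ insert a S ∈ TA k x).card +
          (univ.filter fun a => a ∉ S ∧ insert a S ∈ NR k x p).card) := by
          refine sum_le_sum_of_subset ?_
          intro S hS
          rw [hE', mem_sdiff] at hS
          exact (mem_filter.1 hS.1).1
      _ = 2 ^ 20 * (∑ S ∈ Lk n k, (univ.filter fun a => a ∉ S ∧ insert a S ∈ TA k x).card +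
          ∑ S ∈ Lk n k, (univ.filter fun a => a ∉ S ∧ insert a S ∈ NR k x p).card) := by
          rw [← mul_sum, sum_add_distrib]
      _ ≤ _ := Nat.mul_le_mul_left _ (Nat.add_le_add (tpb_up k _) (tpb_up k _))
  have hTA : (k + 1) * (TA k x).card ≤ 25 * (n * (Ak k x).card) := by
    calc (k + 1) * (TA k x).card = ∑ T ∈ TA k x, (k + 1) := by
          rw [sum_const, smul_eq_mul, mul_comm]
      _ ≤ ∑ T ∈ TA k x, 25 * aT k x T := by
          refine sum_le_sum fun T hT => ?_
          exact (mem_filter.1 hT).2.le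
      _ ≤ ∑ T ∈ Lk n (k + 1), 25 * aT k x T :=
          sum_le_sum_of_subset (filter_subset _ _)
      _ = 25 * ∑ T ∈ Lk n (k + 1), aT k x T := by rw [mul_sum]
      _ ≤ _ := Nat.mul_le_mul_left _ (tpb_aT k x)
  have hch : (k + 1) * n.choose (k + 1) ≤ n * M := by
    have := Nat.choose_succ_right_eq n k
    rw [mul_comm, this, mul_comm]
    exact Nat.mul_le_mul_right _ (Nat.sub_le _ _)
  have hNR' : 2 ^ (28 * k) * ((k + 1) * (NR k x p).card) ≤ n * M := by
    calc 2 ^ (28 * k) * ((k + 1) * (NR k x p).card)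
        ≤ 2 ^ (30 * k) * ((k + 1) * (NR k x p).card) :=
          Nat.mul_le_mul_right _ (Nat.pow_le_pow_right (by norm_num) (by omega))
      _ = (k + 1) * (2 ^ (30 * k) * (NR k x p).card) := by ring
      _ ≤ (k + 1) * n.choose (k + 1) := Nat.mul_le_mul_left _ hNR.le
      _ ≤ n * M := hch
  have hTA' : 2 ^ (28 * k) * ((k + 1) * (TA k x).card) ≤ 25 * (n * M) := by
    calc 2 ^ (28 * k) * ((k + 1) * (TA k x).card)
        ≤ 2 ^ (28 * k) * (25 * (n * (Ak k x).card)) := Nat.mul_le_mul_left _ hTA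
      _ = 25 * (n * (2 ^ (28 * k) * (Ak k x).card)) := by ring
      _ ≤ 25 * (n * M) := Nat.mul_le_mul_left _ (Nat.mul_le_mul_left _ hAk.le)
  have hE1 : 2 ^ (28 * k) * E'.card ≤ 2 ^ 25 * M := by
    have h1 : (2 ^ (28 * k) * E'.card) * n ≤ (2 ^ 25 * M) * n := by
      calc (2 ^ (28 * k) * E'.card) * n = 2 ^ (28 * k) * (E'.card * n) := by ring
        _ ≤ 2 ^ (28 * k) *
            (2 ^ 20 * ((k + 1) * (TA k x).card + (k + 1) * (NR k x p).card)) :=
            Nat.mul_le_mul_left _ hsum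
        _ = 2 ^ 20 * (2 ^ (28 * k) * ((k + 1) * (TA k x).card) +
            2 ^ (28 * k) * ((k + 1) * (NR k x p).card)) := by ring
        _ ≤ 2 ^ 20 * (25 * (n * M) + n * M) :=
            Nat.mul_le_mul_left _ (Nat.add_le_add hTA' hNR')
        _ = (2 ^ 20 * 26 * M) * n := by ring
        _ ≤ (2 ^ 25 * M) * n := by
            refine Nat.mul_le_mul_right _ (Nat.mul_le_mul_right _ (by norm_num))
    exact Nat.le_of_mul_le_mul_right h1 hn0
  have hE2 : 2 ^ (28 * k) * (BAD k x p).card ≤ M := by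
    calc 2 ^ (28 * k) * (BAD k x p).card ≤ 2 ^ (30 * k) * (BAD k x p).card :=
          Nat.mul_le_mul_right _ (Nat.pow_le_pow_right (by norm_num) (by omega))
      _ ≤ M := hBAD.le
  have hE3 : (Exc k x p).card ≤ E'.card + (BAD k x p).card := by
    have h1 := card_le_card_sdiff_add_card (s := Exc k x p) (t := BAD k x p)
    exact h1
  have h28 : 2 ^ (28 * k) * (Exc k x p).card ≤ 2 ^ 26 * M := by
    calc 2 ^ (28 * k) * (Exc k x p).card
        ≤ 2 ^ (28 * k) * (E'.card + (BAD k x p).card) := Nat.mul_le_mul_left _ hE3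
      _ = 2 ^ (28 * k) * E'.card + 2 ^ (28 * k) * (BAD k x p).card := by ring
      _ ≤ 2 ^ 25 * M + M := Nat.add_le_add hE1 hE2
      _ ≤ 2 ^ 26 * M := by
          have : 2 ^ 25 * M + M = (2 ^ 25 + 1) * M := by ring
          rw [this]
          exact Nat.mul_le_mul_right _ (by norm_num)
  have h2k : 2 ^ 26 * (2 ^ (26 * k) * (Exc k x p).card) ≤ 2 ^ 26 * M := by
    calc 2 ^ 26 * (2 ^ (26 * k) * (Exc k x p).card)
        ≤ 2 ^ (2 * k) * (2 ^ (26 * k) * (Exc k x p).card) :=
          Nat.mul_le_mul_right _ (Nat.pow_le_pow_right (by norm_num) (by omega))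
      _ = 2 ^ (28 * k) * (Exc k x p).card := by
          rw [← mul_assoc, ← pow_add]
          congr 2
          ring
      _ ≤ 2 ^ 26 * M := h28
  exact Nat.le_of_mul_le_mul_left h2k (by positivity)

end Pool.Agent.SHC
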