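import Pool.Agent.SHC.Tp0
import Pool.Agent.SH.Main

set_option autoImplicit false

namespace Pool.Agent.SHC

open Finset Pool.Agent.SH

/-- Claim C.  With `I = Rᶜ`, `x (insert a R) = σ (fl w a)`: the pairs `(a, b)` of `I` with images
not at distance two have `insert a R ∈ Exc` or `insert b R ∈ Exc` or `b ∈ badd (insert a R)` or
`a ∈ badd (insert b R)`: at most `6 n #I / 2 ^ 20`; then `nc`. -/
theorem tp_C {n k : ℕ} (hk : 1 ≤ k) (hn : 2 ^ 20 * (k + 2) ≤ n) {C : Type} {χ : V n → C}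
    {σ : Equiv.Perm (V n)} {β : V n → V n → V n} (ht : Twin χ σ β) (h1 : ¬ E1f χ) (w0 R : V n)
    (hR : R.card = k - 1)
    (hE : 2 ^ 20 * ((Rᶜ).filter fun a => insert a R ∈ Exc k (fun S => σ (symmDiff w0 S))
      (fun S T => β (symmDiff w0 S) (symmDiff w0 T))).card ≤ n) :
    2 ^ 20 * dfc σ (symmDiff w0 R) ≤ 31 * n := by
  classical
  have hc := isCfg_of_twin ht k w0
  set x : V n → V n := fun S => σ (symmDiff w0 S) with hx
  set p : V n → V n → V n := fun S T => β (symmDiff w0 S) (symmDiff w0 T) with hp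
  set w := symmDiff w0 R with hw
  have hI : (Rᶜ).card = n - (k - 1) := by
    rw [card_compl, Fintype.card_fin, hR]
  have hxa : ∀ a ∈ Rᶜ, x (insert a R) = σ (fl w a) := by
    intro a ha
    simp only [hx]
    rw [symmDiff_insert w0 R a (by simpa using ha)]
  have hca : ∀ a ∈ Rᶜ, (insert a R).card = k := by
    intro a ha
    rw [card_insert_of_notMem (by simpa using ha), hR]
    omega
  set B := ((Rᶜ ×ˢ Rᶜ).filter fun q : Fin n × Fin n => q.1 ≠ q.2 ∧
      (symmDiff (σ (fl w q.1)) (σ (fl w q.2))).card ≠ 2) with hB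
  set E1 := ((Rᶜ).filter fun a => insert a R ∈ Exc k x p) ×ˢ Rᶜ with hE1
  set E2 := Rᶜ ×ˢ ((Rᶜ).filter fun a => insert a R ∈ Exc k x p) with hE2
  set E3 := (Rᶜ ×ˢ Rᶜ).filter fun q : Fin n × Fin n => insert q.1 R ∉ Exc k x p ∧
    q.2 ∈ badd k x p (insert q.1 R) with hE3
  set E4 := (Rᶜ ×ˢ Rᶜ).filter fun q : Fin n × Fin n => insert q.2 R ∉ Exc k x p ∧
    q.1 ∈ badd k x p (insert q.2 R) with hE4
  have hbd : ∀ a ∈ Rᶜ, insert a R ∉ Exc k x p → 2 ^ 19 * (badd k x p (insert a R)).card ≤ n := by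
    intro a ha h
    by_contra hlt
    apply h
    rw [Exc, mem_filter]
    exact ⟨mem_powersetCard.2 ⟨subset_univ _, hca a ha⟩, by omega⟩
  have c1 : 2 ^ 20 * E1.card ≤ n * (Rᶜ).card := by
    rw [hE1, card_product, ← mul_assoc]
    exact Nat.mul_le_mul_right _ hE
  have c2 : 2 ^ 20 * E2.card ≤ n * (Rᶜ).card := by
    rw [hE2, card_product, mul_comm (Rᶜ).card, ← mul_assoc]
    exact Nat.mul_le_mul_right _ hE
  have c3 : 2 ^ 20 * E3.card ≤ 2 * n * (Rᶜ).card := by
    have h3 : E3.card ≤ ∑ a ∈ Rᶜ, ((Rᶜ).filter fun b => insert a R ∉ Exc k x p ∧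
        b ∈ badd k x p (insert a R)).card := by
      rw [hE3, card_filter, sum_product]
      refine le_of_eq (sum_congr rfl fun a _ => ?_)
      rw [card_filter]
    have h4 : ∀ a ∈ Rᶜ, 2 ^ 20 * ((Rᶜ).filter fun b => insert a R ∉ Exc k x p ∧
        b ∈ badd k x p (insert a R)).card ≤ 2 * n := by
      intro a ha
      by_cases h : insert a R ∈ Exc k x p
      · rw [filter_false_of_mem (fun b _ hb => hb.1 h)]
        simp
      · have h5 : ((Rᶜ).filter fun b => insert a R ∉ Exc k x p ∧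
            b ∈ badd k x p (insert a R)).card ≤ (badd k x p (insert a R)).card :=
          card_le_card fun b hb => (mem_filter.1 hb).2.2
        have h6 := hbd a ha h
        omega
    calc 2 ^ 20 * E3.card ≤ 2 ^ 20 * ∑ a ∈ Rᶜ, ((Rᶜ).filter fun b => insert a R ∉ Exc k x p ∧
        b ∈ badd k x p (insert a R)).card := Nat.mul_le_mul_left _ h3
      _ = ∑ a ∈ Rᶜ, 2 ^ 20 * ((Rᶜ).filter fun b => insert a R ∉ Exc k x p ∧
        b ∈ badd k x p (insert a R)).card := by rw [mul_sum]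
      _ ≤ ∑ _a ∈ Rᶜ, 2 * n := sum_le_sum h4
      _ = 2 * n * (Rᶜ).card := by rw [sum_const, smul_eq_mul, mul_comm]
  have c4 : 2 ^ 20 * E4.card ≤ 2 * n * (Rᶜ).card := by
    have h3 : E4.card ≤ E3.card := by
      refine card_le_card_of_injOn (fun q => (q.2, q.1)) ?_ ?_
      · intro q hq
        rw [mem_coe, hE4, mem_filter, mem_product] at hq
        rw [mem_coe, hE3, mem_filter, mem_product]
        exact ⟨⟨hq.1.2, hq.1.1⟩, hq.2⟩
      · intro q _ q' _ h
        simp only [Prod.mk.injEq] at h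
        exact Prod.ext h.2 h.1
    exact (Nat.mul_le_mul_left _ h3).trans c3
  have hsub : B ⊆ E1 ∪ (E2 ∪ (E3 ∪ E4)) := by
    rintro ⟨a, b⟩ hab
    rw [hB, mem_filter, mem_product] at hab
    obtain ⟨⟨ha, hb⟩, hne, hd⟩ := hab
    simp only at ha hb hne hd
    by_contra hcon
    simp only [hE1, hE2, hE3, hE4, mem_union, mem_product, mem_filter, not_or, not_and] at hcon
    obtain ⟨g1, g2, g3, g4⟩ := hcon
    have haE : insert a R ∉ Exc k x p := fun h => g1 ⟨ha, h⟩ hb
    have hbE : insert b R ∉ Exc k x p := fun h => g2 ha hb h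
    have k3 := g3 ⟨ha, hb⟩ haE
    have k4 := g4 ⟨ha, hb⟩ hbE
    have haR : a ∉ R := by simpa using ha
    have hbR : b ∉ R := by simpa using hb
    have hbS : b ∉ insert a R := by
      simp only [mem_insert, not_or]
      exact ⟨fun h => hne h.symm, hbR⟩
    have haS : a ∉ insert b R := by
      simp only [mem_insert, not_or]
      exact ⟨hne, haR⟩
    have m3 : insert b (insert a R) ∉ TA k x ∧ Reg k x p (insert b (insert a R)) ∧
        p (insert a R) (insert b (insert a R)) = vT k x (insert b (insert a R)) := by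
      by_contra hh
      exact k3 (by rw [badd, mem_filter]; exact ⟨mem_univ _, hbS, hh⟩)
    have m4 : insert a (insert b R) ∉ TA k x ∧ Reg k x p (insert a (insert b R)) ∧
        p (insert b R) (insert a (insert b R)) = vT k x (insert a (insert b R)) := by
      by_contra hh
      exact k4 (by rw [badd, mem_filter]; exact ⟨mem_univ _, haS, hh⟩)
    rw [Finset.insert_comm a b R] at m4
    have hT : (insert b (insert a R)).card = k + 1 := by
      rw [card_insert_of_notMem hbS, hca a ha]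
    have e1 := hc.hp (insert a R) _ (hca a ha) hT (subset_insert _ _)
    have e2 := hc.hp (insert b R) (insert b (insert a R)) (hca b hb) hT
      (insert_subset_insert _ (subset_insert _ _))
    rw [m3.2.2] at e1
    rw [m4.2.2] at e2
    have hxx : x (insert a R) ≠ x (insert b R) := by
      intro h
      have := hc.inj _ _ (hca a ha) (hca b hb) h
      have h2 : a ∈ insert b R := by
        rw [← this]
        exact mem_insert_self _ _
      exact haS h2
    have := two_of_common hxx e1 e2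
    rw [hxa a ha, hxa b hb] at this
    exact hd this
  have hBc : 2 ^ 20 * B.card ≤ 6 * n * (Rᶜ).card := by
    have h5 := card_le_card hsub
    have h6 : (E1 ∪ (E2 ∪ (E3 ∪ E4))).card ≤ E1.card + (E2.card + (E3.card + E4.card)) :=
      (card_union_le _ _).trans (Nat.add_le_add_left ((card_union_le _ _).trans
        (Nat.add_le_add_left (card_union_le _ _) _)) _)
    have h7 : 6 * n * (Rᶜ).card = n * (Rᶜ).card + (n * (Rᶜ).card + (2 * n * (Rᶜ).card +
      2 * n * (Rᶜ).card)) := by ring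
    rw [h7]
    omega
  have hkn : 1000 * k ≤ n := by
    have : 1000 * k ≤ 2 ^ 20 * (k + 2) := by nlinarith
    omega
  have h20 : 20 * B.card ≤ (Rᶜ).card ^ 2 := by
    have h8 : 120 * n ≤ 2 ^ 20 * (Rᶜ).card := by rw [hI]; omega
    have h9 : 2 ^ 20 * (20 * B.card) ≤ 2 ^ 20 * (Rᶜ).card ^ 2 := by
      calc 2 ^ 20 * (20 * B.card) = 20 * (2 ^ 20 * B.card) := by ring
        _ ≤ 20 * (6 * n * (Rᶜ).card) := Nat.mul_le_mul_left _ hBc
        _ = 120 * n * (Rᶜ).card := by ring
        _ ≤ 2 ^ 20 * (Rᶜ).card * (Rᶜ).card := Nat.mul_le_mul_right _ h8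
        _ = 2 ^ 20 * (Rᶜ).card ^ 2 := by ring
    exact Nat.le_of_mul_le_mul_left h9 (by norm_num)
  have hnc := nc ht h1 w (Rᶜ) (by omega) (by rw [hI]; omega) h20
  have hIpos : 0 < (Rᶜ).card := by rw [hI]; omega
  have hnI : n - (Rᶜ).card = k - 1 := by rw [hI]; omega
  rw [hnI] at hnc
  refine le_of_mul_le_mul_left (a := (Rᶜ).card) ?_ hIpos
  have hn2 : (Rᶜ).card * (2 ^ 20 * (k + 2)) ≤ (Rᶜ).card * n := Nat.mul_le_mul_left _ hn
  calc (Rᶜ).card * (2 ^ 20 * dfc σ w) = 2 ^ 20 * ((Rᶜ).card * dfc σ w) := by ring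
    _ ≤ 2 ^ 20 * (5 * B.card + 3 * (Rᶜ).card + (Rᶜ).card * (k - 1)) := Nat.mul_le_mul_left _ hnc
    _ = 5 * (2 ^ 20 * B.card) + (Rᶜ).card * (2 ^ 20 * (k - 1 + 3)) := by ring
    _ ≤ 5 * (6 * n * (Rᶜ).card) + (Rᶜ).card * (2 ^ 20 * (k + 2)) := by
      refine Nat.add_le_add (Nat.mul_le_mul_left _ hBc) (Nat.mul_le_mul_left _ ?_)
      refine Nat.mul_le_mul_left _ ?_
      omega
    _ ≤ 5 * (6 * n * (Rᶜ).card) + (Rᶜ).card * n := Nat.add_le_add_left hn2 _
    _ = (Rᶜ).card * (31 * n) := by ring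

end Pool.Agent.SHC
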