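import Pool.Agent.SHC.TpA
import Pool.Agent.SHC.TpB
import Pool.Agent.SHC.TpC
import Pool.Agent.SH.Dn

set_option autoImplicit false

namespace Pool.Agent.SHC

open Finset Pool.Agent.SH

/-- Level `k - 1` from the three events. -/
theorem lvtop : ∃ k0 : ℕ, ∀ k ≥ k0, ∀ n, Sz k n → ∀ (C : Type) (χ : V n → C)
    (σ : Equiv.Perm (V n)) (β : V n → V n → V n), Twin χ σ β → ¬ E1f χ →
    (∀ (x : V n → V n) (p : V n → V n → V n), IsCfg k χ x p →
      2 ^ (30 * k) * (NR k x p).card < n.choose (k + 1)) →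
    (∀ (x : V n → V n) (p : V n → V n → V n), IsCfg k χ x p →
      2 ^ (30 * k) * (BAD k x p).card < n.choose k) →
    (∀ (x : V n → V n) (p : V n → V n → V n), IsCfg k χ x p →
      n.choose k ≤ 2 ^ (28 * k) * (Ak k x).card →
      4 * ∑ T ∈ TA k x, aT k x T < n * (Ak k x).card) →
    Lv σ (k - 1) (31 / 2 ^ 20) ((1 / 2 : ℝ) ^ (25 * k)) := by
  classical
  obtain ⟨kA, HA⟩ := tp_A
  obtain ⟨kB, HB⟩ := tp_B
  refine ⟨kA + kB + 20, ?_⟩
  intro k hk n hSz C χ σ β ht h1 H1 H2 H3 w0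
  have hc := isCfg_of_twin ht k w0
  set x : V n → V n := fun S => σ (symmDiff w0 S) with hx
  set p : V n → V n → V n := fun S T => β (symmDiff w0 S) (symmDiff w0 T) with hp
  have hNR := H1 x p hc
  have hBAD := H2 x p hc
  have hA : 2 ^ (28 * k) * (Ak k x).card < n.choose k := by
    by_contra hcon
    have a1 := HA k (by omega) n hSz C χ x p hc hNR hBAD (not_lt.1 hcon)
    have a2 := H3 x p hc (not_lt.1 hcon)
    omega
  have hX := HB k (by omega) n hSz C χ x p hc hNR hBAD hA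
  obtain ⟨j, rfl⟩ : ∃ j, k = j + 1 := ⟨k - 1, by omega⟩
  have hn : 2 ^ 20 * (j + 1 + 2) ≤ n := by
    have h3 : j + 1 + 2 ≤ 2 ^ (j + 2) := by
      have : j + 2 < 2 ^ (j + 2) := Nat.lt_two_pow_self
      omega
    calc 2 ^ 20 * (j + 1 + 2) ≤ 2 ^ 20 * 2 ^ (j + 2) := Nat.mul_le_mul_left _ h3
      _ = 2 ^ (20 + (j + 2)) := by rw [← pow_add]
      _ ≤ 2 ^ (320 * (j + 1)) := Nat.pow_le_pow_right (by norm_num) (by omega)
      _ ≤ n := hSz.1
  set e : V n → ℕ := fun R => ((Rᶜ).filter fun a => insert a R ∈ Exc (j + 1) x p).card with he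
  set ExR := (powersetCard j (univ : V n)).filter fun R => n < 2 ^ 20 * e R with hExR
  have hsub : ((powersetCard (j + 1 - 1) (univ : V n)).filter fun S =>
      (31 / 2 ^ 20 : ℝ) * n < dfc σ (symmDiff w0 S)) ⊆ ExR := by
    intro R hR
    rw [mem_filter, Nat.add_sub_cancel] at hR
    rw [hExR, mem_filter]
    refine ⟨hR.1, ?_⟩
    by_contra hcon
    have h4 := tp_C (by omega) hn ht h1 w0 R (by
      rw [Nat.add_sub_cancel]
      exact (mem_powersetCard.1 hR.1).2) (not_lt.1 hcon)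
    have h5 : (2 : ℝ) ^ 20 * dfc σ (symmDiff w0 R) ≤ 31 * n := by exact_mod_cast h4
    have h6 := hR.2
    norm_num at h5 h6
    linarith
  have hsum : ∑ R ∈ powersetCard j (univ : V n), e R ≤ (j + 1) * (Exc (j + 1) x p).card := by
    refine (dn_double j (fun S => S ∈ Exc (j + 1) x p)).trans ?_
    refine Nat.mul_le_mul_left _ (card_le_card ?_)
    intro S hS
    exact (mem_filter.1 hS).2
  have h7 : n * ExR.card ≤ 2 ^ 20 * ((j + 1) * (Exc (j + 1) x p).card) := by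
    calc n * ExR.card = ∑ _R ∈ ExR, n := by rw [sum_const, smul_eq_mul, mul_comm]
      _ ≤ ∑ R ∈ ExR, 2 ^ 20 * e R := sum_le_sum fun R hR => (mem_filter.1 hR).2.le
      _ ≤ ∑ R ∈ powersetCard j (univ : V n), 2 ^ 20 * e R :=
        sum_le_sum_of_subset (filter_subset _ _)
      _ = 2 ^ 20 * ∑ R ∈ powersetCard j (univ : V n), e R := by rw [mul_sum]
      _ ≤ _ := Nat.mul_le_mul_left _ hsum
  have h8 : n.choose (j + 1) * (j + 1) ≤ n.choose j * n := by
    rw [Nat.choose_succ_right_eq]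
    exact Nat.mul_le_mul_left _ (Nat.sub_le _ _)
  have hn0 : 0 < n := by omega
  have h9 : 2 ^ (26 * (j + 1)) * ExR.card ≤ 2 ^ 20 * n.choose j := by
    refine le_of_mul_le_mul_left (a := n) ?_ hn0
    calc n * (2 ^ (26 * (j + 1)) * ExR.card) = 2 ^ (26 * (j + 1)) * (n * ExR.card) := by ring
      _ ≤ 2 ^ (26 * (j + 1)) * (2 ^ 20 * ((j + 1) * (Exc (j + 1) x p).card)) :=
        Nat.mul_le_mul_left _ h7
      _ = 2 ^ 20 * ((j + 1) * (2 ^ (26 * (j + 1)) * (Exc (j + 1) x p).card)) := by ring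
      _ ≤ 2 ^ 20 * ((j + 1) * n.choose (j + 1)) :=
        Nat.mul_le_mul_left _ (Nat.mul_le_mul_left _ hX)
      _ = 2 ^ 20 * (n.choose (j + 1) * (j + 1)) := by ring
      _ ≤ 2 ^ 20 * (n.choose j * n) := Nat.mul_le_mul_left _ h8
      _ = n * (2 ^ 20 * n.choose j) := by ring
  have h10 : 2 ^ (25 * (j + 1)) * ExR.card ≤ n.choose j := by
    refine le_of_mul_le_mul_left (a := 2 ^ 20) ?_ (by norm_num)
    calc 2 ^ 20 * (2 ^ (25 * (j + 1)) * ExR.card) = 2 ^ (20 + 25 * (j + 1)) * ExR.card := by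
          rw [pow_add 2 20 (25 * (j + 1)), mul_assoc]
      _ ≤ 2 ^ (26 * (j + 1)) * ExR.card :=
        Nat.mul_le_mul_right _ (Nat.pow_le_pow_right (by norm_num) (by omega))
      _ ≤ _ := h9
  have h11 : (2 : ℝ) ^ (25 * (j + 1)) * ExR.card ≤ n.choose j := by exact_mod_cast h10
  have h12 : (((powersetCard (j + 1 - 1) (univ : V n)).filter fun S =>
      (31 / 2 ^ 20 : ℝ) * n < dfc σ (symmDiff w0 S)).card : ℝ) ≤ ExR.card := by
    exact_mod_cast card_le_card hsub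
  refine h12.trans ?_
  rw [Nat.add_sub_cancel, one_div, inv_pow, ← div_eq_inv_mul, le_div_iff₀ (by positivity)]
  linarith

end Pool.Agent.SHC
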