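import Pool.Agent.SHC.De
import Pool.Agent.SH.Nc

set_option autoImplicit false

namespace Pool.Agent.SHC

open Finset Pool.Agent.SH

open Classical in
/-- The directions `a` at `S` for which `S ∪ {a}` is not regular with main position the one of
`S`. -/
noncomputable def badd {n : ℕ} (k : ℕ) (x : V n → V n) (p : V n → V n → V n) (S : V n) :
    Finset (Fin n) :=
  univ.filter fun a => a ∉ S ∧ ¬ (insert a S ∉ TA k x ∧ Reg k x p (insert a S) ∧
    p S (insert a S) = vT k x (insert a S))

open Classical in
/-- The directions `a` at `S` for which `S ∪ {a}` is regular with main position the one of `S`. -/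
noncomputable def onn {n : ℕ} (k : ℕ) (x : V n → V n) (p : V n → V n → V n) (S : V n) :
    Finset (Fin n) :=
  univ.filter fun a => a ∉ S ∧ insert a S ∉ TA k x ∧ Reg k x p (insert a S) ∧
    p S (insert a S) = vT k x (insert a S)

/-- The exceptional `k`-sets. -/
noncomputable def Exc {n : ℕ} (k : ℕ) (x : V n → V n) (p : V n → V n → V n) : Finset (V n) :=
  (Lk n k).filter fun S => n < 2 ^ 19 * (badd k x p S).card

open Classical in
theorem tp_dbl {n : ℕ} (j : ℕ) (P : V n → V n → Prop) :
    ∑ S ∈ Lk n j, (univ.filter fun a => a ∉ S ∧ P S (insert a S)).card =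
      ∑ T ∈ Lk n (j + 1), (T.filter fun t => P (T.erase t) T).card := by
  have h1 : ∑ S ∈ Lk n j, (univ.filter fun a => a ∉ S ∧ P S (insert a S)).card =
      ((Lk n j).sigma fun S => univ.filter fun a => a ∉ S ∧ P S (insert a S)).card := by
    rw [Finset.card_sigma]
  have h2 : ∑ T ∈ Lk n (j + 1), (T.filter fun t => P (T.erase t) T).card =
      ((Lk n (j + 1)).sigma fun T => T.filter fun t => P (T.erase t) T).card := by
    rw [Finset.card_sigma]
  rw [h1, h2]
  refine Finset.card_bij (fun x _ => ⟨insert x.2 x.1, x.2⟩) ?_ ?_ ?_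
  · rintro ⟨S, a⟩ hx
    simp only [mem_sigma, mem_powersetCard, mem_filter, subset_univ, true_and, mem_univ] at hx ⊢
    obtain ⟨hS, ha, hP⟩ := hx
    refine ⟨by rw [card_insert_of_notMem ha, hS], mem_insert_self a S, ?_⟩
    rw [erase_insert ha]
    exact hP
  · rintro ⟨S, a⟩ hx ⟨S', a'⟩ hx' h
    simp only [mem_sigma, mem_powersetCard, mem_filter, subset_univ, true_and, mem_univ] at hx hx'
    simp only [Sigma.mk.injEq, heq_eq_eq] at h
    obtain ⟨h, rfl⟩ := h
    have : S = S' := by
      rw [← erase_insert hx.2.1, h, erase_insert hx'.2.1]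
    subst this
    rfl
  · rintro ⟨T, t⟩ hx
    simp only [mem_sigma, mem_powersetCard, mem_filter, subset_univ, true_and, mem_univ] at hx
    obtain ⟨hT, ht, hP⟩ := hx
    refine ⟨⟨T.erase t, t⟩, ?_, ?_⟩
    · simp only [mem_sigma, mem_powersetCard, mem_filter, subset_univ, true_and, mem_univ]
      refine ⟨by rw [card_erase_of_mem ht, hT]; rfl, notMem_erase t T, ?_⟩
      rw [insert_erase ht]
      exact hP
    · simp only [Sigma.mk.injEq, heq_eq_eq, and_true]
      exact insert_erase ht

end Pool.Agent.SHC
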