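import Pool.Agent.SHC.TpOn

set_option autoImplicit false

namespace Pool.Agent.SHC

open Finset Pool.Agent.SH

open Classical in
theorem tpA_dbl {n k : ℕ} (A TT : Finset (V n)) (hA : A ⊆ Lk n k) (hT : TT ⊆ Lk n (k + 1)) :
    ∑ S ∈ A, (univ.filter fun a => a ∉ S ∧ insert a S ∈ TT).card ≤
      ∑ T ∈ TT, (T.filter fun t => T.erase t ∈ A).card := by
  obtain ⟨P, hP⟩ : ∃ P : V n → V n → Prop, ∀ S T, P S T ↔ (S ∈ A ∧ T ∈ TT) :=
    ⟨fun S T => S ∈ A ∧ T ∈ TT, fun _ _ => Iff.rfl⟩
  have h := tp_dbl (n := n) k P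
  calc ∑ S ∈ A, (univ.filter fun a => a ∉ S ∧ insert a S ∈ TT).card
      ≤ ∑ S ∈ A, (univ.filter fun a => a ∉ S ∧ P S (insert a S)).card := by
        refine Finset.sum_le_sum fun S hS => Finset.card_le_card fun a ha => ?_
        simp only [mem_filter, mem_univ, true_and, hP] at ha ⊢
        exact ⟨ha.1, hS, ha.2⟩
    _ ≤ ∑ S ∈ Lk n k, (univ.filter fun a => a ∉ S ∧ P S (insert a S)).card :=
        Finset.sum_le_sum_of_subset hA
    _ = ∑ T ∈ Lk n (k + 1), (T.filter fun t => P (T.erase t) T).card := h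
    _ = ∑ T ∈ TT, (T.filter fun t => P (T.erase t) T).card := by
        refine (Finset.sum_subset hT fun T _ hT2 => ?_).symm
        rw [Finset.card_eq_zero, Finset.filter_eq_empty_iff]
        intro t _ ht
        exact hT2 ((hP _ _).1 ht).2
    _ ≤ ∑ T ∈ TT, (T.filter fun t => T.erase t ∈ A).card := by
        refine Finset.sum_le_sum fun T _ => Finset.card_le_card fun t ht => ?_
        simp only [mem_filter, hP] at ht ⊢
        exact ⟨ht.1, ht.2.1⟩

open Classical in
theorem tpA_cov {n k : ℕ} (x : V n → V n) (p : V n → V n → V n) (S : V n) (hS : S ∈ Lk n k) :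
    n - k ≤ (univ.filter fun a => a ∉ S ∧ insert a S ∈ TA k x).card +
      (univ.filter fun a => a ∉ S ∧ insert a S ∈ NR k x p).card +
      (offs k x p S).card + (onn k x p S).card := by
  have hc : (univ.filter fun a : Fin n => a ∉ S).card = n - k := by
    have h1 : (univ.filter fun a : Fin n => a ∉ S) = Sᶜ := by
      ext a
      simp
    rw [h1, Finset.card_compl, Fintype.card_fin, (mem_powersetCard.1 hS).2]
  rw [← hc]
  have hsub : (univ.filter fun a : Fin n => a ∉ S) ⊆
      (((univ.filter fun a => a ∉ S ∧ insert a S ∈ TA k x) ∪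
      (univ.filter fun a => a ∉ S ∧ insert a S ∈ NR k x p)) ∪
      (offs k x p S)) ∪ (onn k x p S) := by
    intro a ha
    have ha' : a ∉ S := by simpa using ha
    have hT : insert a S ∈ Lk n (k + 1) := by
      rw [mem_powersetCard]
      exact ⟨subset_univ _, by rw [card_insert_of_notMem ha', (mem_powersetCard.1 hS).2]⟩
    simp only [mem_union, mem_filter, mem_univ, true_and, offs, onn]
    by_cases h1 : insert a S ∈ TA k x
    · exact Or.inl (Or.inl (Or.inl ⟨ha', h1⟩))
    by_cases h2 : Reg k x p (insert a S)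
    · by_cases h3 : p S (insert a S) = vT k x (insert a S)
      · exact Or.inr ⟨ha', h1, h2, h3⟩
      · exact Or.inl (Or.inr ⟨ha', h1, h2, h3⟩)
    · refine Or.inl (Or.inl (Or.inr ⟨ha', ?_⟩))
      rw [NR, mem_filter]
      exact ⟨hT, h1, h2⟩
  refine (Finset.card_le_card hsub).trans ?_
  refine (Finset.card_union_le _ _).trans (Nat.add_le_add_right ?_ _)
  refine (Finset.card_union_le _ _).trans (Nat.add_le_add_right ?_ _)
  exact Finset.card_union_le _ _

/-- Claim A.  `(n - k) #Ak` pairs `(S, a)`; with `T = S ∪ {a}`: the ones with `T ∈ TA` are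
`∑ aT` (`tp_dbl` with `P S T = (S ∈ Ak ∧ T ∈ TA)`), the ones with `T ∈ NR` at most
`(k + 1) #NR ≤ (n - k) M 2 ^ (-30 k)`, the ones in `offs` at most `n #BAD + n #Ak / 2 ^ 20`, the
ones in `onn` at most `10 n #Ak / (3 (k + 1))` (`tp_on`). -/
theorem tp_A : ∃ k0 : ℕ, ∀ k ≥ k0, ∀ n, Sz k n → ∀ (C : Type) (χ : V n → C)
    (x : V n → V n) (p : V n → V n → V n), IsCfg k χ x p →
    2 ^ (30 * k) * (NR k x p).card < n.choose (k + 1) →
    2 ^ (30 * k) * (BAD k x p).card < n.choose k →
    n.choose k ≤ 2 ^ (28 * k) * (Ak k x).card →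
    n * (Ak k x).card ≤ 4 * ∑ T ∈ TA k x, aT k x T := by
  classical
  refine ⟨100, ?_⟩
  intro k hk n hSz C χ x p hc hNR hBAD hA
  have hAL : Ak k x ⊆ Lk n k := Finset.sdiff_subset
  have hkn : 1024 * k ≤ n := by
    refine le_trans ?_ hSz.1
    calc 1024 * k ≤ 2 ^ 10 * 2 ^ k := Nat.mul_le_mul (by norm_num) Nat.lt_two_pow_self.le
      _ = 2 ^ (10 + k) := (pow_add _ _ _).symm
      _ ≤ 2 ^ (320 * k) := Nat.pow_le_pow_right (by norm_num) (by omega)
  have h30 : (2 : ℕ) ^ 30 * 2 ^ (28 * k) ≤ 2 ^ (30 * k) := by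
    rw [← pow_add]
    exact Nat.pow_le_pow_right (by norm_num) (by omega)
  have hpos : 0 < (2 : ℕ) ^ (28 * k) := by positivity
  -- the four sums
  have hsum : (n - k) * (Ak k x).card ≤
      ∑ S ∈ Ak k x, (univ.filter fun a => a ∉ S ∧ insert a S ∈ TA k x).card +
      ∑ S ∈ Ak k x, (univ.filter fun a => a ∉ S ∧ insert a S ∈ NR k x p).card +
      ∑ S ∈ Ak k x, (offs k x p S).card + ∑ S ∈ Ak k x, (onn k x p S).card := by
    rw [← Finset.sum_add_distrib, ← Finset.sum_add_distrib, ← Finset.sum_add_distrib, mul_comm,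
      ← smul_eq_mul, ← Finset.sum_const]
    refine Finset.sum_le_sum fun S hS => ?_
    convert tpA_cov x p S (hAL hS)
  have s1 : ∑ S ∈ Ak k x, (univ.filter fun a => a ∉ S ∧ insert a S ∈ TA k x).card ≤
      ∑ T ∈ TA k x, aT k x T := by
    have h := tpA_dbl (Ak k x) (TA k x) hAL (Finset.filter_subset _ _)
    refine le_trans (le_of_eq ?_) (h.trans (le_of_eq ?_))
    · refine Finset.sum_congr rfl fun S _ => ?_
      congr
    · refine Finset.sum_congr rfl fun T _ => ?_
      rw [aT]
  have s2 : 2 ^ 30 * ∑ S ∈ Ak k x, (univ.filter fun a => a ∉ S ∧ insert a S ∈ NR k x p).card ≤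
      n * (Ak k x).card := by
    have hNL : NR k x p ⊆ Lk n (k + 1) := Finset.filter_subset _ _
    have h := tpA_dbl (Ak k x) (NR k x p) hAL hNL
    have h2 : ∑ S ∈ Ak k x, (univ.filter fun a => a ∉ S ∧ insert a S ∈ NR k x p).card ≤
        (k + 1) * (NR k x p).card := by
      refine le_trans (le_of_eq ?_) (h.trans ?_)
      · refine Finset.sum_congr rfl fun S _ => ?_
        congr
      · rw [mul_comm, ← smul_eq_mul, ← Finset.sum_const]
        refine Finset.sum_le_sum fun T hT => ?_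
        refine (Finset.card_filter_le _ _).trans ?_
        rw [(mem_powersetCard.1 (hNL hT)).2]
    have h3 : 2 ^ (30 * k) * ((k + 1) * (NR k x p).card) ≤
        2 ^ (28 * k) * (n * (Ak k x).card) := by
      calc 2 ^ (30 * k) * ((k + 1) * (NR k x p).card)
          = (2 ^ (30 * k) * (NR k x p).card) * (k + 1) := by ring
        _ ≤ n.choose (k + 1) * (k + 1) := Nat.mul_le_mul_right _ hNR.le
        _ = n.choose k * (n - k) := Nat.choose_succ_right_eq n k
        _ ≤ (2 ^ (28 * k) * (Ak k x).card) * n := Nat.mul_le_mul hA (Nat.sub_le _ _)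
        _ = 2 ^ (28 * k) * (n * (Ak k x).card) := by ring
    have h4 : 2 ^ (28 * k) * (2 ^ 30 * ∑ S ∈ Ak k x,
        (univ.filter fun a => a ∉ S ∧ insert a S ∈ NR k x p).card) ≤
        2 ^ (28 * k) * (n * (Ak k x).card) := by
      calc 2 ^ (28 * k) * (2 ^ 30 * ∑ S ∈ Ak k x,
            (univ.filter fun a => a ∉ S ∧ insert a S ∈ NR k x p).card)
          ≤ 2 ^ (28 * k) * (2 ^ 30 * ((k + 1) * (NR k x p).card)) :=
            Nat.mul_le_mul_left _ (Nat.mul_le_mul_left _ h2)
        _ = (2 ^ 30 * 2 ^ (28 * k)) * ((k + 1) * (NR k x p).card) := by ring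
        _ ≤ 2 ^ (30 * k) * ((k + 1) * (NR k x p).card) := Nat.mul_le_mul_right _ h30
        _ ≤ _ := h3
    exact Nat.le_of_mul_le_mul_left h4 hpos
  have s3 : 2 ^ 20 * ∑ S ∈ Ak k x, (offs k x p S).card ≤
      n * (Ak k x).card + 2 ^ 20 * (n * (BAD k x p).card) := by
    have h1 : ∀ S ∈ Ak k x, 2 ^ 20 * (offs k x p S).card ≤
        n + if S ∈ BAD k x p then 2 ^ 20 * n else 0 := by
      intro S hS
      by_cases hb : S ∈ BAD k x p
      · rw [if_pos hb]
        have : (offs k x p S).card ≤ n := by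
          have := Finset.card_le_univ (offs k x p S)
          rwa [Fintype.card_fin] at this
        have := Nat.mul_le_mul_left (2 ^ 20) this
        omega
      · rw [if_neg hb]
        have : ¬ n ≤ 2 ^ 20 * (offs k x p S).card := by
          intro h
          apply hb
          rw [BAD, mem_filter]
          exact ⟨hAL hS, h⟩
        omega
    calc 2 ^ 20 * ∑ S ∈ Ak k x, (offs k x p S).card
        = ∑ S ∈ Ak k x, 2 ^ 20 * (offs k x p S).card := Finset.mul_sum _ _ _
      _ ≤ ∑ S ∈ Ak k x, (n + if S ∈ BAD k x p then 2 ^ 20 * n else 0) :=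
          Finset.sum_le_sum h1
      _ = (Ak k x).card * n + ((Ak k x).filter fun S => S ∈ BAD k x p).card * (2 ^ 20 * n) := by
          rw [Finset.sum_add_distrib, Finset.sum_const, smul_eq_mul, ← Finset.sum_filter,
            Finset.sum_const, smul_eq_mul]
      _ ≤ (Ak k x).card * n + (BAD k x p).card * (2 ^ 20 * n) := by
          refine Nat.add_le_add_left (Nat.mul_le_mul_right _ (Finset.card_le_card ?_)) _
          intro S hS
          exact (mem_filter.1 hS).2
      _ = _ := by ring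
  have s3' : 2 ^ 30 * (BAD k x p).card ≤ (Ak k x).card := by
    have h4 : 2 ^ (28 * k) * (2 ^ 30 * (BAD k x p).card) ≤ 2 ^ (28 * k) * (Ak k x).card := by
      calc 2 ^ (28 * k) * (2 ^ 30 * (BAD k x p).card)
          = (2 ^ 30 * 2 ^ (28 * k)) * (BAD k x p).card := by ring
        _ ≤ 2 ^ (30 * k) * (BAD k x p).card := Nat.mul_le_mul_right _ h30
        _ ≤ n.choose k := hBAD.le
        _ ≤ _ := hA
    exact Nat.le_of_mul_le_mul_left h4 hpos
  have s4 : 30 * ∑ S ∈ Ak k x, (onn k x p S).card ≤ n * (Ak k x).card := by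
    have h1 : ∀ S ∈ Ak k x, 30 * (onn k x p S).card ≤ n := by
      intro S hS
      have h := tp_on hc S hS
      have h2 : 10 * (30 * (onn k x p S).card) ≤ 10 * n := by
        calc 10 * (30 * (onn k x p S).card) = 300 * (onn k x p S).card := by ring
          _ ≤ 3 * (k + 1) * (onn k x p S).card := Nat.mul_le_mul_right _ (by omega)
          _ ≤ 10 * n := h
      omega
    calc 30 * ∑ S ∈ Ak k x, (onn k x p S).card
        = ∑ S ∈ Ak k x, 30 * (onn k x p S).card := Finset.mul_sum _ _ _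
      _ ≤ ∑ S ∈ Ak k x, n := Finset.sum_le_sum h1
      _ = n * (Ak k x).card := by rw [Finset.sum_const, smul_eq_mul, mul_comm]
  -- conclusion
  have hnk : n * (Ak k x).card ≤ (n - k) * (Ak k x).card + k * (Ak k x).card := by
    rw [← Nat.add_mul]
    exact Nat.mul_le_mul_right _ (by omega)
  have hkA : 1024 * (k * (Ak k x).card) ≤ n * (Ak k x).card := by
    calc 1024 * (k * (Ak k x).card) = (1024 * k) * (Ak k x).card := by ring
      _ ≤ n * (Ak k x).card := Nat.mul_le_mul_right _ hkn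
  have hBn : 2 ^ 30 * (n * (BAD k x p).card) ≤ n * (Ak k x).card := by
    calc 2 ^ 30 * (n * (BAD k x p).card) = n * (2 ^ 30 * (BAD k x p).card) := by ring
      _ ≤ n * (Ak k x).card := Nat.mul_le_mul_left _ s3'
  generalize ∑ S ∈ Ak k x, (univ.filter fun a => a ∉ S ∧ insert a S ∈ TA k x).card = q1 at *
  generalize ∑ S ∈ Ak k x, (univ.filter fun a => a ∉ S ∧ insert a S ∈ NR k x p).card = q2 at *
  generalize ∑ S ∈ Ak k x, (offs k x p S).card = q3 at *
  generalize ∑ S ∈ Ak k x, (onn k x p S).card = q4 at *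
  generalize ∑ T ∈ TA k x, aT k x T = q5 at *
  generalize n * (BAD k x p).card = q6 at *
  generalize k * (Ak k x).card = q7 at *
  generalize (n - k) * (Ak k x).card = q8 at *
  generalize n * (Ak k x).card = q9 at *
  clear hNR hBAD hA h30 hpos s3'
  omega

end Pool.Agent.SHC
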