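import Pool.Agent.SHC.Tp0

set_option autoImplicit false

namespace Pool.Agent.SHC

open Finset Pool.Agent.SH

/-- Few `T` are on at a point which is not crowded: `vT` is adjacent to `x S` and to `3 (k + 1) / 5`
crowded `x S'`, all these `S'` are among the at most `n` points with image within distance two of
`x S`, and `a` is determined by `S'`, because `S' ⊆ insert a S`, `S' ≠ S`. -/
theorem tp_on {n k : ℕ} {C : Type} {χ : V n → C} {x : V n → V n} {p : V n → V n → V n}
    (hc : IsCfg k χ x p) (S : V n) (hS : S ∈ Ak k x) :
    3 * (k + 1) * (onn k x p S).card ≤ 10 * n := by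
  classical
  obtain ⟨hSL, hSB⟩ := Finset.mem_sdiff.1 hS
  have hSk : S.card = k := (mem_powersetCard.1 hSL).2
  -- the points near `S`
  set N : Finset (V n) :=
    (Lk n k).filter fun S' => (symmDiff (x S) (x S')).card ≤ 2 with hN
  have hNn : N.card ≤ n := by
    by_contra h
    refine hSB ?_
    rw [Bk, crowd, mem_filter]
    exact ⟨hSL, (not_le.1 h).le⟩
  -- the pairs
  set P : Finset ((_ : Fin n) × Fin n) := (onn k x p S).sigma fun a =>
    (insert a S).filter fun t => (insert a S).erase t ∈ Bk k x ∧
      p ((insert a S).erase t) (insert a S) = vT k x (insert a S) with hP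
  have hlow : 3 * (k + 1) * (onn k x p S).card ≤ 5 * P.card := by
    rw [hP, card_sigma, mul_sum, mul_comm, ← smul_eq_mul, ← sum_const]
    refine sum_le_sum fun a ha => ?_
    simp only [onn, mem_filter, mem_univ, true_and] at ha
    have h := ha.2.2.1
    rw [Reg] at h
    convert h using 3
  have hup : P.card ≤ N.card := by
    refine card_le_card_of_injOn (fun q => (insert q.1 S).erase q.2) ?_ ?_
    · rintro ⟨a, t⟩ hq
      simp only [hP, coe_sigma, Set.mem_sigma_iff, mem_coe, onn, mem_filter, mem_univ,
        true_and] at hq
      obtain ⟨⟨haS, -, -, hpS⟩, htT, hB, hp'⟩ := hq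
      set T := insert a S with hT
      have hTk : T.card = k + 1 := by rw [hT, card_insert_of_notMem haS, hSk]
      have hSL' : T.erase t ∈ Lk n k := (mem_filter.1 hB).1
      have hS'k : (T.erase t).card = k := (mem_powersetCard.1 hSL').2
      have h1 : adj (x S) (vT k x T) := hpS ▸ hc.hp S T hSk hTk (subset_insert a S)
      have h2 : adj (x (T.erase t)) (vT k x T) :=
        hp' ▸ hc.hp (T.erase t) T hS'k hTk (erase_subset t T)
      simp only [mem_coe, hN, mem_filter]
      refine ⟨hSL', ?_⟩
      rw [adj] at h1 h2
      have h3 : symmDiff (x S) (x (T.erase t)) =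
          symmDiff (symmDiff (x S) (vT k x T)) (symmDiff (x (T.erase t)) (vT k x T)) := by
        rw [symmDiff_symmDiff_symmDiff_comm, symmDiff_self, symmDiff_bot]
      rw [h3]
      have h4 : symmDiff (symmDiff (x S) (vT k x T)) (symmDiff (x (T.erase t)) (vT k x T)) ⊆
          symmDiff (x S) (vT k x T) ∪ symmDiff (x (T.erase t)) (vT k x T) :=
        symmDiff_subset_union
      refine (card_le_card h4).trans ((card_union_le _ _).trans ?_)
      omega
    · rintro ⟨a, t⟩ hq ⟨a', t'⟩ hq' he
      simp only [hP, coe_sigma, Set.mem_sigma_iff, mem_coe, onn, mem_filter, mem_univ,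
        true_and] at hq hq'
      obtain ⟨⟨haS, -, -, -⟩, htT, hB, -⟩ := hq
      obtain ⟨⟨haS', -, -, -⟩, htT', hB', -⟩ := hq'
      simp only at he
      have hta : a ≠ t := by
        rintro rfl
        rw [erase_insert haS] at hB
        exact hSB hB
      have h1 : a ∈ (insert a' S).erase t' := by
        rw [← he, mem_erase]; exact ⟨hta, mem_insert_self a S⟩
      have h2 : a = a' := by
        rcases mem_insert.1 (mem_of_mem_erase h1) with h | h
        · exact h
        · exact absurd h haS
      subst h2
      have h3 : t = t' := by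
        by_contra hne
        have : t ∈ (insert a S).erase t' := mem_erase.2 ⟨hne, htT⟩
        rw [← he] at this
        exact notMem_erase _ _ this
      subst h3
      rfl
  omega

end Pool.Agent.SHC
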