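import Pool.Agent.SHC.U3x

set_option autoImplicit false

namespace Pool.Agent.SHC

open Finset Pool.Agent.SH

theorem u3y_two_pow (k : ℕ) (hk : 25 ≤ k) : 4 * (k + 1) ≤ 2 ^ k := by
  induction k, hk using Nat.le_induction with
  | base => norm_num
  | succ k hk ih =>
    rw [pow_succ]
    omega

theorem u3y : ∃ k0 : ℕ, ∀ k ≥ k0, ∀ n, Sz k n → ∀ (C : Type) (χ : V n → C) (x : V n → V n)
    (p : V n → V n → V n), IsCfg k χ x p →
    n.choose (k + 1) ≤ 2 ^ (30 * k) * (NR k x p).card → ∀ r : ℕ, k + 1 ≤ 4 * r →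
      4 * r ≤ k + 4 → Ev3 (XX n k) k r (n.choose (k + 1) / 2 ^ (63 * k)) χ := by
  classical
  obtain ⟨k1, hk1⟩ := light
  refine ⟨max k1 25, ?_⟩
  intro k hk n hn C χ x p hc hNR r hr1 hr2
  have hk25 : 25 ≤ k := le_trans (le_max_right _ _) hk
  have hlight := hk1 k (le_trans (le_max_left _ _) hk) n x hc.inj
  have h2k := u3y_two_pow k hk25
  have hn2k : 2 * k ≤ n := by
    have h1 : 2 ^ k ≤ 2 ^ (320 * k) := Nat.pow_le_pow_right (by norm_num) (by omega)
    have h2 := hn.1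
    omega
  have hn0 : 0 < n := by omega
  obtain ⟨x', hx'X, hx'⟩ := XX_spec (k := k) hn0 x
  set TT := n.choose (k + 1) with hTT
  set M := n.choose k with hM
  have hTM : TT * (k + 1) = M * (n - k) := Nat.choose_succ_right_eq n k
  have hnM : n * M ≤ 2 * ((k + 1) * TT) := by
    have h1 : n ≤ 2 * (n - k) := by omega
    calc n * M ≤ 2 * (n - k) * M := Nat.mul_le_mul_right _ h1
      _ = 2 * (M * (n - k)) := by ring
      _ = 2 * ((k + 1) * TT) := by rw [← hTM]; ring
  set HP := (Lk n k ×ˢ (univ : Finset (Fin n))).filter fun p =>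
      2 ^ (32 * k) < dg k x (fl (x p.1) p.2) with hHP
  set nrL := (NR k x p).filter fun T => ∀ t ∈ u3F k x T,
    dg k x (p (T.erase t) T) ≤ 2 ^ (32 * k) with hnrL
  have hNRc : ∀ T ∈ NR k x p, T.card = k + 1 := fun T hT =>
    (mem_powersetCard.1 (mem_filter.1 hT).1).2
  have herc : ∀ T : V n, T.card = k + 1 → ∀ t ∈ T, (T.erase t).card = k := by
    intro T hT t ht
    rw [card_erase_of_mem ht, hT]
    rfl
  -- heavy sets
  have hheavy : ((NR k x p).filter fun T => ¬ ∀ t ∈ u3F k x T,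
      dg k x (p (T.erase t) T) ≤ 2 ^ (32 * k)).card ≤ HP.card := by
    have hex : ∀ T : V n, ∃ b : V n × Fin n, T ∈ (NR k x p).filter (fun T => ¬ ∀ t ∈ u3F k x T,
        dg k x (p (T.erase t) T) ≤ 2 ^ (32 * k)) → b ∈ HP ∧ b.1.card = k ∧ b.1 ⊆ T ∧
          p b.1 T = fl (x b.1) b.2 := by
      intro T
      by_cases hT : T ∈ (NR k x p).filter (fun T => ¬ ∀ t ∈ u3F k x T,
        dg k x (p (T.erase t) T) ≤ 2 ^ (32 * k))
      · obtain ⟨hT1, hT2⟩ := mem_filter.1 hT
        push Not at hT2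
        obtain ⟨t, ht, hd⟩ := hT2
        have htT : t ∈ T := (mem_filter.1 ht).1
        have hTc := hNRc T hT1
        obtain ⟨i, hi⟩ := adj_iff.1 (hc.hp (T.erase t) T (herc T hTc t htT) hTc (erase_subset _ _))
        refine ⟨(T.erase t, i), fun _ => ⟨?_, herc T hTc t htT, erase_subset _ _, hi⟩⟩
        rw [hHP, mem_filter, mem_product]
        refine ⟨⟨?_, mem_univ _⟩, ?_⟩
        · exact mem_powersetCard.2 ⟨subset_univ _, herc T hTc t htT⟩
        · simp only
          rw [← hi]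
          exact hd
      · by_cases hne : Nonempty (Fin n)
        · obtain ⟨i⟩ := hne
          exact ⟨(∅, i), fun h => absurd h hT⟩
        · exact absurd ⟨⟨0, hn0⟩⟩ hne
    choose b hb using hex
    refine card_le_card_of_injOn b (fun T hT => (hb T hT).1) ?_
    intro T hT T' hT' hbb
    have h1 := hb T hT
    have h2 := hb T' hT'
    have hTc := hNRc T (mem_filter.1 hT).1
    have hTc' := hNRc T' (mem_filter.1 hT').1
    refine hc.hpi (b T).1 T T' h1.2.1 hTc hTc' h1.2.2.1 ?_ ?_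
    · rw [hbb]; exact h2.2.2.1
    · rw [h1.2.2.2]
      conv_rhs => rw [hbb, h2.2.2.2]
      rw [hbb]
  have hsplit : nrL.card + ((NR k x p).filter fun T => ¬ ∀ t ∈ u3F k x T,
      dg k x (p (T.erase t) T) ≤ 2 ^ (32 * k)).card = (NR k x p).card :=
    card_filter_add_card_filter_not _
  have hhalf : (NR k x p).card ≤ 2 * nrL.card := by
    set hv := ((NR k x p).filter fun T => ¬ ∀ t ∈ u3F k x T,
      dg k x (p (T.erase t) T) ≤ 2 ^ (32 * k)).card with hhv
    have h1 : 2 ^ (31 * k) * hv ≤ 2 * (k + 1) * (2 ^ (30 * k) * (NR k x p).card) := by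
      calc 2 ^ (31 * k) * hv ≤ 2 ^ (31 * k) * HP.card := Nat.mul_le_mul_left _ hheavy
        _ ≤ n * M := hlight
        _ ≤ 2 * ((k + 1) * TT) := hnM
        _ = 2 * (k + 1) * TT := by ring
        _ ≤ 2 * (k + 1) * (2 ^ (30 * k) * (NR k x p).card) := Nat.mul_le_mul_left _ hNR
    have h2 : 2 ^ (30 * k) * (2 ^ k * hv) ≤ 2 ^ (30 * k) * (2 * (k + 1) * (NR k x p).card) := by
      calc 2 ^ (30 * k) * (2 ^ k * hv) = 2 ^ (31 * k) * hv := by
            rw [← mul_assoc, ← pow_add]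
            congr 2
            ring
        _ ≤ 2 * (k + 1) * (2 ^ (30 * k) * (NR k x p).card) := h1
        _ = 2 ^ (30 * k) * (2 * (k + 1) * (NR k x p).card) := by ring
    have h3 : 2 ^ k * hv ≤ 2 * (k + 1) * (NR k x p).card :=
      Nat.le_of_mul_le_mul_left h2 (by positivity)
    have h4 : 2 * (k + 1) * (2 * hv) ≤ 2 * (k + 1) * (NR k x p).card := by
      calc 2 * (k + 1) * (2 * hv) = 4 * (k + 1) * hv := by ring
        _ ≤ 2 ^ k * hv := Nat.mul_le_mul_right _ h2k
        _ ≤ _ := h3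
    have h5 : 2 * hv ≤ (NR k x p).card := Nat.le_of_mul_le_mul_left h4 (by omega)
    omega
  -- disjoint subfamily
  let PT : V n → Finset (V n) := fun T => (u3F k x T).image fun t => p (T.erase t) T
  have hTA : ∀ T ∈ NR k x p, 24 * (k + 1) ≤ 25 * (u3F k x T).card := fun T hT =>
    u3F_card k x T (mem_filter.1 hT).1 (mem_filter.1 hT).2.1
  have hnrN : nrL ⊆ NR k x p := filter_subset _ _
  obtain ⟨𝒯', hsub', hcard', hdis'⟩ := disj nrL PT (k + 1) (2 ^ (32 * k)) (by
      intro T hT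
      refine card_image_le.trans ((card_filter_le _ _).trans ?_)
      rw [hNRc T (hnrN hT)]) (by
      intro T hT
      have h1 := hTA T (hnrN hT)
      have h2 : (u3F k x T).Nonempty := card_pos.1 (by omega)
      exact h2.image _) (by
      intro v
      rcases (nrL.filter fun T => v ∈ PT T).eq_empty_or_nonempty with he | ⟨T0, hT0⟩
      · rw [he]; simp
      · have hdgv : dg k x v ≤ 2 ^ (32 * k) := by
          obtain ⟨h1, h2⟩ := mem_filter.1 hT0
          obtain ⟨t, ht, rfl⟩ := mem_image.1 h2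
          exact (mem_filter.1 h1).2 t ht
        refine le_trans ?_ hdgv
        have hex : ∀ T : V n, ∃ S : V n, T ∈ nrL.filter (fun T => v ∈ PT T) →
            S.card = k ∧ S ⊆ T ∧ p S T = v := by
          intro T
          by_cases hT : T ∈ nrL.filter (fun T => v ∈ PT T)
          · obtain ⟨h1, h2⟩ := mem_filter.1 hT
            obtain ⟨t, ht, hv⟩ := mem_image.1 h2
            exact ⟨T.erase t, fun _ => ⟨herc T (hNRc T (hnrN h1)) t (mem_filter.1 ht).1,
              erase_subset _ _, hv⟩⟩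
          · exact ⟨∅, fun h => absurd h hT⟩
        choose S hS using hex
        unfold dg
        refine card_le_card_of_injOn S ?_ ?_
        · intro T hT
          have h1 := hS T hT
          have hTc := hNRc T (hnrN (mem_filter.1 hT).1)
          refine mem_coe.2 (mem_filter.2 ⟨mem_powersetCard.2 ⟨subset_univ _, h1.1⟩, ?_⟩)
          have := hc.hp (S T) T h1.1 hTc h1.2.1
          rwa [h1.2.2] at this
        · intro T hT T' hT' hSS
          have h1 := hS T hT
          have h2 := hS T' hT'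
          have hTc := hNRc T (hnrN (mem_filter.1 hT).1)
          have hTc' := hNRc T' (hnrN (mem_filter.1 hT').1)
          refine hc.hpi (S T) T T' h1.1 hTc hTc' h1.2.1 ?_ ?_
          · rw [hSS]; exact h2.2.1
          · rw [h1.2.2, hSS, h2.2.2])
  have hmle : TT / 2 ^ (63 * k) ≤ 𝒯'.card := by
    refine Nat.div_le_of_le_mul ?_
    calc TT ≤ 2 ^ (30 * k) * (NR k x p).card := hNR
      _ ≤ 2 ^ (30 * k) * (2 * nrL.card) := Nat.mul_le_mul_left _ hhalf
      _ ≤ 2 ^ (30 * k) * (2 * ((k + 1) * 2 ^ (32 * k) * 𝒯'.card)) := by gcongr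
      _ = 2 * (k + 1) * (2 ^ (30 * k) * 2 ^ (32 * k)) * 𝒯'.card := by ring
      _ ≤ 2 ^ k * (2 ^ (30 * k) * 2 ^ (32 * k)) * 𝒯'.card := by
          gcongr
          omega
      _ = 2 ^ (63 * k) * 𝒯'.card := by
          rw [← pow_add, ← pow_add]
          congr 2
          ring
  obtain ⟨𝒯, h𝒯, h𝒯c⟩ := exists_subset_card_eq hmle
  have hD : ∀ T : V n, ∃ D : Finset (V n), T ∈ NR k x p →
      D ∈ Fam3 r x' T ∧ D ⊆ PT T ∧ Mono χ D := by
    intro T
    by_cases hT : T ∈ NR k x p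
    · obtain ⟨D, h1, h2, h3⟩ := u3x_D hk25 hr1 hr2 hc hx' hT
      exact ⟨D, fun _ => ⟨h1, h2, h3⟩⟩
    · exact ⟨∅, fun h => absurd h hT⟩
  choose D hD using hD
  have h𝒯N : ∀ T ∈ 𝒯, T ∈ NR k x p := fun T hT => hnrN (hsub' (h𝒯 hT))
  refine ⟨x', hx'X, 𝒯, ?_, h𝒯c, D, fun T hT => (hD T (h𝒯N T hT)).1, ?_,
    fun T hT => (hD T (h𝒯N T hT)).2.2⟩
  · intro T hT
    exact (mem_filter.1 (h𝒯N T hT)).1
  · intro T hT T' hT' hne
    exact (hdis' T (h𝒯 hT) T' (h𝒯 hT') hne).mono (hD T (h𝒯N T hT)).2.1 (hD T' (h𝒯N T' hT')).2.1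

end Pool.Agent.SHC
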