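import Pool.Agent.SHC.De
import Pool.Agent.SHC.U3y

set_option autoImplicit false

namespace Pool.Agent.SHC

open Finset Pool.Agent.SH

theorem u3n_choose (a T m : ℕ) (h : T ≤ 2 ^ (a + 1) * m) : T.choose m ≤ 2 ^ ((a + 3) * m) := by
  rcases lt_or_ge T m with hTm | hmT
  · rw [Nat.choose_eq_zero_of_lt hTm]
    exact Nat.zero_le _
  have h1 : (T.choose m : ℝ) * ((1 / 2 : ℝ) ^ a) ^ m ≤ (1 + (1 / 2 : ℝ) ^ a) ^ T := by
    have h2 := add_pow ((1 / 2 : ℝ) ^ a) 1 T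
    rw [add_comm 1 ((1 / 2 : ℝ) ^ a), h2]
    have h3 := Finset.single_le_sum (s := range (T + 1))
      (f := fun j => ((1 / 2 : ℝ) ^ a) ^ j * 1 ^ (T - j) * (T.choose j : ℝ))
      (fun j _ => by positivity) (mem_range.2 (Nat.lt_succ_of_le hmT))
    simp only [one_pow, mul_one] at h3 ⊢
    calc (T.choose m : ℝ) * ((1 / 2 : ℝ) ^ a) ^ m = ((1 / 2 : ℝ) ^ a) ^ m * (T.choose m : ℝ) := by
          ring
      _ ≤ _ := h3
  have h4 : (1 + (1 / 2 : ℝ) ^ a) ^ T ≤ (8 : ℝ) ^ m := by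
    have h5 : (1 + (1 / 2 : ℝ) ^ a) ≤ Real.exp ((1 / 2 : ℝ) ^ a) := by
      have := Real.add_one_le_exp ((1 / 2 : ℝ) ^ a)
      linarith
    have h6 : (1 + (1 / 2 : ℝ) ^ a) ^ T ≤ Real.exp ((1 / 2 : ℝ) ^ a * T) := by
      calc (1 + (1 / 2 : ℝ) ^ a) ^ T ≤ (Real.exp ((1 / 2 : ℝ) ^ a)) ^ T :=
            pow_le_pow_left₀ (by positivity) h5 _
        _ = Real.exp ((1 / 2 : ℝ) ^ a * T) := by
            rw [← Real.exp_nat_mul, mul_comm]
    have h7 : (1 / 2 : ℝ) ^ a * T ≤ m * 2 := by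
      have h8 : (T : ℝ) ≤ 2 ^ (a + 1) * m := by exact_mod_cast h
      calc (1 / 2 : ℝ) ^ a * T ≤ (1 / 2 : ℝ) ^ a * (2 ^ (a + 1) * m) := by gcongr
        _ = ((1 / 2 : ℝ) * 2) ^ a * (m * 2) := by rw [mul_pow, pow_succ]; ring
        _ = m * 2 := by norm_num
    have h9 : Real.exp 2 ≤ 8 := by
      have h10 : Real.exp 2 = Real.exp 1 * Real.exp 1 := by
        rw [← Real.exp_add]; norm_num
      have h11 := Real.exp_one_lt_d9
      have h12 := Real.exp_pos 1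
      rw [h10]
      nlinarith
    calc (1 + (1 / 2 : ℝ) ^ a) ^ T ≤ Real.exp ((1 / 2 : ℝ) ^ a * T) := h6
      _ ≤ Real.exp (m * 2) := Real.exp_le_exp.2 h7
      _ = (Real.exp 2) ^ m := by rw [← Real.exp_nat_mul]
      _ ≤ 8 ^ m := pow_le_pow_left₀ (Real.exp_pos _).le h9 _
  have h13 : (T.choose m : ℝ) ≤ 2 ^ ((a + 3) * m) := by
    have h14 : (T.choose m : ℝ) * ((1 / 2 : ℝ) ^ a) ^ m * (2 ^ a) ^ m ≤ 8 ^ m * (2 ^ a) ^ m :=
      mul_le_mul_of_nonneg_right (h1.trans h4) (by positivity)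
    have h15 : (T.choose m : ℝ) * ((1 / 2 : ℝ) ^ a) ^ m * (2 ^ a) ^ m = T.choose m := by
      rw [mul_assoc, ← mul_pow, ← mul_pow]
      norm_num
    rw [h15] at h14
    calc (T.choose m : ℝ) ≤ 8 ^ m * (2 ^ a) ^ m := h14
      _ = 2 ^ ((a + 3) * m) := by
        rw [pow_mul, pow_add, mul_pow]
        norm_num
        ring
  exact_mod_cast h13

theorem u3n_four (k : ℕ) (hk : 25 ≤ k) : 4 * (k + 1) ^ 4 ≤ 2 ^ k := by
  induction k, hk using Nat.le_induction with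
  | base => norm_num
  | succ k hk ih =>
    have h1 : 26 * (k + 1 + 1) ≤ 27 * (k + 1) := by omega
    have h2 := Nat.pow_le_pow_left h1 4
    rw [mul_pow, mul_pow] at h2
    rw [pow_succ 2 k]
    generalize (k + 1 + 1) ^ 4 = X at *
    generalize (k + 1) ^ 4 = Y at *
    norm_num at h2
    omega

theorem u3n_XX {k n : ℕ} (hk : 8 ≤ k) (hn : Sz k n) :
    (XX n k).card ≤ 2 ^ (1000 * k ^ 2 * n.choose k) := by
  have hn0 : 1 ≤ n := le_trans Nat.one_le_two_pow hn.1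
  have h1 : n.choose k ≤ 2 ^ (640 * k * k) := by
    calc n.choose k ≤ n ^ k := Nat.choose_le_pow n k
      _ ≤ (2 ^ (640 * k)) ^ k := Nat.pow_le_pow_left hn.2 _
      _ = 2 ^ (640 * k * k) := by rw [← pow_mul]
  have h2 : (n + 1) ^ 4 ≤ 2 ^ (4 * (640 * k + 1)) := by
    calc (n + 1) ^ 4 ≤ (2 * 2 ^ (640 * k)) ^ 4 := by
          refine Nat.pow_le_pow_left ?_ _
          have := hn.2
          omega
      _ = 2 ^ (4 * (640 * k + 1)) := by
          rw [← pow_succ', ← pow_mul]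
          congr 1
          ring
  have h3 := XX_card (k := k) (n := n) (by omega)
  refine h3.trans ?_
  calc 2 ^ (2 * n.choose k) * (n.choose k * (n + 1) ^ 4) ^ (n.choose k)
      ≤ 2 ^ (2 * n.choose k) * (2 ^ (640 * k * k) * 2 ^ (4 * (640 * k + 1))) ^ (n.choose k) := by
        gcongr
    _ = 2 ^ ((2 + (640 * k * k + 4 * (640 * k + 1))) * n.choose k) := by
        rw [← pow_add, ← pow_mul, ← pow_add]
        congr 1
        ring
    _ ≤ 2 ^ (1000 * k ^ 2 * n.choose k) := by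
        refine Nat.pow_le_pow_right (by norm_num) (Nat.mul_le_mul_right _ ?_)
        nlinarith

theorem u3n_M {k n : ℕ} (hk : 1 ≤ k) (hn : 4 * k ≤ n) : n ≤ n.choose k := by
  induction k, hk using Nat.le_induction with
  | base => simp
  | succ k hk ih =>
    refine (ih (by omega)).trans ?_
    exact Nat.choose_le_succ_of_lt_half_left (by omega)

theorem u3n_m {k n : ℕ} (hk : 25 ≤ k) (hn : Sz k n) :
    n.choose (k + 1) ≤ 2 ^ (63 * k + 1) * (n.choose (k + 1) / 2 ^ (63 * k)) ∧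
    1000 * k ^ 2 * n.choose k + (63 * k + 3) * (n.choose (k + 1) / 2 ^ (63 * k)) + 2 * n ≤
      318 * k * (n.choose (k + 1) / 2 ^ (63 * k)) := by
  have h2k := u3y_two_pow k hk
  have hn4 : 4 * k ≤ n := by
    have h1 : 2 ^ k ≤ 2 ^ (320 * k) := Nat.pow_le_pow_right (by norm_num) (by omega)
    have h2 := hn.1
    omega
  have hMn := u3n_M (by omega : 1 ≤ k) hn4
  have hTM : n.choose (k + 1) * (k + 1) = n.choose k * (n - k) := Nat.choose_succ_right_eq n k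
  set TT := n.choose (k + 1) with hTT
  set M := n.choose k with hM
  have hnM : n * M ≤ 2 * ((k + 1) * TT) := by
    have h1 : n ≤ 2 * (n - k) := by omega
    calc n * M ≤ 2 * (n - k) * M := Nat.mul_le_mul_right _ h1
      _ = 2 * (M * (n - k)) := by ring
      _ = 2 * ((k + 1) * TT) := by rw [← hTM]; ring
  have h3 : 2 ^ (319 * k) * M ≤ TT := by
    have h4 : 2 ^ k * (2 ^ (319 * k) * M) ≤ 2 ^ k * TT := by
      calc 2 ^ k * (2 ^ (319 * k) * M) = 2 ^ (320 * k) * M := by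
            rw [← mul_assoc, ← pow_add]
            congr 2
            ring
        _ ≤ n * M := Nat.mul_le_mul_right _ hn.1
        _ ≤ 2 * ((k + 1) * TT) := hnM
        _ = 2 * (k + 1) * TT := by ring
        _ ≤ 2 ^ k * TT := Nat.mul_le_mul_right _ (by omega)
    exact Nat.le_of_mul_le_mul_left h4 (by positivity)
  set P := 2 ^ (63 * k) with hP
  have hPpos : 0 < P := by positivity
  have hdm := Nat.div_add_mod TT P
  have hmod := Nat.mod_lt TT hPpos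
  set m := TT / P with hm
  have h5 : 2 ^ (256 * k) * M ≤ m := by
    rw [hm, Nat.le_div_iff_mul_le hPpos]
    calc 2 ^ (256 * k) * M * P = 2 ^ (319 * k) * M := by
          rw [hP, mul_right_comm, ← pow_add]
          congr 2
          ring
      _ ≤ TT := h3
  have hM1 : 1 ≤ M := by omega
  have hm1 : 1 ≤ m := by
    have : 1 ≤ 2 ^ (256 * k) * M := Nat.one_le_iff_ne_zero.2 (by positivity)
    omega
  refine ⟨?_, ?_⟩
  · calc TT ≤ P * m + P := by omega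
      _ ≤ P * m + P * m := by
          refine Nat.add_le_add_left ?_ _
          exact Nat.le_mul_of_pos_right _ hm1
      _ = 2 ^ (63 * k + 1) * m := by rw [pow_succ, ← hP]; ring
  · have h6 : 1000 * k ^ 2 + 2 ≤ 2 ^ (256 * k) := by
      have h7 : k < 2 ^ k := Nat.lt_two_pow_self
      have h8 : 1000 * k ^ 2 + 2 ≤ 2 ^ 10 * (2 ^ k) ^ 2 := by nlinarith
      calc 1000 * k ^ 2 + 2 ≤ 2 ^ 10 * (2 ^ k) ^ 2 := h8
        _ = 2 ^ (10 + k * 2) := by rw [← pow_mul, ← pow_add]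
        _ ≤ 2 ^ (256 * k) := Nat.pow_le_pow_right (by norm_num) (by omega)
    have h9 : 1000 * k ^ 2 * M + 2 * n ≤ m := by
      calc 1000 * k ^ 2 * M + 2 * n ≤ 1000 * k ^ 2 * M + 2 * M := by omega
        _ = (1000 * k ^ 2 + 2) * M := by ring
        _ ≤ 2 ^ (256 * k) * M := Nat.mul_le_mul_right _ h6
        _ ≤ m := h5
    have h10 : (63 * k + 3) * m + m ≤ 318 * k * m := by
      have : (63 * k + 3) * m + m = (63 * k + 4) * m := by ring
      rw [this]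
      exact Nat.mul_le_mul_right _ (by omega)
    omega

/-- The weight. -/
theorem u3n_Z {k n q : ℕ} (hk : 80 ≤ k) (hn : Sz k n) (hq : 2 ^ 4000 * n ≤ q) (r : ℕ)
    (hr1 : k + 1 ≤ 4 * r) (hr2 : 4 * r ≤ k + 4) :
    2 ^ (k + 1) * (n : ℝ) ^ r / (q : ℝ) ^ (r - 1) + 4 * ((k : ℝ) + 1) ^ 4 / q ≤
      (1 / 2 : ℝ) ^ (318 * k) := by
  have hn1 : 1 ≤ n := le_trans Nat.one_le_two_pow hn.1
  have hnr : (0 : ℝ) < n := by exact_mod_cast hn1
  have hq' : (2 : ℝ) ^ 4000 * n ≤ q := by exact_mod_cast hq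
  have hqpos : (0 : ℝ) < q := lt_of_lt_of_le (by positivity) hq'
  obtain ⟨s, rfl⟩ : ∃ s, r = s + 1 := ⟨r - 1, by omega⟩
  rw [Nat.add_sub_cancel]
  have hn2 : (n : ℝ) ≤ 2 ^ (640 * k) := by exact_mod_cast hn.2
  have hn3 : (2 : ℝ) ^ (320 * k) ≤ n := by exact_mod_cast hn.1
  have h1 : 2 ^ (k + 1) * (n : ℝ) ^ (s + 1) / (q : ℝ) ^ s ≤ (1 / 2 : ℝ) ^ (319 * k) := by
    rw [div_le_iff₀ (by positivity)]
    have h2 : ((2 : ℝ) ^ 4000 * n) ^ s ≤ (q : ℝ) ^ s := pow_le_pow_left₀ (by positivity) hq' _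
    have h3 : (2 : ℝ) ^ (k + 1) * 2 ^ (640 * k) ≤ (1 / 2 : ℝ) ^ (319 * k) * (2 ^ 4000) ^ s := by
      rw [one_div, inv_pow, ← div_eq_inv_mul, le_div_iff₀ (by positivity), ← pow_add, ← pow_add,
        ← pow_mul]
      refine pow_le_pow_right₀ (by norm_num) ?_
      omega
    calc 2 ^ (k + 1) * (n : ℝ) ^ (s + 1) = 2 ^ (k + 1) * n * (n : ℝ) ^ s := by ring
      _ ≤ 2 ^ (k + 1) * 2 ^ (640 * k) * (n : ℝ) ^ s := by gcongr
      _ ≤ ((1 / 2 : ℝ) ^ (319 * k) * (2 ^ 4000) ^ s) * (n : ℝ) ^ s := by gcongr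
      _ = (1 / 2 : ℝ) ^ (319 * k) * ((2 ^ 4000) * n) ^ s := by rw [mul_pow]; ring
      _ ≤ (1 / 2 : ℝ) ^ (319 * k) * (q : ℝ) ^ s := by gcongr
  have h4 : 4 * ((k : ℝ) + 1) ^ 4 / q ≤ (1 / 2 : ℝ) ^ (319 * k) := by
    rw [div_le_iff₀ hqpos]
    have h5 : 4 * ((k : ℝ) + 1) ^ 4 ≤ 2 ^ k := by exact_mod_cast u3n_four k (by omega)
    have h6 : (2 : ℝ) ^ k ≤ (1 / 2 : ℝ) ^ (319 * k) * 2 ^ (320 * k) := by
      rw [one_div, inv_pow, ← div_eq_inv_mul, le_div_iff₀ (by positivity), ← pow_add]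
      refine pow_le_pow_right₀ (by norm_num) ?_
      omega
    have h7 : (n : ℝ) ≤ q := by
      refine le_trans ?_ hq'
      have h8 : (1 : ℝ) ≤ 2 ^ 4000 := one_le_pow₀ (by norm_num)
      exact le_mul_of_one_le_left hnr.le h8
    calc 4 * ((k : ℝ) + 1) ^ 4 ≤ 2 ^ k := h5
      _ ≤ (1 / 2 : ℝ) ^ (319 * k) * 2 ^ (320 * k) := h6
      _ ≤ (1 / 2 : ℝ) ^ (319 * k) * n := by gcongr
      _ ≤ (1 / 2 : ℝ) ^ (319 * k) * q := by gcongr
  calc _ ≤ (1 / 2 : ℝ) ^ (319 * k) + (1 / 2 : ℝ) ^ (319 * k) := add_le_add h1 h4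
    _ = (1 / 2 : ℝ) ^ (318 * k) * (2 * (1 / 2 : ℝ) ^ k) := by
        have : 319 * k = 318 * k + k := by ring
        rw [this, pow_add]
        ring
    _ ≤ (1 / 2 : ℝ) ^ (318 * k) * 1 := by
        refine mul_le_mul_of_nonneg_left ?_ (by positivity)
        have h8 : (1 / 2 : ℝ) ^ k ≤ (1 / 2 : ℝ) ^ 1 :=
          pow_le_pow_of_le_one (by norm_num) (by norm_num) (by omega)
        rw [pow_one] at h8
        linarith
    _ = _ := mul_one _

end Pool.Agent.SHC
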