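import Pool.Agent.SHC.De
import Pool.Agent.SH.Cb

set_option autoImplicit false

namespace Pool.Agent.SHC

open Finset Pool.Agent.SH

/-- The canonical vertex is determined by the crowded facets. -/
theorem vT_eq {n : ℕ} (k : ℕ) (hk : 25 ≤ k) (x x' : V n → V n)
    (hx : ∀ S S' : V n, S.card = k → S'.card = k → x S = x S' → S = S')
    (hx' : ∀ S ∈ Bk k x, x' S = x S) (T : V n) (hT : T ∈ Lk n (k + 1)) (hTA : T ∉ TA k x)
    (v : V n)
    (hv : 3 * (k + 1) ≤ 5 * (T.filter fun t => T.erase t ∈ Bk k x ∧ adj (x (T.erase t)) v).card) :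
    vT k x' T = v := by
  classical
  have hTc : T.card = k + 1 := (mem_powersetCard.1 hT).2
  have hec : ∀ t ∈ T, (T.erase t).card = k := by
    intro t ht
    rw [card_erase_of_mem ht, hTc]
    omega
  have haT : 25 * aT k x T ≤ k + 1 := by
    by_contra h
    push Not at h
    exact hTA (mem_filter.2 ⟨hT, h⟩)
  -- the vertex `v` is a candidate
  have hex : ∃ u : V n, 3 * (k + 1) ≤ 5 * (T.filter fun t => adj (x' (T.erase t)) u).card := by
    refine ⟨v, hv.trans (Nat.mul_le_mul_left _ (card_le_card ?_))⟩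
    intro t ht
    obtain ⟨h1, h2, h3⟩ := mem_filter.1 ht
    refine mem_filter.2 ⟨h1, ?_⟩
    rw [hx' _ h2]
    exact h3
  have hu : vT k x' T = hex.choose := dif_pos hex
  have hspec := hex.choose_spec
  rw [hu]
  set u := hex.choose with hudef
  by_contra hne
  -- the facets attached to `u`
  set Pu := T.filter fun t => T.erase t ∈ Bk k x ∧ adj (x (T.erase t)) u with hPu
  set Pv := T.filter fun t => T.erase t ∈ Bk k x ∧ adj (x (T.erase t)) v with hPv
  have h1 : (T.filter fun t => adj (x' (T.erase t)) u).card ≤ Pu.card + aT k x T := by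
    refine (card_le_card ?_).trans (card_union_le _ _)
    intro t ht
    obtain ⟨h1, h2⟩ := mem_filter.1 ht
    by_cases hB : T.erase t ∈ Bk k x
    · refine mem_union_left _ (mem_filter.2 ⟨h1, hB, ?_⟩)
      rw [← hx' _ hB]
      exact h2
    · refine mem_union_right _ (mem_filter.2 ⟨h1, ?_⟩)
      exact mem_sdiff.2 ⟨mem_powersetCard.2 ⟨subset_univ _, hec t h1⟩, hB⟩
  have h2 : Pu.card + Pv.card ≤ (k + 1) + (Pu ∩ Pv).card := by
    rw [← hTc, ← card_union_add_card_inter]
    exact Nat.add_le_add_right (card_le_card (union_subset (filter_subset _ _)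
      (filter_subset _ _))) _
  have h3 : (Pu ∩ Pv).card ≤ 2 := by
    refine le_trans (card_le_card_of_injOn (fun t => x (T.erase t)) ?_ ?_) (card_common_le hne)
    · intro t ht
      obtain ⟨ht1, ht2⟩ := mem_inter.1 (mem_coe.1 ht)
      exact mem_coe.2 (mem_filter.2 ⟨mem_univ _, adj_comm.1 (mem_filter.1 ht1).2.2,
        adj_comm.1 (mem_filter.1 ht2).2.2⟩)
    · intro t ht t' ht' he
      have m1 := (mem_filter.1 (mem_inter.1 (mem_coe.1 ht)).1).1
      have m2 := (mem_filter.1 (mem_inter.1 (mem_coe.1 ht')).1).1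
      have h4 := hx _ _ (hec t m1) (hec t' m2) he
      by_contra hcon
      have h5 : t ∈ T.erase t' := mem_erase.2 ⟨hcon, m1⟩
      rw [← h4] at h5
      exact absurd h5 (notMem_erase _ _)
  omega

end Pool.Agent.SHC
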