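import Pool.Agent.SHC.Fam3
import Pool.Agent.SHC.Vt
import Pool.Agent.SHC.Lt
import Pool.Agent.SH.Cb
import Pool.Agent.SH.Sel

set_option autoImplicit false

namespace Pool.Agent.SHC

open Finset Pool.Agent.SH

/-- The elements of `T` whose facet is crowded. -/
def u3F {n : ℕ} (k : ℕ) (x : V n → V n) (T : V n) : Finset (Fin n) :=
  T.filter fun t => T.erase t ∈ Bk k x

theorem u3F_card {n : ℕ} (k : ℕ) (x : V n → V n) (T : V n) (hT : T ∈ Lk n (k + 1))
    (hTA : T ∉ TA k x) : 24 * (k + 1) ≤ 25 * (u3F k x T).card := by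
  have hTc : T.card = k + 1 := (mem_powersetCard.1 hT).2
  have h1 : 25 * aT k x T ≤ k + 1 := by
    by_contra h
    push Not at h
    exact hTA (mem_filter.2 ⟨hT, h⟩)
  have h2 : T ⊆ u3F k x T ∪ T.filter fun t => T.erase t ∈ Ak k x := by
    intro t ht
    rw [mem_union]
    by_cases hb : T.erase t ∈ Bk k x
    · exact Or.inl (mem_filter.2 ⟨ht, hb⟩)
    · refine Or.inr (mem_filter.2 ⟨ht, ?_⟩)
      rw [Ak, mem_sdiff]
      refine ⟨?_, hb⟩
      rw [mem_powersetCard]
      exact ⟨subset_univ _, by rw [card_erase_of_mem ht, hTc]; rfl⟩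
  have h3 := (card_le_card h2).trans (card_union_le _ _)
  have h4 : (T.filter fun t => T.erase t ∈ Ak k x).card = aT k x T := rfl
  rw [h4, hTc] at h3
  omega

theorem u3x_D {n k r : ℕ} (hk : 25 ≤ k) (hr1 : k + 1 ≤ 4 * r) (hr2 : 4 * r ≤ k + 4) {C : Type}
    {χ : V n → C} {x x' : V n → V n} {p : V n → V n → V n} (hc : IsCfg k χ x p)
    (hx' : ∀ S ∈ Bk k x, x' S = x S) {T : V n} (hT : T ∈ NR k x p) :
    ∃ D ∈ Fam3 r x' T, D ⊆ (u3F k x T).image (fun t => p (T.erase t) T) ∧ Mono χ D := by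
  classical
  have hTL : T ∈ Lk n (k + 1) := (mem_filter.1 hT).1
  have hTA : T ∉ TA k x := (mem_filter.1 hT).2.1
  have hreg : ¬ Reg k x p T := (mem_filter.1 hT).2.2
  have hFc := u3F_card k x T hTL hTA
  set F := u3F k x T with hF
  have hTc : T.card = k + 1 := (mem_powersetCard.1 hTL).2
  have hFT : F ⊆ T := filter_subset _ _
  have hB : ∀ t ∈ F, T.erase t ∈ Bk k x := fun t ht => (mem_filter.1 ht).2
  have hcard : ∀ t ∈ T, (T.erase t).card = k := by
    intro t ht
    rw [card_erase_of_mem ht, hTc]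
    rfl
  have hadj : ∀ t ∈ T, adj (x (T.erase t)) (p (T.erase t) T) := fun t ht =>
    hc.hp _ _ (hcard t ht) hTc (erase_subset _ _)
  have hcol : ∀ t ∈ T, ∀ t' ∈ T, χ (p (T.erase t) T) = χ (p (T.erase t') T) :=
    fun t ht t' ht' => hc.hc _ _ _ (hcard t ht) (hcard t' ht') hTc (erase_subset _ _)
      (erase_subset _ _)
  have hmono : ∀ D : Finset (V n), D ⊆ F.image (fun t => p (T.erase t) T) → Mono χ D := by
    intro D hD a ha b hb
    obtain ⟨t, ht, rfl⟩ := mem_image.1 (hD ha)
    obtain ⟨t', ht', rfl⟩ := mem_image.1 (hD hb)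
    exact hcol t (hFT ht) t' (hFT ht')
  set Sg := F.filter fun t => ∀ t' ∈ F, p (T.erase t') T = p (T.erase t) T → t' = t with hSg
  have hmem : ∀ D, D ∈ FamA r x' T ∨ D ∈ FamB x' T → D ∈ Fam3 r x' T := by
    intro D hD
    have h : D ∈ FamA r x' T ∪ FamB x' T := mem_union.2 hD
    unfold Fam3
    convert h
  by_cases h1 : r ≤ Sg.card
  · obtain ⟨F', hF', hF'c⟩ := exists_subset_card_eq h1
    have hF'F : F' ⊆ F := hF'.trans (filter_subset _ _)
    have hi : ∀ t : Fin n, ∃ j : Fin n, t ∈ T → p (T.erase t) T = fl (x (T.erase t)) j := by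
      intro t
      by_cases ht : t ∈ T
      · obtain ⟨j, hj⟩ := adj_iff.1 (hadj t ht)
        exact ⟨j, fun _ => hj⟩
      · exact ⟨t, fun h => absurd h ht⟩
    choose i hi using hi
    refine ⟨F'.image fun t => p (T.erase t) T, hmem _ (Or.inl ?_), image_subset_image hF'F,
      hmono _ (image_subset_image hF'F)⟩
    refine mem_filter.2 ⟨mem_univ _, ?_, F', hF'F.trans hFT, hF'c, i, ?_⟩
    · rw [card_image_of_injOn, hF'c]
      intro a ha b hb hab
      exact (mem_filter.1 (hF' hb)).2 a (hF'F ha) hab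
    · refine image_congr ?_
      intro t ht
      have htF : t ∈ F := hF'F (mem_coe.1 ht)
      simp only
      rw [hx' _ (hB t htF)]
      exact hi t (hFT htF)
  · push Not at h1
    have hlt : Sg.card < F.card := by omega
    obtain ⟨t1, ht1, ht1'⟩ := exists_mem_notMem_of_card_lt_card hlt
    have hpart : ∀ t ∈ F, t ∉ Sg → ∃ t' ∈ F, p (T.erase t') T = p (T.erase t) T ∧ t' ≠ t := by
      intro t ht htS
      by_contra hcon
      push Not at hcon
      exact htS (mem_filter.2 ⟨ht, hcon⟩)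
    obtain ⟨t2, ht2, h12, hne12⟩ := hpart t1 ht1 ht1'
    by_cases h3 : ∀ t ∈ F, t ∉ Sg → p (T.erase t) T = p (T.erase t1) T
    · exfalso
      have hsub : F \ Sg ⊆ F.filter fun t => p (T.erase t) T = p (T.erase t1) T := by
        intro t ht
        rw [mem_sdiff] at ht
        exact mem_filter.2 ⟨ht.1, h3 t ht.1 ht.2⟩
      have hc1 := card_le_card hsub
      have hc2 : F.card - Sg.card ≤ (F \ Sg).card := le_card_sdiff _ _
      have hv : vT k x T = p (T.erase t1) T := by
        refine vT_eq k hk x x hc.inj (fun _ _ => rfl) T hTL hTA _ ?_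
        have hsub2 : (F.filter fun t => p (T.erase t) T = p (T.erase t1) T) ⊆
            T.filter fun t => T.erase t ∈ Bk k x ∧ adj (x (T.erase t)) (p (T.erase t1) T) := by
          intro t ht
          rw [mem_filter] at ht
          refine mem_filter.2 ⟨hFT ht.1, hB t ht.1, ?_⟩
          rw [← ht.2]
          exact hadj t (hFT ht.1)
        have hc3 := card_le_card hsub2
        omega
      apply hreg
      unfold Reg
      have hsub3 : (F.filter fun t => p (T.erase t) T = p (T.erase t1) T) ⊆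
          T.filter fun t => T.erase t ∈ Bk k x ∧ p (T.erase t) T = vT k x T := by
        intro t ht
        rw [mem_filter] at ht
        refine mem_filter.2 ⟨hFT ht.1, hB t ht.1, ?_⟩
        rw [hv]
        exact ht.2
      have hc4 := card_le_card hsub3
      have hc5 : (T.filter fun t => T.erase t ∈ Bk k x ∧ p (T.erase t) T = vT k x T).card =
          (T.filter fun t => T.erase t ∈ Bk k x ∧ p (T.erase t) T = vT k x T).card := rfl
      omega
    · push Not at h3
      obtain ⟨t3, ht3, ht3', h31⟩ := h3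
      obtain ⟨t4, ht4, h34, hne34⟩ := hpart t3 ht3 ht3'
      have hDsub : ({p (T.erase t1) T, p (T.erase t3) T} : Finset (V n)) ⊆
          F.image (fun t => p (T.erase t) T) := by
        intro v hv
        rw [mem_insert, mem_singleton] at hv
        rcases hv with rfl | rfl
        · exact mem_image_of_mem (fun t => p (T.erase t) T) ht1
        · exact mem_image_of_mem (fun t => p (T.erase t) T) ht3
      refine ⟨{p (T.erase t1) T, p (T.erase t3) T}, hmem _ (Or.inr ?_), hDsub, hmono _ hDsub⟩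
      have hne : ∀ a ∈ F, ∀ b ∈ F, b ≠ a → x' (T.erase a) ≠ x' (T.erase b) := by
        intro a ha b hb hab h
        rw [hx' _ (hB a ha), hx' _ (hB b hb)] at h
        have := hc.inj _ _ (hcard a (hFT ha)) (hcard b (hFT hb)) h
        exact hab ((erase_inj T (hFT ha)).1 this).symm
      refine mem_filter.2 ⟨mem_univ _, card_pair h31.symm, t1, hFT ht1, t2, hFT ht2, t3, hFT ht3,
        t4, hFT ht4, p (T.erase t1) T, p (T.erase t3) T, hne t1 ht1 t2 ht2 hne12,
        hne t3 ht3 t4 ht4 hne34, ?_, ?_, ?_, ?_, rfl⟩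
      · rw [hx' _ (hB t1 ht1)]; exact hadj t1 (hFT ht1)
      · rw [hx' _ (hB t2 ht2), ← h12]; exact hadj t2 (hFT ht2)
      · rw [hx' _ (hB t3 ht3)]; exact hadj t3 (hFT ht3)
      · rw [hx' _ (hB t4 ht4), ← h34]; exact hadj t4 (hFT ht4)

end Pool.Agent.SHC
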