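import Pool.Agent.SHC.U4d
import Pool.Agent.SHC.Hs
import Pool.Agent.SH.Cb
import Pool.Agent.SH.Pr0

set_option autoImplicit false

namespace Pool.Agent.SHC

open Finset Pool.Agent.SH

/-- Extension of a map on `𝒮` by `∅`. -/
def u4c_ext {n : ℕ} (𝒮 : Finset (V n)) (y : {S // S ∈ 𝒮} → V n) : V n → V n :=
  fun S => if h : S ∈ 𝒮 then y ⟨S, h⟩ else ∅

/-- the event for fixed `y` -/
def u4c_ev {n q : ℕ} (k : ℕ) (x' : V n → V n) (U : Finset (V n × Fin n)) (y : V n → V n)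
    (χ : V n → Fin q) : Prop :=
  ∃ z : V n × Fin n → Fin n,
        (∀ u ∈ U, ∀ u' ∈ U, fl (y u.1) (z u) = fl (y u'.1) (z u') → u = u') ∧
        (∀ u ∈ U, ∀ u' ∈ U, fl (y u.1) (z u) ≠ vT k x' (insert u'.2 u'.1)) ∧
        (∀ u ∈ U, χ (fl (y u.1) (z u)) = χ (vT k x' (insert u.2 u.1)))

open Classical in
theorem u4c_one {n q : ℕ} (k : ℕ) (x' : V n → V n) (U : Finset (V n × Fin n)) (y : V n → V n) :
    (univ.filter fun χ : V n → Fin q => u4c_ev k x' U y χ).card * q ^ U.card ≤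
      n ^ U.card * q ^ (2 ^ n) := by
  refine le_trans (Nat.mul_le_mul_right _ (card_le_card ?_))
    (hits (q := q) U (fun (u : V n × Fin n) i => fl (y u.1) i)
      (fun (u : V n × Fin n) (_ : Fin n) => vT k x' (insert u.2 u.1)))
  intro χ hχ
  simp only [mem_filter, mem_univ, true_and] at hχ ⊢
  obtain ⟨z, h1, h2, h3⟩ := hχ
  exact ⟨z, h1, fun e he e' he' h => h2 e' he' e he h.symm, h3⟩

open Classical in
theorem u4c_fix' {n q : ℕ} (k : ℕ) (x' : V n → V n) (𝒮 : Finset (V n)) (U : Finset (V n × Fin n))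
    (hU : ∀ u ∈ U, u.1 ∈ 𝒮) :
    (univ.filter fun χ : V n → Fin q => ∃ y : V n → V n, u4c_ev k x' U y χ).card * q ^ U.card ≤
      2 ^ (n * 𝒮.card) * n ^ U.card * q ^ (2 ^ n) := by
  have hsub : (univ.filter fun χ : V n → Fin q => ∃ y : V n → V n, u4c_ev k x' U y χ) ⊆
      (univ : Finset ({S // S ∈ 𝒮} → V n)).biUnion fun y =>
        univ.filter fun χ : V n → Fin q => u4c_ev k x' U (u4c_ext 𝒮 y) χ := by
    intro χ hχ
    obtain ⟨y, z, h1, h2, h3⟩ := (mem_filter.1 hχ).2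
    rw [mem_biUnion]
    have hy : ∀ u ∈ U, u4c_ext 𝒮 (fun S => y S.1) u.1 = y u.1 := by
      intro u hu
      simp only [u4c_ext, dif_pos (hU u hu)]
    refine ⟨fun S => y S.1, mem_univ _, mem_filter.2 ⟨mem_univ _, z, ?_, ?_, ?_⟩⟩
    · intro u hu u' hu'
      rw [hy u hu, hy u' hu']
      exact h1 u hu u' hu'
    · intro u hu u' hu'
      rw [hy u hu]
      exact h2 u hu u' hu'
    · intro u hu
      rw [hy u hu]
      exact h3 u hu
  have hcard : (univ : Finset ({S // S ∈ 𝒮} → V n)).card = 2 ^ (n * 𝒮.card) := by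
    rw [card_univ, Fintype.card_fun, pr0_cardV, Fintype.card_coe, ← pow_mul]
  have h1 := Nat.mul_le_mul_right (q ^ U.card) ((card_le_card hsub).trans card_biUnion_le)
  refine h1.trans ?_
  rw [Finset.sum_mul]
  refine (Finset.sum_le_sum fun y _ => u4c_one (q := q) k x' U (u4c_ext 𝒮 y)).trans ?_
  rw [Finset.sum_const, hcard, smul_eq_mul, mul_assoc]

/-- For fixed `x'`, `𝒮`, `U`: `y` on `𝒮` costs `2^(n|𝒮|)`, `z` on `U` costs `n^|U|`, and `pr`
gains `q^|U|`. -/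
theorem u4c_fix {n q : ℕ} (k : ℕ) (x' : V n → V n) (𝒮 : Finset (V n)) (U : Finset (V n × Fin n))
    (hU : ∀ u ∈ U, u.1 ∈ 𝒮) :
    (open Classical in
      (univ.filter fun χ : V n → Fin q => ∃ (y : V n → V n) (z : V n × Fin n → Fin n),
        (∀ u ∈ U, ∀ u' ∈ U, fl (y u.1) (z u) = fl (y u'.1) (z u') → u = u') ∧
        (∀ u ∈ U, ∀ u' ∈ U, fl (y u.1) (z u) ≠ vT k x' (insert u'.2 u'.1)) ∧
        (∀ u ∈ U, χ (fl (y u.1) (z u)) = χ (vT k x' (insert u.2 u.1)))).card) * q ^ U.card ≤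
      2 ^ (n * 𝒮.card) * n ^ U.card * q ^ (2 ^ n) := by
  refine le_trans (Nat.mul_le_mul_right _ (card_le_card ?_)) (u4c_fix' (q := q) k x' 𝒮 U hU)
  intro χ hχ
  simp only [mem_filter, mem_univ, true_and] at hχ ⊢
  exact hχ

/-- numerics of the cover -/
theorem u4c_num (k n : ℕ) (hk : 1 ≤ k) (hn : Sz k n) :
    (XX n k).card * 2 ^ (n.choose k) * 4 ^ n ≤ 2 ^ (4 * (n * n.choose k / 2 ^ (70 * k))) := by
  obtain ⟨h1, h2⟩ := hn
  have hnpos : 0 < n := lt_of_lt_of_le (by positivity) h1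
  have h320 : 2 ^ (320 * k) = 2 ^ (70 * k) * 2 ^ (250 * k) := by
    rw [← pow_add]; congr 1; ring
  have hk2 : k < 2 ^ k := Nat.lt_two_pow_self
  -- a lower bound for the binomial coefficient
  have hM70 : 2 ^ (70 * k) ≤ n.choose k := by
    obtain ⟨c, hc⟩ : ∃ c : ℕ, c = 2 ^ 70 := ⟨_, rfl⟩
    have hc1 : c + 1 ≤ 2 ^ 71 := by rw [hc]; norm_num
    have h3 : k * c ≤ n + 1 - k := by
      have h4 : k * c + k ≤ n := by
        calc k * c + k = k * (c + 1) := by ring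
          _ ≤ 2 ^ k * 2 ^ 71 := Nat.mul_le_mul hk2.le hc1
          _ = 2 ^ (k + 71) := by rw [pow_add]
          _ ≤ 2 ^ (320 * k) := Nat.pow_le_pow_right (by norm_num) (by omega)
          _ ≤ n := h1
      omega
    have h5 := Nat.pow_sub_le_descFactorial n k
    rw [Nat.descFactorial_eq_factorial_mul_choose] at h5
    have h6 : (k * c) ^ k ≤ (n + 1 - k) ^ k := Nat.pow_le_pow_left h3 k
    have h7 : k.factorial ≤ k ^ k := Nat.factorial_le_pow k
    have h8 : k ^ k * c ^ k ≤ k ^ k * n.choose k := by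
      calc k ^ k * c ^ k = (k * c) ^ k := by rw [mul_pow]
        _ ≤ (n + 1 - k) ^ k := h6
        _ ≤ k.factorial * n.choose k := h5
        _ ≤ k ^ k * n.choose k := Nat.mul_le_mul_right _ h7
    have h9 := Nat.le_of_mul_le_mul_left h8 (by positivity)
    rw [hc, ← pow_mul] at h9
    exact h9
  set M := n.choose k with hM
  set u0 := n * M / 2 ^ (70 * k) with hu0
  have hu1 : n ≤ u0 := by
    rw [hu0, Nat.le_div_iff_mul_le (by positivity)]
    exact Nat.mul_le_mul_left _ hM70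
  have hu2 : 2 ^ (250 * k) * M ≤ u0 := by
    rw [hu0, Nat.le_div_iff_mul_le (by positivity)]
    calc 2 ^ (250 * k) * M * 2 ^ (70 * k) = 2 ^ (320 * k) * M := by rw [h320]; ring
      _ ≤ n * M := Nat.mul_le_mul_right _ h1
  have hn1 : n + 1 ≤ 2 ^ (640 * k + 1) := by
    rw [pow_succ]
    have : 1 ≤ 2 ^ (640 * k) := Nat.one_le_two_pow
    omega
  have hMle : M ≤ (2 ^ (640 * k + 1)) ^ k := by
    calc M ≤ n ^ k := Nat.choose_le_pow n k
      _ ≤ (2 ^ (640 * k + 1)) ^ k := Nat.pow_le_pow_left (by omega) k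
  have hbase : M * (n + 1) ^ 4 ≤ 2 ^ ((640 * k + 1) * (k + 4)) := by
    calc M * (n + 1) ^ 4 ≤ (2 ^ (640 * k + 1)) ^ k * (2 ^ (640 * k + 1)) ^ 4 :=
          Nat.mul_le_mul hMle (Nat.pow_le_pow_left hn1 4)
      _ = 2 ^ ((640 * k + 1) * (k + 4)) := by
          rw [← pow_mul, ← pow_mul, ← pow_add]; congr 1; ring
  have hpoly : 3 + (640 * k + 1) * (k + 4) ≤ 2 ^ (250 * k) := by
    have h9 : 3 + (640 * k + 1) * (k + 4) ≤ 4096 * (k * k) := by nlinarith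
    calc 3 + (640 * k + 1) * (k + 4) ≤ 4096 * (k * k) := h9
      _ ≤ 2 ^ 12 * (2 ^ k * 2 ^ k) := Nat.mul_le_mul (by norm_num) (Nat.mul_le_mul hk2.le hk2.le)
      _ = 2 ^ (12 + (k + k)) := by rw [pow_add, pow_add]
      _ ≤ 2 ^ (250 * k) := Nat.pow_le_pow_right (by norm_num) (by omega)
  calc (XX n k).card * 2 ^ M * 4 ^ n
      ≤ (2 ^ (2 * M) * (M * (n + 1) ^ 4) ^ M) * 2 ^ M * 4 ^ n := by
        gcongr
        exact XX_card hnpos
    _ ≤ (2 ^ (2 * M) * (2 ^ ((640 * k + 1) * (k + 4))) ^ M) * 2 ^ M * 2 ^ (2 * n) := by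
        have : (4 : ℕ) ^ n = 2 ^ (2 * n) := by rw [pow_mul]; norm_num
        rw [this]
        gcongr
    _ = 2 ^ ((3 + (640 * k + 1) * (k + 4)) * M + 2 * n) := by
        rw [← pow_mul, ← pow_add, ← pow_add, ← pow_add]; congr 1; ring
    _ ≤ 2 ^ (4 * u0) := by
        apply Nat.pow_le_pow_right (by norm_num)
        have : (3 + (640 * k + 1) * (k + 4)) * M ≤ 2 ^ (250 * k) * M :=
          Nat.mul_le_mul_right _ hpoly
        omega

open Classical in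
theorem u4c : ∃ C k0 : ℕ, ∀ k ≥ k0, ∀ n, Sz k n → ∀ q : ℕ, 2 ^ C * n ≤ q →
    ((univ.filter fun χ : V n → Fin q => Code4 k χ).card : ℝ) ≤
      (1 / 4) ^ n * (q : ℝ) ^ (2 ^ n) := by
  obtain ⟨C, hC⟩ : ∃ C : ℕ, C = 2 ^ 23 + 4 := ⟨_, rfl⟩
  refine ⟨C, 1, fun k hk n hn q hq => ?_⟩
  have hnum := u4c_num k n hk hn
  obtain ⟨h1, h2⟩ := hn
  have hnpos : 0 < n := lt_of_lt_of_le (by positivity) h1
  have hqpos : 0 < q := lt_of_lt_of_le (by positivity) hq
  set M := n.choose k with hM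
  set u0 := n * M / 2 ^ (70 * k) with hu0
  -- index set
  set 𝒰 : Finset (V n) → Finset (Finset (V n × Fin n)) := fun 𝒮 =>
    (𝒮 ×ˢ (univ : Finset (Fin n))).powerset.filter fun U =>
      n * 𝒮.card ≤ 2 ^ 22 * U.card ∧ n * M ≤ 2 ^ (70 * k) * U.card with h𝒰
  set F : (V n → V n) → Finset (V n × Fin n) → Finset (V n → Fin q) := fun x' U =>
    univ.filter fun χ : V n → Fin q => ∃ y : V n → V n, u4c_ev k x' U y χ with hF
  have hsub : (univ.filter fun χ : V n → Fin q => Code4 k χ) ⊆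
      (XX n k).biUnion fun x' => (Lk n k).powerset.biUnion fun 𝒮 => (𝒰 𝒮).biUnion fun U =>
        F x' U := by
    intro χ hχ
    obtain ⟨x', hx', 𝒮, y, U, z, g1, g2, g3, g4, g5, g6, g7⟩ := (mem_filter.1 hχ).2
    rw [mem_biUnion]
    refine ⟨x', hx', ?_⟩
    rw [mem_biUnion]
    refine ⟨𝒮, mem_powerset.2 g1, ?_⟩
    rw [mem_biUnion]
    refine ⟨U, ?_, ?_⟩
    · rw [h𝒰, mem_filter, mem_powerset]
      refine ⟨fun u hu => mem_product.2 ⟨g2 u hu, mem_univ _⟩, g6, g7⟩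
    · exact mem_filter.2 ⟨mem_univ _, y, z, g3, g4, g5⟩
  -- one triple
  have hone : ∀ x', ∀ 𝒮, ∀ U ∈ 𝒰 𝒮, ((F x' U).card : ℝ) ≤
      (q : ℝ) ^ (2 ^ n) / (2 ^ (n * 𝒮.card) * 2 ^ (4 * u0)) := by
    intro x' 𝒮 U hU
    rw [h𝒰, mem_filter, mem_powerset] at hU
    obtain ⟨g0, g6, g7⟩ := hU
    have hfix := u4c_fix' (q := q) k x' 𝒮 U (fun u hu => (mem_product.1 (g0 hu)).1)
    have hfix' : ((F x' U).card : ℝ) * (q : ℝ) ^ U.card ≤
        2 ^ (n * 𝒮.card) * (n : ℝ) ^ U.card * (q : ℝ) ^ (2 ^ n) := by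
      exact_mod_cast hfix
    have hqC : ((2 : ℝ) ^ C * n) ^ U.card ≤ (q : ℝ) ^ U.card := by
      apply pow_le_pow_left₀ (by positivity)
      exact_mod_cast hq
    have hu : u0 ≤ U.card := by
      rw [hu0]
      exact Nat.div_le_of_le_mul g7
    have hexp : 2 * (n * 𝒮.card) + 4 * u0 ≤ C * U.card := by
      rw [hC]
      have : 2 ^ 22 * U.card * 2 = 2 ^ 23 * U.card := by ring
      have h3 : (2 ^ 23 + 4) * U.card = 2 ^ 23 * U.card + 4 * U.card := by ring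
      rw [h3]
      omega
    have hpow : (2 : ℝ) ^ (n * 𝒮.card) * (2 ^ (n * 𝒮.card) * 2 ^ (4 * u0)) ≤ (2 : ℝ) ^ (C * U.card) := by
      rw [← pow_add, ← pow_add]
      exact pow_le_pow_right₀ (by norm_num) (by omega)
    rw [le_div_iff₀ (by positivity)]
    have hn0 : (0 : ℝ) < (n : ℝ) ^ U.card := by
      have : (0 : ℝ) < n := by exact_mod_cast hnpos
      positivity
    have h4 : ((F x' U).card : ℝ) * (2 ^ (C * U.card)) ≤ 2 ^ (n * 𝒮.card) * (q : ℝ) ^ (2 ^ n) := by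
      have h5 : ((F x' U).card : ℝ) * ((2 : ℝ) ^ C * n) ^ U.card ≤
          2 ^ (n * 𝒮.card) * (n : ℝ) ^ U.card * (q : ℝ) ^ (2 ^ n) :=
        (mul_le_mul_of_nonneg_left hqC (by positivity)).trans hfix'
      rw [mul_pow, ← pow_mul] at h5
      have h6 : ((F x' U).card : ℝ) * (2 ^ (C * U.card)) * (n : ℝ) ^ U.card ≤
          2 ^ (n * 𝒮.card) * (q : ℝ) ^ (2 ^ n) * (n : ℝ) ^ U.card := by
        calc _ = ((F x' U).card : ℝ) * (2 ^ (C * U.card) * (n : ℝ) ^ U.card) := by ring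
          _ ≤ _ := h5
          _ = _ := by ring
      exact le_of_mul_le_mul_right h6 hn0
    have h7 : (2 : ℝ) ^ (n * 𝒮.card) * (((F x' U).card : ℝ) * (2 ^ (n * 𝒮.card) * 2 ^ (4 * u0))) ≤
        2 ^ (n * 𝒮.card) * (q : ℝ) ^ (2 ^ n) := by
      calc _ = ((F x' U).card : ℝ) * ((2 : ℝ) ^ (n * 𝒮.card) * (2 ^ (n * 𝒮.card) * 2 ^ (4 * u0))) := by
            ring
        _ ≤ ((F x' U).card : ℝ) * (2 ^ (C * U.card)) := mul_le_mul_of_nonneg_left hpow (by positivity)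
        _ ≤ _ := h4
    exact le_of_mul_le_mul_left h7 (by positivity)
  have hU𝒮 : ∀ 𝒮 : Finset (V n), ((𝒰 𝒮).card : ℝ) ≤ 2 ^ (n * 𝒮.card) := by
    intro 𝒮
    have : (𝒰 𝒮).card ≤ 2 ^ (n * 𝒮.card) := by
      refine (card_filter_le _ _).trans (le_of_eq ?_)
      rw [card_powerset, card_product, card_univ, Fintype.card_fin, mul_comm]
    exact_mod_cast this
  have htot : ((univ.filter fun χ : V n → Fin q => Code4 k χ).card : ℝ) ≤
      ((XX n k).card : ℝ) * (2 ^ M * ((q : ℝ) ^ (2 ^ n) / 2 ^ (4 * u0))) := by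
    calc _ ≤ ((((XX n k).biUnion fun x' => (Lk n k).powerset.biUnion fun 𝒮 =>
          (𝒰 𝒮).biUnion fun U => F x' U).card : ℕ) : ℝ) := by exact_mod_cast card_le_card hsub
      _ ≤ ∑ x' ∈ XX n k, ((((Lk n k).powerset.biUnion fun 𝒮 =>
          (𝒰 𝒮).biUnion fun U => F x' U).card : ℕ) : ℝ) := by exact_mod_cast card_biUnion_le
      _ ≤ ∑ _x' ∈ XX n k, (2 ^ M * ((q : ℝ) ^ (2 ^ n) / 2 ^ (4 * u0))) := by
          apply Finset.sum_le_sum
          intro x' _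
          calc _ ≤ ∑ 𝒮 ∈ (Lk n k).powerset, ((((𝒰 𝒮).biUnion fun U => F x' U).card : ℕ) : ℝ) := by
                exact_mod_cast card_biUnion_le
            _ ≤ ∑ _𝒮 ∈ (Lk n k).powerset, ((q : ℝ) ^ (2 ^ n) / 2 ^ (4 * u0)) := by
                apply Finset.sum_le_sum
                intro 𝒮 _
                calc _ ≤ ∑ U ∈ 𝒰 𝒮, ((F x' U).card : ℝ) := by exact_mod_cast card_biUnion_le
                  _ ≤ ∑ _U ∈ 𝒰 𝒮, (q : ℝ) ^ (2 ^ n) / (2 ^ (n * 𝒮.card) * 2 ^ (4 * u0)) :=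
                      Finset.sum_le_sum (hone x' 𝒮)
                  _ = ((𝒰 𝒮).card : ℝ) * ((q : ℝ) ^ (2 ^ n) / (2 ^ (n * 𝒮.card) * 2 ^ (4 * u0))) := by
                      rw [Finset.sum_const, nsmul_eq_mul]
                  _ ≤ 2 ^ (n * 𝒮.card) * ((q : ℝ) ^ (2 ^ n) / (2 ^ (n * 𝒮.card) * 2 ^ (4 * u0))) :=
                      mul_le_mul_of_nonneg_right (hU𝒮 𝒮) (by positivity)
                  _ = (q : ℝ) ^ (2 ^ n) / 2 ^ (4 * u0) := by
                      field_simp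
            _ = 2 ^ M * ((q : ℝ) ^ (2 ^ n) / 2 ^ (4 * u0)) := by
                rw [Finset.sum_const, nsmul_eq_mul, card_powerset, card_powersetCard, card_univ,
                  Fintype.card_fin]
                push_cast
                rfl
      _ = ((XX n k).card : ℝ) * (2 ^ M * ((q : ℝ) ^ (2 ^ n) / 2 ^ (4 * u0))) := by
          rw [Finset.sum_const, nsmul_eq_mul]
  refine htot.trans ?_
  have hnum' : ((XX n k).card : ℝ) * 2 ^ M * 4 ^ n ≤ 2 ^ (4 * u0) := by exact_mod_cast hnum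
  have h4 : ((1 : ℝ) / 4) ^ n = 1 / 4 ^ n := by rw [div_pow, one_pow]
  rw [h4]
  have e1 : ((XX n k).card : ℝ) * (2 ^ M * ((q : ℝ) ^ (2 ^ n) / 2 ^ (4 * u0))) =
      ((XX n k).card : ℝ) * 2 ^ M / 2 ^ (4 * u0) * (q : ℝ) ^ (2 ^ n) := by ring
  rw [e1]
  apply mul_le_mul_of_nonneg_right _ (by positivity)
  rw [div_le_div_iff₀ (by positivity) (by positivity)]
  linarith

end Pool.Agent.SHC
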