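import Pool.Agent.SHC.De

set_option autoImplicit false

namespace Pool.Agent.SHC

open Finset Pool.Agent.SH

/-- The code of a window with many bad `k`-sets. -/
def Code4 {n : ℕ} {C : Type} (k : ℕ) (χ : V n → C) : Prop :=
  ∃ x' ∈ XX n k, ∃ (𝒮 : Finset (V n)) (y : V n → V n) (U : Finset (V n × Fin n))
    (z : V n × Fin n → Fin n), 𝒮 ⊆ Lk n k ∧ (∀ u ∈ U, u.1 ∈ 𝒮) ∧
    (∀ u ∈ U, ∀ u' ∈ U, fl (y u.1) (z u) = fl (y u'.1) (z u') → u = u') ∧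
    (∀ u ∈ U, ∀ u' ∈ U, fl (y u.1) (z u) ≠ vT k x' (insert u'.2 u'.1)) ∧
    (∀ u ∈ U, χ (fl (y u.1) (z u)) = χ (vT k x' (insert u.2 u.1))) ∧
    n * 𝒮.card ≤ 2 ^ 22 * U.card ∧ n * n.choose k ≤ 2 ^ (70 * k) * U.card

end Pool.Agent.SHC
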