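import Pool.Agent.SHC.U4d
import Pool.Agent.SHC.Gd
import Pool.Agent.SHC.Vt
import Pool.Agent.SHC.Lt
import Pool.Agent.SH.Cb

set_option autoImplicit false

namespace Pool.Agent.SHC

open Finset Pool.Agent.SH

section

variable {n k : ℕ} {C : Type} {χ : V n → C} {x : V n → V n} {p : V n → V n → V n}

theorem x4_T {S : V n} {a : Fin n} (hS : S ∈ Lk n k) (ha : a ∉ S) : insert a S ∈ Lk n (k + 1) := by
  rw [mem_powersetCard] at hS ⊢
  exact ⟨subset_univ _, by rw [card_insert_of_notMem ha, hS.2]⟩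

theorem x4_erase {T : V n} {t : Fin n} (hT : T ∈ Lk n (k + 1)) (ht : t ∈ T) :
    T.erase t ∈ Lk n k := by
  rw [mem_powersetCard] at hT ⊢
  exact ⟨subset_univ _, by rw [card_erase_of_mem ht, hT.2]; rfl⟩

theorem x4_adj (hc : IsCfg k χ x p) {T : V n} {t : Fin n} (hT : T ∈ Lk n (k + 1)) (ht : t ∈ T) :
    adj (x (T.erase t)) (p (T.erase t) T) :=
  hc.hp _ _ (mem_powersetCard.1 (x4_erase hT ht)).2 (mem_powersetCard.1 hT).2 (erase_subset _ _)

theorem x4_head {T : V n} (hR : Reg k x p T) :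
    ∃ t ∈ T, T.erase t ∈ Bk k x ∧ p (T.erase t) T = vT k x T := by
  classical
  have hpos : 0 < (T.filter fun t => T.erase t ∈ Bk k x ∧ p (T.erase t) T = vT k x T).card := by
    unfold Reg at hR
    omega
  obtain ⟨t, ht⟩ := card_pos.1 hpos
  obtain ⟨h1, h2⟩ := mem_filter.1 ht
  exact ⟨t, h1, h2⟩

theorem x4_col (hc : IsCfg k χ x p) {S T : V n} (hS : S ∈ Lk n k) (hT : T ∈ Lk n (k + 1))
    (hST : S ⊆ T) (hR : Reg k x p T) : χ (p S T) = χ (vT k x T) := by
  obtain ⟨t, ht, _, h⟩ := x4_head hR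
  rw [← h]
  exact hc.hc _ _ _ (mem_powersetCard.1 hS).2 (mem_powersetCard.1 (x4_erase hT ht)).2
    (mem_powersetCard.1 hT).2 hST (erase_subset _ _)

open Classical in
theorem x4_cnt1 (hc : IsCfg k χ x p) (v : V n) :
    ((Lk n k ×ˢ (univ : Finset (Fin n))).filter fun u =>
      u.2 ∉ u.1 ∧ p u.1 (insert u.2 u.1) = v).card ≤ dg k x v := by
  unfold dg
  refine card_le_card_of_injOn (fun u => u.1) ?_ ?_
  · rintro ⟨S, a⟩ hu
    obtain ⟨h1, h2, h3⟩ := mem_filter.1 hu
    have hS : S ∈ Lk n k := (mem_product.1 h1).1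
    rw [mem_coe, mem_filter]
    refine ⟨hS, ?_⟩
    simp only at h2 h3 ⊢
    rw [← h3]
    exact hc.hp _ _ (mem_powersetCard.1 hS).2 (mem_powersetCard.1 (x4_T hS h2)).2
      (subset_insert _ _)
  · rintro ⟨S, a⟩ hu ⟨S', a'⟩ hu' h
    obtain ⟨h1, h2, h3⟩ := mem_filter.1 hu
    obtain ⟨h1', h2', h3'⟩ := mem_filter.1 hu'
    simp only at h h2 h3 h2' h3'
    subst h
    have hS : S ∈ Lk n k := (mem_product.1 h1).1
    have := hc.hpi S (insert a S) (insert a' S) (mem_powersetCard.1 hS).2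
      (mem_powersetCard.1 (x4_T hS h2)).2 (mem_powersetCard.1 (x4_T hS h2')).2
      (subset_insert _ _) (subset_insert _ _) (h3.trans h3'.symm)
    have ha : a ∈ insert a' S := by rw [← this]; exact mem_insert_self _ _
    rcases mem_insert.1 ha with e | e
    · rw [e]
    · exact absurd e h2

open Classical in
theorem x4_cntT (hc : IsCfg k χ x p) (v : V n) :
    ((Lk n (k + 1)).filter fun T => Reg k x p T ∧ vT k x T = v).card ≤ dg k x v := by
  unfold dg
  have hs : ∀ T : V n, ∃ S : V n, T ∈ ((Lk n (k + 1)).filter fun T => Reg k x p T ∧ vT k x T = v) →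
      (S ∈ Lk n k ∧ S ⊆ T ∧ p S T = v) := by
    intro T
    by_cases hT : T ∈ ((Lk n (k + 1)).filter fun T => Reg k x p T ∧ vT k x T = v)
    · obtain ⟨h1, h2, h3⟩ := mem_filter.1 hT
      obtain ⟨t, ht, _, h⟩ := x4_head h2
      exact ⟨T.erase t, fun _ => ⟨x4_erase h1 ht, erase_subset _ _, by rw [h, h3]⟩⟩
    · exact ⟨∅, fun h => absurd h hT⟩
  choose f hf using hs
  refine card_le_card_of_injOn f ?_ ?_
  · intro T hT
    obtain ⟨h1, h2, h3⟩ := hf T hT
    have hT' := (mem_filter.1 (mem_coe.1 hT)).1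
    rw [mem_coe, mem_filter]
    refine ⟨h1, ?_⟩
    rw [← h3]
    exact hc.hp _ _ (mem_powersetCard.1 h1).2 (mem_powersetCard.1 hT').2 h2
  · intro T hT T' hT' h
    obtain ⟨h1, h2, h3⟩ := hf T hT
    obtain ⟨h1', h2', h3'⟩ := hf T' hT'
    have hTc := (mem_filter.1 (mem_coe.1 hT)).1
    have hTc' := (mem_filter.1 (mem_coe.1 hT')).1
    refine hc.hpi (f T) T T' (mem_powersetCard.1 h1).2 (mem_powersetCard.1 hTc).2
      (mem_powersetCard.1 hTc').2 h2 ?_ ?_
    · rw [h]; exact h2'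
    · rw [h3, h, h3']

open Classical in
theorem x4_cnt2 (hc : IsCfg k χ x p) (v : V n) :
    ((Lk n k ×ˢ (univ : Finset (Fin n))).filter fun u =>
      u.2 ∉ u.1 ∧ Reg k x p (insert u.2 u.1) ∧ vT k x (insert u.2 u.1) = v).card ≤
      (k + 1) * dg k x v := by
  set 𝒯 := (Lk n (k + 1)).filter fun T => Reg k x p T ∧ vT k x T = v with h𝒯
  have hsub : ((Lk n k ×ˢ (univ : Finset (Fin n))).filter fun u =>
      u.2 ∉ u.1 ∧ Reg k x p (insert u.2 u.1) ∧ vT k x (insert u.2 u.1) = v) ⊆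
      𝒯.biUnion fun T => T.image fun a => (T.erase a, a) := by
    rintro ⟨S, a⟩ hu
    obtain ⟨h1, h2, h3, h4⟩ := mem_filter.1 hu
    have hS : S ∈ Lk n k := (mem_product.1 h1).1
    simp only at h2 h3 h4
    rw [mem_biUnion]
    refine ⟨insert a S, mem_filter.2 ⟨x4_T hS h2, h3, h4⟩, ?_⟩
    rw [mem_image]
    exact ⟨a, mem_insert_self _ _, by rw [erase_insert h2]⟩
  refine (card_le_card hsub).trans (card_biUnion_le.trans ?_)
  have h1 : ∀ T ∈ 𝒯, (T.image fun a => (T.erase a, a)).card ≤ k + 1 := by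
    intro T hT
    exact card_image_le.trans (mem_powersetCard.1 (mem_filter.1 hT).1).2.le
  refine (sum_le_card_nsmul _ _ _ h1).trans ?_
  rw [smul_eq_mul, mul_comm]
  exact Nat.mul_le_mul_left _ (x4_cntT hc v)

/-- The two vertices of a pair. -/
noncomputable def x4_Q (k : ℕ) (x : V n → V n) (p : V n → V n → V n) (u : V n × Fin n) :
    Finset (V n) := {p u.1 (insert u.2 u.1), vT k x (insert u.2 u.1)}

open Classical in
/-- Conflicts of a pair with light vertices. -/
theorem x4_W (hc : IsCfg k χ x p) (t : ℕ) (u : V n × Fin n)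
    (h1 : dg k x (p u.1 (insert u.2 u.1)) ≤ t) (h2 : dg k x (vT k x (insert u.2 u.1)) ≤ t) :
    ((Lk n k ×ˢ (univ : Finset (Fin n))).filter fun u' => (u'.2 ∉ u'.1 ∧
      Reg k x p (insert u'.2 u'.1)) ∧ ¬ Disjoint (x4_Q k x p u) (x4_Q k x p u')).card ≤
      2 * ((k + 2) * t) := by
  have hone : ∀ v : V n, dg k x v ≤ t →
      ((Lk n k ×ˢ (univ : Finset (Fin n))).filter fun u' => (u'.2 ∉ u'.1 ∧
        Reg k x p (insert u'.2 u'.1)) ∧ v ∈ x4_Q k x p u').card ≤ (k + 2) * t := by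
    intro v hv
    have hsub : ((Lk n k ×ˢ (univ : Finset (Fin n))).filter fun u' => (u'.2 ∉ u'.1 ∧
        Reg k x p (insert u'.2 u'.1)) ∧ v ∈ x4_Q k x p u') ⊆
        ((Lk n k ×ˢ (univ : Finset (Fin n))).filter fun u =>
          u.2 ∉ u.1 ∧ p u.1 (insert u.2 u.1) = v) ∪
        ((Lk n k ×ˢ (univ : Finset (Fin n))).filter fun u =>
          u.2 ∉ u.1 ∧ Reg k x p (insert u.2 u.1) ∧ vT k x (insert u.2 u.1) = v) := by
      intro u' hu'
      obtain ⟨g1, ⟨g2, g3⟩, g4⟩ := mem_filter.1 hu'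
      unfold x4_Q at g4
      rw [mem_insert, mem_singleton] at g4
      rw [mem_union, mem_filter, mem_filter]
      rcases g4 with e | e
      · left; exact ⟨g1, g2, e.symm⟩
      · right; exact ⟨g1, g2, g3, e.symm⟩
    refine (card_le_card hsub).trans ((card_union_le _ _).trans ?_)
    have e1 := x4_cnt1 hc v
    have e2 := x4_cnt2 hc v
    have e3 : (k + 1) * dg k x v ≤ (k + 1) * t := Nat.mul_le_mul_left _ hv
    have e4 : (k + 2) * t = t + (k + 1) * t := by ring
    omega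
  have hsub : ((Lk n k ×ˢ (univ : Finset (Fin n))).filter fun u' => (u'.2 ∉ u'.1 ∧
      Reg k x p (insert u'.2 u'.1)) ∧ ¬ Disjoint (x4_Q k x p u) (x4_Q k x p u')) ⊆
      ((Lk n k ×ˢ (univ : Finset (Fin n))).filter fun u' => (u'.2 ∉ u'.1 ∧
        Reg k x p (insert u'.2 u'.1)) ∧ p u.1 (insert u.2 u.1) ∈ x4_Q k x p u') ∪
      ((Lk n k ×ˢ (univ : Finset (Fin n))).filter fun u' => (u'.2 ∉ u'.1 ∧
        Reg k x p (insert u'.2 u'.1)) ∧ vT k x (insert u.2 u.1) ∈ x4_Q k x p u') := by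
    intro u' hu'
    obtain ⟨g1, g2, g3⟩ := mem_filter.1 hu'
    rw [Finset.not_disjoint_iff] at g3
    obtain ⟨v, hv, hv'⟩ := g3
    unfold x4_Q at hv
    rw [mem_insert, mem_singleton] at hv
    rw [mem_union, mem_filter, mem_filter]
    rcases hv with e | e
    · left; exact ⟨g1, g2, by rw [← e]; exact hv'⟩
    · right; exact ⟨g1, g2, by rw [← e]; exact hv'⟩
  refine (card_le_card hsub).trans ((card_union_le _ _).trans ?_)
  have e1 := hone _ h1
  have e2 := hone _ h2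
  omega

/-- Heavy pairs. -/
def x4_H (k : ℕ) (x : V n → V n) : Finset (V n × Fin n) :=
  (Lk n k ×ˢ (univ : Finset (Fin n))).filter fun p => 2 ^ (32 * k) < dg k x (fl (x p.1) p.2)

open Classical in
/-- Off pairs with heavy position. -/
theorem x4_h1 (hc : IsCfg k χ x p) :
    ((Lk n k ×ˢ (univ : Finset (Fin n))).filter fun u => u.2 ∈ offs k x p u.1 ∧
      2 ^ (32 * k) < dg k x (p u.1 (insert u.2 u.1))).card ≤ (x4_H k x).card := by
  set E := ((Lk n k ×ˢ (univ : Finset (Fin n))).filter fun u => u.2 ∈ offs k x p u.1 ∧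
      2 ^ (32 * k) < dg k x (p u.1 (insert u.2 u.1))) with hE
  have hs : ∀ u : V n × Fin n, ∃ i : Fin n, u ∈ E → p u.1 (insert u.2 u.1) = fl (x u.1) i := by
    intro u
    by_cases hu : u ∈ E
    · obtain ⟨h1, h2, _⟩ := mem_filter.1 hu
      have hS := (mem_product.1 h1).1
      have ha := (mem_filter.1 h2).2.1
      have := hc.hp _ _ (mem_powersetCard.1 hS).2 (mem_powersetCard.1 (x4_T hS ha)).2
        (subset_insert _ _)
      obtain ⟨i, hi⟩ := adj_iff.1 this
      exact ⟨i, fun _ => hi⟩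
    · exact ⟨u.2, fun h => absurd h hu⟩
  choose f hf using hs
  refine card_le_card_of_injOn (fun u => (u.1, f u)) ?_ ?_
  · intro u hu
    have hu' : u ∈ E := hu
    obtain ⟨h1, h2, h3⟩ := mem_filter.1 hu'
    unfold x4_H
    rw [mem_coe, mem_filter]
    refine ⟨mem_product.2 ⟨(mem_product.1 h1).1, mem_univ _⟩, ?_⟩
    simp only
    rw [← hf u hu']
    exact h3
  · rintro ⟨S, a⟩ hu ⟨S', a'⟩ hu' h
    have e1 : (S, a) ∈ E := hu
    have e2 : (S', a') ∈ E := hu'
    obtain ⟨h1, h2, h3⟩ := mem_filter.1 e1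
    obtain ⟨h1', h2', h3'⟩ := mem_filter.1 e2
    simp only [Prod.mk.injEq] at h
    obtain ⟨hS, hi⟩ := h
    subst hS
    have g1 := hf _ e1
    have g2 := hf _ e2
    simp only at g1 g2 h2 h2'
    rw [hi, ← g2] at g1
    have hS : S ∈ Lk n k := (mem_product.1 h1).1
    have ha := (mem_filter.1 h2).2.1
    have ha' := (mem_filter.1 h2').2.1
    have := hc.hpi S (insert a S) (insert a' S) (mem_powersetCard.1 hS).2
      (mem_powersetCard.1 (x4_T hS ha)).2 (mem_powersetCard.1 (x4_T hS ha')).2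
      (subset_insert _ _) (subset_insert _ _) g1
    have ha2 : a ∈ insert a' S := by rw [← this]; exact mem_insert_self _ _
    rcases mem_insert.1 ha2 with e | e
    · rw [e]
    · exact absurd e ha

open Classical in
/-- Regular sets with heavy head. -/
theorem x4_h2T (hc : IsCfg k χ x p) :
    ((Lk n (k + 1)).filter fun T => Reg k x p T ∧ 2 ^ (32 * k) < dg k x (vT k x T)).card *
      (3 * (k + 1)) ≤ 5 * (x4_H k x).card := by
  set 𝒯 := (Lk n (k + 1)).filter fun T => Reg k x p T ∧ 2 ^ (32 * k) < dg k x (vT k x T) with h𝒯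
  set E := 𝒯.biUnion fun T =>
    ((T.filter fun t => T.erase t ∈ Bk k x ∧ p (T.erase t) T = vT k x T).image
      fun t => (T.erase t, T)) with hE
  have hEc : 𝒯.card * (3 * (k + 1)) ≤ 5 * E.card := by
    rw [hE, card_biUnion]
    · rw [mul_sum]
      have : ∀ T ∈ 𝒯, 3 * (k + 1) ≤ 5 * ((T.filter fun t => T.erase t ∈ Bk k x ∧
          p (T.erase t) T = vT k x T).image fun t => (T.erase t, T)).card := by
        intro T hT
        rw [card_image_of_injOn]
        · exact (mem_filter.1 hT).2.1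
        · intro t ht t' ht' h
          simp only [Prod.mk.injEq, and_true] at h
          by_contra hne
          have h1 : t ∈ T.erase t' := mem_erase.2 ⟨hne, (mem_filter.1 ht).1⟩
          rw [← h] at h1
          exact notMem_erase t T h1
      calc 𝒯.card * (3 * (k + 1)) = 𝒯.card • (3 * (k + 1)) := by rw [smul_eq_mul]
        _ ≤ _ := card_nsmul_le_sum _ _ _ this
    · intro T hT T' hT' hne
      rw [Function.onFun, disjoint_left]
      rintro ⟨S, T1⟩ h1 h2
      obtain ⟨t, _, e⟩ := mem_image.1 h1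
      obtain ⟨t', _, e'⟩ := mem_image.1 h2
      simp only [Prod.mk.injEq] at e e'
      exact hne (e.2.trans e'.2.symm)
  have hmem : ∀ e : V n × V n, e ∈ E → e.1 ∈ Lk n k ∧ e.2 ∈ Lk n (k + 1) ∧ e.1 ⊆ e.2 ∧
      p e.1 e.2 = vT k x e.2 ∧ 2 ^ (32 * k) < dg k x (vT k x e.2) := by
    intro e he
    obtain ⟨T, hT, h⟩ := mem_biUnion.1 he
    obtain ⟨t, ht, rfl⟩ := mem_image.1 h
    obtain ⟨h1, h2, h3⟩ := mem_filter.1 ht
    obtain ⟨g1, g2, g3⟩ := mem_filter.1 hT
    exact ⟨x4_erase g1 h1, g1, erase_subset _ _, h3, g3⟩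
  have hs : ∀ e : V n × V n, e ∈ E → ∃ i : Fin n, p e.1 e.2 = fl (x e.1) i := by
    intro e he
    obtain ⟨h1, h2, h3, _⟩ := hmem e he
    exact adj_iff.1 (hc.hp _ _ (mem_powersetCard.1 h1).2 (mem_powersetCard.1 h2).2 h3)
  have hle : E.card ≤ (x4_H k x).card := by
    rcases E.eq_empty_or_nonempty with h0 | ⟨e0, he0⟩
    · rw [h0]; simp
    · obtain ⟨i0, _⟩ := hs e0 he0
      have hs' : ∀ e : V n × V n, ∃ i : Fin n, e ∈ E → p e.1 e.2 = fl (x e.1) i := by
        intro e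
        by_cases he : e ∈ E
        · obtain ⟨i, hi⟩ := hs e he
          exact ⟨i, fun _ => hi⟩
        · exact ⟨i0, fun h => absurd h he⟩
      choose f hf using hs'
      refine card_le_card_of_injOn (fun e => (e.1, f e)) ?_ ?_
      · intro e he
        have he' : e ∈ E := he
        obtain ⟨h1, h2, h3, h4, h5⟩ := hmem e he'
        unfold x4_H
        rw [mem_coe, mem_filter]
        refine ⟨mem_product.2 ⟨h1, mem_univ _⟩, ?_⟩
        simp only
        rw [← hf e he', h4]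
        exact h5
      · rintro ⟨S, T⟩ he ⟨S', T'⟩ he' h
        have e1 : (S, T) ∈ E := he
        have e2 : (S', T') ∈ E := he'
        simp only [Prod.mk.injEq] at h
        obtain ⟨hS, hi⟩ := h
        subst hS
        obtain ⟨h1, h2, h3, h4, h5⟩ := hmem _ e1
        obtain ⟨h1', h2', h3', h4', h5'⟩ := hmem _ e2
        have g1 := hf _ e1
        have g2 := hf _ e2
        simp only at g1 g2 h1 h2 h3 h2' h3'
        rw [hi, ← g2] at g1
        have := hc.hpi S T T' (mem_powersetCard.1 h1).2 (mem_powersetCard.1 h2).2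
          (mem_powersetCard.1 h2').2 h3 h3' g1
        rw [this]
  exact hEc.trans (Nat.mul_le_mul_left 5 hle)

end


end Pool.Agent.SHC
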