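import Pool.Agent.SH.Xa

set_option autoImplicit false

namespace Pool.Agent.SHC

open Finset Pool.Agent.SH

/-- Counting pairs by rows, with exceptional rows. -/
theorem xl_rows {n : ℕ} (P : Fin n → Fin n → Prop) [∀ a c, Decidable (P a c)]
    (E : Finset (Fin n)) (N : ℕ)
    (h : ∀ a, a ∉ E → (univ.filter fun c : Fin n => P a c).card ≤ N) :
    ((univ : Finset (Fin n × Fin n)).filter fun p => P p.1 p.2).card ≤ n * N + E.card * n := by
  classical
  have h1 : ((univ : Finset (Fin n × Fin n)).filter fun p => P p.1 p.2).card =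
      ∑ a : Fin n, (univ.filter fun c : Fin n => P a c).card := by
    rw [← univ_product_univ, card_filter, sum_product]
    refine sum_congr rfl fun a _ => ?_
    rw [card_filter]
  rw [h1]
  calc _ ≤ ∑ a : Fin n, (N + if a ∈ E then n else 0) := by
        refine sum_le_sum fun a _ => ?_
        by_cases ha : a ∈ E
        · rw [if_pos ha]
          refine le_trans (card_le_univ _) ?_
          simp
        · rw [if_neg ha]
          exact h a ha
    _ = n * N + E.card * n := by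
        rw [sum_add_distrib]
        simp

theorem xl_cols {n : ℕ} (P : Fin n → Fin n → Prop) [∀ a c, Decidable (P a c)]
    (E : Finset (Fin n)) (N : ℕ)
    (h : ∀ c, c ∉ E → (univ.filter fun a : Fin n => P a c).card ≤ N) :
    ((univ : Finset (Fin n × Fin n)).filter fun p => P p.1 p.2).card ≤ n * N + E.card * n := by
  classical
  refine le_trans (card_le_card_of_injOn (fun p : Fin n × Fin n => (p.2, p.1)) ?_ ?_)
    (xl_rows (fun a c => P c a) E N h)
  · intro p hp
    have hp' := (mem_filter.1 (mem_coe.1 hp)).2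
    exact mem_coe.2 (mem_filter.2 ⟨mem_univ _, hp'⟩)
  · rintro ⟨a, c⟩ _ ⟨a', c'⟩ _ h
    simp only [Prod.mk.injEq] at h ⊢
    exact ⟨h.2, h.1⟩

/-- Many regular pairs, local hypotheses. -/
theorem xl_many {n : ℕ} (σ : Equiv.Perm (V n)) (hn : 200 ≤ n) (w : V n) (b : Fin n)
    (hw : 100 * dfc σ w ≤ n) (hwb : 100 * dfc σ (fl w b) ≤ n)
    (hE : 100 * (univ.filter fun a : Fin n => n < 100 * dfc σ (fl w a)).card ≤ n)
    (hEb : 100 * (univ.filter fun a : Fin n => n < 100 * dfc σ (fl (fl w b) a)).card ≤ n)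
    (hb : ¬ adj (σ w) (σ (fl w b))) :
    n * n ≤ 4 * ((univ : Finset (Fin n × Fin n)).filter fun p => p.1 < p.2 ∧ Reg σ w b p).card := by
  classical
  obtain ⟨m, hm, hm'⟩ : ∃ m : ℕ, 100 * m ≤ n ∧ n < 100 * m + 100 := ⟨n / 100, by omega, by omega⟩
  have hdw : dfc σ w ≤ m := by omega
  have hdb : dfc σ (fl w b) ≤ m := by omega
  set E := univ.filter fun a : Fin n => n < 100 * dfc σ (fl w a) with hEdef
  set Eb := univ.filter fun a : Fin n => n < 100 * dfc σ (fl (fl w b) a) with hEbdef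
  have hEm : E.card ≤ m := by omega
  have hEbm : Eb.card ≤ m := by omega
  have hdE : ∀ a, a ∉ E → dfc σ (fl w a) ≤ m := by
    intro a ha
    rw [hEdef, mem_filter] at ha
    have : ¬ n < 100 * dfc σ (fl w a) := fun h => ha ⟨mem_univ _, h⟩
    omega
  have hdEb : ∀ a, a ∉ Eb → dfc σ (fl (fl w b) a) ≤ m := by
    intro a ha
    rw [hEbdef, mem_filter] at ha
    have : ¬ n < 100 * dfc σ (fl (fl w b) a) := fun h => ha ⟨mem_univ _, h⟩
    omega
  -- the irregular sets
  let I1 := (univ : Finset (Fin n × Fin n)).filter fun p => p.1 = b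
  let I2 := (univ : Finset (Fin n × Fin n)).filter fun p => p.2 = b
  let I3 := (univ : Finset (Fin n × Fin n)).filter fun p => ¬ adj (σ w) (σ (fl w p.1))
  let I4 := (univ : Finset (Fin n × Fin n)).filter fun p => ¬ adj (σ w) (σ (fl w p.2))
  let I5 := (univ : Finset (Fin n × Fin n)).filter fun p =>
    ¬ adj (σ (fl w p.1)) (σ (fl (fl w p.1) p.2))
  let I6 := (univ : Finset (Fin n × Fin n)).filter fun p =>
    ¬ adj (σ (fl w p.2)) (σ (fl (fl w p.2) p.1))
  let I7 := (univ : Finset (Fin n × Fin n)).filter fun p =>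
    ¬ adj (σ (fl w b)) (σ (fl (fl w b) p.1))
  let I8 := (univ : Finset (Fin n × Fin n)).filter fun p =>
    ¬ adj (σ (fl w b)) (σ (fl (fl w b) p.2))
  let I9 := (univ : Finset (Fin n × Fin n)).filter fun p =>
    ¬ adj (σ (fl (fl w b) p.1)) (σ (fl (fl (fl w b) p.1) p.2))
  let I10 := (univ : Finset (Fin n × Fin n)).filter fun p =>
    ¬ adj (σ (fl (fl w b) p.2)) (σ (fl (fl (fl w b) p.2) p.1))
  let I11 := (univ : Finset (Fin n × Fin n)).filter fun p =>
    p.1 ≠ b ∧ adj (σ (fl w p.1)) (σ (fl (fl w p.1) b))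
  let I12 := (univ : Finset (Fin n × Fin n)).filter fun p =>
    ¬ adj (σ (fl w p.1)) (σ (fl (fl w p.1) b)) ∧ p.2 ≠ b ∧
      adj (σ (fl (fl w p.1) p.2)) (σ (fl (fl (fl w p.1) p.2) b))
  have c1 : I1.card ≤ n * 1 := xa_cols (fun a _ => a = b) 1 (fun c => by
    rw [card_le_one]
    intro x hx y hy
    rw [(mem_filter.1 hx).2, (mem_filter.1 hy).2])
  have c2 : I2.card ≤ n * 1 := xa_rows (fun _ c => c = b) 1 (fun a => by
    rw [card_le_one]
    intro x hx y hy
    rw [(mem_filter.1 hx).2, (mem_filter.1 hy).2])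
  have c3 : I3.card ≤ n * m := xa_cols (fun a _ => ¬ adj (σ w) (σ (fl w a))) m fun c => hdw
  have c4 : I4.card ≤ n * m := xa_rows (fun _ c => ¬ adj (σ w) (σ (fl w c))) m fun c => hdw
  have c5 : I5.card ≤ n * m + E.card * n :=
    xl_rows (fun a c => ¬ adj (σ (fl w a)) (σ (fl (fl w a) c))) E m fun a ha => hdE a ha
  have c6 : I6.card ≤ n * m + E.card * n :=
    xl_cols (fun a c => ¬ adj (σ (fl w c)) (σ (fl (fl w c) a))) E m fun c hc => hdE c hc
  have c7 : I7.card ≤ n * m :=
    xa_cols (fun a _ => ¬ adj (σ (fl w b)) (σ (fl (fl w b) a))) m fun c => hdb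
  have c8 : I8.card ≤ n * m :=
    xa_rows (fun _ c => ¬ adj (σ (fl w b)) (σ (fl (fl w b) c))) m fun c => hdb
  have c9 : I9.card ≤ n * m + Eb.card * n :=
    xl_rows (fun a c => ¬ adj (σ (fl (fl w b) a)) (σ (fl (fl (fl w b) a) c))) Eb m
      fun a ha => hdEb a ha
  have c10 : I10.card ≤ n * m + Eb.card * n :=
    xl_cols (fun a c => ¬ adj (σ (fl (fl w b) c)) (σ (fl (fl (fl w b) c) a))) Eb m
      fun c hc => hdEb c hc
  have c11 : I11.card ≤ n * (2 * m + 3) :=
    xa_cols (fun a _ => a ≠ b ∧ adj (σ (fl w a)) (σ (fl (fl w a) b))) (2 * m + 3)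
      fun c => (xa_D σ w b hb).trans (by omega)
  have c12 : I12.card ≤ n * (2 * m + 3) + (E ∪ Eb).card * n := by
    refine xl_rows (fun a c => ¬ adj (σ (fl w a)) (σ (fl (fl w a) b)) ∧ c ≠ b ∧
      adj (σ (fl (fl w a) c)) (σ (fl (fl (fl w a) c) b))) (E ∪ Eb) (2 * m + 3) fun a ha => ?_
    have ha1 : a ∉ E := fun h => ha (mem_union_left _ h)
    have ha2 : a ∉ Eb := fun h => ha (mem_union_right _ h)
    by_cases h : adj (σ (fl w a)) (σ (fl (fl w a) b))
    · rw [filter_false_of_mem (fun c _ => by tauto)]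
      simp
    · refine le_trans (card_le_card ?_) ((xa_D σ (fl w a) b h).trans
        (by
          have h1 := hdE a ha1
          have h2 := hdEb a ha2
          rw [fl_comm w b a] at h2
          omega))
      intro c hc
      have hc' := (mem_filter.1 hc).2
      exact mem_filter.2 ⟨mem_univ _, hc'.2⟩
  have hsub : ((univ : Finset (Fin n × Fin n)).filter fun p => p.1 < p.2) ⊆
      ((univ : Finset (Fin n × Fin n)).filter fun p => p.1 < p.2 ∧ Reg σ w b p) ∪
      (I1 ∪ (I2 ∪ (I3 ∪ (I4 ∪ (I5 ∪ (I6 ∪ (I7 ∪ (I8 ∪ (I9 ∪ (I10 ∪ (I11 ∪ I12))))))))))) := by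
    clear c1 c2 c3 c4 c5 c6 c7 c8 c9 c10 c11 c12 hdE hdEb hEm hEbm hE hEb hw hwb hdw hdb
    clear hEdef hEbdef
    clear E Eb
    intro p hp
    have hlt := (mem_filter.1 hp).2
    by_cases h1 : p.1 = b
    · simp [I1, h1]
    by_cases h2 : p.2 = b
    · simp [I2, h2]
    simp only [mem_union, mem_filter, mem_univ, true_and, I1, I2, I3, I4, I5, I6, I7, I8, I9, I10,
      I11, I12, Reg, hlt]
    tauto
  have hk := card_le_card hsub
  have hu : (((univ : Finset (Fin n × Fin n)).filter fun p => p.1 < p.2 ∧ Reg σ w b p) ∪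
      (I1 ∪ (I2 ∪ (I3 ∪ (I4 ∪ (I5 ∪ (I6 ∪ (I7 ∪ (I8 ∪ (I9 ∪ (I10 ∪ (I11 ∪ I12)))))))))))).card ≤
      ((univ : Finset (Fin n × Fin n)).filter fun p => p.1 < p.2 ∧ Reg σ w b p).card +
      (I1.card + (I2.card + (I3.card + (I4.card + (I5.card + (I6.card + (I7.card + (I8.card +
      (I9.card + (I10.card + (I11.card + I12.card))))))))))) := by
    repeat (first | exact card_union_le _ _ | refine (card_union_le _ _).trans (Nat.add_le_add_left ?_ _))
  have hl := xa_lt_card (n := n)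
  set R := ((univ : Finset (Fin n × Fin n)).filter fun p => p.1 < p.2 ∧ Reg σ w b p).card
  have e1 : E.card * n ≤ m * n := Nat.mul_le_mul_right _ hEm
  have e2 : Eb.card * n ≤ m * n := Nat.mul_le_mul_right _ hEbm
  have e3 : (E ∪ Eb).card * n ≤ E.card * n + Eb.card * n := by
    rw [← add_mul]
    exact Nat.mul_le_mul_right _ (card_union_le _ _)
  have e4 : m * n = n * m := mul_comm _ _
  have htot : ((univ : Finset (Fin n × Fin n)).filter fun p => p.1 < p.2).card ≤
      R + (n * 1 + n * 1 + 14 * (n * m) + 2 * (n * (2 * m + 3))) := by omega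
  have hnm : n * (100 * m) ≤ n * n := Nat.mul_le_mul_left _ hm
  have h200 : n * 200 ≤ n * n := Nat.mul_le_mul_left _ hn
  rw [show n * (100 * m) = 100 * (n * m) by ring] at hnm
  rw [show n * 1 + n * 1 + 14 * (n * m) + 2 * (n * (2 * m + 3)) = 8 * n + 18 * (n * m) by ring]
    at htot
  clear hu hk hsub c1 c2 c3 c4 c5 c6 c7 c8 c9 c10 c11 c12 hdE hdEb e1 e2 e3 e4
  generalize n * m = B at *
  generalize n * n = A at *
  omega

end Pool.Agent.SHC
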